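import Pool.Agent.Lib.MP_59b239_al.CJ.Spec

section
/-! # STR: filling a strip -/
namespace Pool.Agent.Lib.MP59b239.CJ

namespace STRM

variable {G : Type} [Group G] {n : ℕ} (gen : Fin n → G)

theorem chn_snoc (u x : List (Let n)) :
    chn (rsh gen) 1 (u ++ x) = chn (rsh gen) 1 u + chn (rsh gen) (ev gen u) x := by
  rw [chn_append, wlk_rsh, one_mul]

/-- the chain between the two paths at time `t` -/
noncomputable def F (u v : List (Let n)) (d : ℕ → List (Let n)) (t : ℕ) : G × Fin n →₀ ℤ :=
  chn (rsh gen) (ev gen (u.take t)) (d t) - chn (rsh gen) 1 (v.take t) +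
    chn (rsh gen) 1 (u.take t)

theorem step (u v : List (Let n)) (d : ℕ → List (Let n))
    (hd : ∀ t, ev gen (u.take t) * ev gen (d t) = ev gen (v.take t)) (t : ℕ) :
    ev gen (d t ++ v[t]?.toList ++ inv (d (t + 1)) ++ inv u[t]?.toList) = 1 ∧
    chn (rsh gen) (ev gen (u.take t)) (d t ++ v[t]?.toList ++ inv (d (t + 1)) ++
      inv u[t]?.toList) = F gen u v d t - F gen u v d (t + 1) := by
  have hu : u.take (t + 1) = u.take t ++ u[t]?.toList := List.take_add_one
  have hv : v.take (t + 1) = v.take t ++ v[t]?.toList := List.take_add_one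
  have eu : ev gen (u.take (t + 1)) = ev gen (u.take t) * ev gen u[t]?.toList := by
    rw [hu, ev_append]
  have evv : ev gen (v.take (t + 1)) = ev gen (v.take t) * ev gen v[t]?.toList := by
    rw [hv, ev_append]
  have h0 := hd t
  have h1 := hd (t + 1)
  have e3 : ev gen (u.take t) * (ev gen (d t) * ev gen v[t]?.toList) =
      ev gen (u.take (t + 1)) * ev gen (d (t + 1)) := by
    rw [← mul_assoc, h0, ← evv, h1]
  constructor
  · rw [ev_append, ev_append, ev_append, ev_inv, ev_inv]
    rw [← mul_left_cancel_iff (a := ev gen (u.take t)), mul_one]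
    calc ev gen (u.take t) * (ev gen (d t) * ev gen v[t]?.toList * (ev gen (d (t + 1)))⁻¹ *
          (ev gen u[t]?.toList)⁻¹)
        = ev gen (u.take t) * (ev gen (d t) * ev gen v[t]?.toList) * (ev gen (d (t + 1)))⁻¹ *
          (ev gen u[t]?.toList)⁻¹ := by group
      _ = ev gen (u.take t) := by rw [e3, eu]; group
  · have c1 : chn (rsh gen) (ev gen (v.take t)) v[t]?.toList =
        chn (rsh gen) 1 (v.take (t + 1)) - chn (rsh gen) 1 (v.take t) := by
      rw [hv, chn_snoc]; abel
    have c2 : chn (rsh gen) (ev gen (u.take t)) u[t]?.toList =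
        chn (rsh gen) 1 (u.take (t + 1)) - chn (rsh gen) 1 (u.take t) := by
      rw [hu, chn_snoc]; abel
    have c3 : chn (rsh gen) (ev gen (u.take (t + 1)) * ev gen (d (t + 1))) (inv (d (t + 1))) =
        -chn (rsh gen) (ev gen (u.take (t + 1))) (d (t + 1)) := by
      have := chn_inv (rsh gen) (ev gen (u.take (t + 1))) (d (t + 1))
      rwa [wlk_rsh] at this
    have c4 : chn (rsh gen) (ev gen (u.take (t + 1))) (inv u[t]?.toList) =
        -chn (rsh gen) (ev gen (u.take t)) u[t]?.toList := by
      have := chn_inv (rsh gen) (ev gen (u.take t)) u[t]?.toList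
      rwa [wlk_rsh, ← eu] at this
    rw [chn_append, chn_append, chn_append]
    simp only [wlk_rsh, ev_append, ev_inv]
    have v1 : ev gen (u.take t) * (ev gen (d t) * ev gen v[t]?.toList) =
        ev gen (u.take (t + 1)) * ev gen (d (t + 1)) := e3
    have v2 : ev gen (u.take t) * (ev gen (d t) * ev gen v[t]?.toList *
        (ev gen (d (t + 1)))⁻¹) = ev gen (u.take (t + 1)) := by
      rw [← mul_assoc, v1, mul_inv_cancel_right]
    rw [h0, v1, v2, c3, c4, c1, c2]
    simp only [F]
    abel

end STRM

theorem specSTR : SpecSTR := by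
  intro G _ n m gen rel k C₀ hfill u v a T hu hv hev hft
  choose d hdl hd using hft
  have key : ∀ t : ℕ, ∃ c : G × Fin m →₀ ℤ, nrm c ≤ t * C₀ ∧
      bd2 (rsh gen) rel c = STRM.F gen u v d 0 - STRM.F gen u v d t := by
    intro t
    induction t with
    | zero => exact ⟨0, by simp, by simp⟩
    | succ t ih =>
      obtain ⟨c, hc, hb⟩ := ih
      obtain ⟨e1, e2⟩ := STRM.step gen u v d hd t
      have hl : (d t ++ v[t]?.toList ++ inv (d (t + 1)) ++ inv u[t]?.toList).length ≤
          2 * k + 2 := by
        have h1 := hdl t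
        have h2 := hdl (t + 1)
        have h3 : v[t]?.toList.length ≤ 1 := by cases v[t]? <;> simp
        have h4 : u[t]?.toList.length ≤ 1 := by cases u[t]? <;> simp
        simp only [List.length_append, length_inv]
        omega
      obtain ⟨c', hb', hc'⟩ := hfill _ hl e1 (ev gen (u.take t))
      refine ⟨c + c', (nrm_add_le _ _).trans ?_, ?_⟩
      · rw [add_mul, one_mul]; exact add_le_add hc hc'
      · rw [map_add, hb, hb', e2]; abel
  obtain ⟨c, hc, hb⟩ := key T
  have hTu : u.take T = u := List.take_of_length_le hu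
  have hTv : v.take T = v := List.take_of_length_le hv
  have hd0 : ev gen (d 0) = 1 := by
    have := hd 0
    simpa using this
  obtain ⟨c1, hb1, hc1⟩ := hfill (d 0) (by have := hdl 0; omega) hd0 1
  have hdT : ev gen (d T) = ev gen a.toList := by
    have := hd T
    rw [hTu, hTv, hev] at this
    exact mul_left_cancel this
  have hl2 : (d T ++ inv a.toList).length ≤ 2 * k + 2 := by
    have h1 := hdl T
    have h2 : a.toList.length ≤ 1 := by cases a <;> simp
    simp only [List.length_append, length_inv]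
    omega
  obtain ⟨c2, hb2, hc2⟩ := hfill (d T ++ inv a.toList) hl2
    (by rw [ev_append, ev_inv, hdT, mul_inv_cancel]) (ev gen u)
  have e5 : chn (rsh gen) (ev gen u) (d T ++ inv a.toList) =
      chn (rsh gen) (ev gen u) (d T) - chn (rsh gen) (ev gen u) a.toList := by
    rw [chn_append, wlk_rsh, hdT]
    have := chn_inv (rsh gen) (ev gen u) a.toList
    rw [wlk_rsh] at this
    rw [this]; abel
  refine ⟨c1 - c - c2, ?_, ?_⟩
  · have h1 := nrm_sub_le (c1 - c) c2
    have h2 := nrm_sub_le c1 c
    have h3 : (T + 2) * C₀ = T * C₀ + 2 * C₀ := by ring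
    omega
  · rw [map_sub, map_sub, hb, hb1, hb2, e5]
    simp only [STRM.F, hTu, hTv, List.take_zero, chn, ev_nil]
    abel

end Pool.Agent.Lib.MP59b239.CJ
end

section
/-!
# Module CPC: the conjugacy problem
-/
namespace Pool.Agent.Lib.MP59b239.CJ

namespace CPCM

variable {n : ℕ}

theorem primrec_inv : Primrec (inv : List (Let n) → List (Let n)) := by
  unfold inv
  exact Primrec.list_reverse.comp (Primrec.list_map Primrec.id
    (((Primrec.dom_finite (Sum.swap : Let n → Let n)).comp Primrec.snd).to₂))

theorem primrec_pow (K : ℕ) : Primrec fun k : ℕ => K ^ k :=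
  (Primrec.nat_rec₁ 1 ((Primrec.nat_mul.comp (Primrec.snd) (Primrec.const K)).to₂ :
    Primrec₂ fun (_ : ℕ) (r : ℕ) => r * K)).of_eq fun k => by
    induction k with
    | zero => simp
    | succ k ih => simp only [pow_succ, ← ih]

theorem primrec_word : Primrec fun z : (List (Let n) × List (Let n)) × List (Let n) =>
    inv z.2 ++ (z.1.1 ++ (z.2 ++ inv z.1.2)) := by
  have h1 : Primrec fun z : (List (Let n) × List (Let n)) × List (Let n) => z.2 := Primrec.snd
  have h2 : Primrec fun z : (List (Let n) × List (Let n)) × List (Let n) => z.1.1 :=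
    Primrec.fst.comp Primrec.fst
  have h3 : Primrec fun z : (List (Let n) × List (Let n)) × List (Let n) => inv z.1.2 :=
    primrec_inv.comp (Primrec.snd.comp Primrec.fst)
  exact Primrec.list_append.comp (primrec_inv.comp h1)
    (Primrec.list_append.comp h2 (Primrec.list_append.comp h1 h3))

theorem primrec_bound (K : ℕ) : Primrec fun p : List (Let n) × List (Let n) =>
    K ^ (p.1.length + p.2.length + 1) :=
  (primrec_pow K).comp (Primrec.nat_add.comp (Primrec.nat_add.comp
    (Primrec.list_length.comp Primrec.fst) (Primrec.list_length.comp Primrec.snd))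
    (Primrec.const 1))

end CPCM

open CPCM in
theorem specCPC (hWRD : SpecWRD) (hANY : SpecANY) : SpecCPC := by
  intro G _ n gen hwp K hK
  obtain ⟨W, hW, hWm⟩ := hWRD n
  obtain ⟨f, hf, hfe⟩ := ComputablePred.computable_iff.mp hwp
  have key := hANY (List (Let n) × List (Let n)) (List (Let n))
    (fun p => W (K ^ (p.1.length + p.2.length + 1)))
    (fun z => ev gen (inv z.2 ++ (z.1.1 ++ (z.2 ++ inv z.1.2))) = 1)
    (hW.comp (primrec_bound K).to_comp)
    (ComputablePred.computable_iff.mpr ⟨fun z => f (inv z.2 ++ (z.1.1 ++ (z.2 ++ inv z.1.2))),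
      hf.comp primrec_word.to_comp, by
        funext z
        exact congrFun hfe _⟩)
  refine key.of_eq fun p => ?_
  constructor
  · rintro ⟨v, -, hv⟩
    rw [ev_append, ev_append, ev_append, ev_inv, ev_inv] at hv
    rw [isConj_iff]
    refine ⟨(ev gen v)⁻¹, ?_⟩
    have : (ev gen v)⁻¹ * (ev gen p.1 * (ev gen v * (ev gen p.2)⁻¹)) * ev gen p.2 =
      1 * ev gen p.2 := by rw [hv]
    simpa [mul_assoc] using this
  · intro hc
    obtain ⟨v, hv, he⟩ := hK p.1 p.2 hc
    refine ⟨v, (hWm _ _).mpr hv, ?_⟩
    rw [ev_append, ev_append, ev_append, ev_inv, ev_inv, ← he]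
    group

end Pool.Agent.Lib.MP59b239.CJ
end

section
/-!
# INJ: the second boundary map of the quotient by an infinite cyclic group is injective
-/
namespace Pool.Agent.Lib.MP59b239.CJ

open Finsupp

namespace INJM

variable {G : Type} [Group G] {n m : ℕ} (gen : Fin n → G)

theorem lift_ev (w : List (Let n)) : FreeGroup.lift gen (ev FreeGroup.of w) = ev gen w := by
  induction w with
  | nil => simp
  | cons a w ih =>
    rw [ev_cons, ev_cons, map_mul, ih]
    cases a <;> simp

theorem ev_rel (rel : Fin m → List (Let n)) (h : Presents gen rel) (j : Fin m) :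
    ev gen (rel j) = 1 := by
  rw [← lift_ev, ← MonoidHom.mem_ker, ← h.2]
  exact Subgroup.subset_normalClosure ⟨j, rfl⟩

theorem bd1_bd2 (rel : Fin m → List (Let n)) (h : ∀ j, ev gen (rel j) = 1)
    (c : G × Fin m →₀ ℤ) : bd1 (rsh gen) (bd2 (rsh gen) rel c) = 0 := by
  induction c using Finsupp.induction_linear with
  | zero => simp
  | add f g hf hg => rw [map_add, map_add, hf, hg, add_zero]
  | single a x =>
    rw [bd2_single, map_smul, bd1_chn, wlk_rsh, h, mul_one, sub_self, smul_zero]

/-- The left action of `G` on `G × Fin r`. -/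
def act (r : ℕ) : G →* Equiv.Perm (G × Fin r) where
  toFun g := Equiv.prodCongr (Equiv.mulLeft g) (Equiv.refl _)
  map_one' := by ext x <;> simp
  map_mul' a b := by ext x <;> simp [mul_assoc]

theorem act_apply (r : ℕ) (g : G) (x : G × Fin r) : act r g x = (g * x.1, x.2) := rfl

theorem act_zpow (r : ℕ) (g : G) (k : ℤ) (x : G × Fin r) :
    ((act r g) ^ k) x = (g ^ k * x.1, x.2) := by
  rw [← map_zpow, act_apply]

/-- The left action of `G` on `G`. -/
def act0 : G →* Equiv.Perm G where
  toFun g := Equiv.mulLeft g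
  map_one' := by ext x; simp
  map_mul' a b := by ext x; simp

theorem act0_zpow (g : G) (k : ℤ) (x : G) : ((act0 g) ^ k) x = g ^ k * x := by
  rw [← map_zpow]; rfl

/-- A translate minus the chain has the projection `0`. -/
theorem mp_tr {g : G} (D : QD gen g) (r : ℕ) (d : G × Fin r →₀ ℤ) :
    mp D.π r (mp (fun y => g * y) r d) = mp D.π r d := by
  rw [mp_apply, mp_apply, mp_apply, ← Finsupp.mapDomain_comp]
  congr 1
  funext x
  exact Prod.ext (((D.rel x.1 (g * x.1)).2 ⟨1, by simp⟩).symm) rfl

end INJM

theorem specINJ (hCYC : SpecCYC) (hZFR : SpecZFR) : SpecINJ := by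
  intro G _ n m gen rel hp ha g hg D c hc
  have hrel := INJM.ev_rel gen rel hp
  -- the lift
  obtain ⟨s, hs⟩ := D.surj.hasRightInverse
  let c₁ : G × Fin m →₀ ℤ := mapDomain (Prod.map s id) c
  have hc₁ : mp D.π m c₁ = c := by
    rw [mp_apply, ← Finsupp.mapDomain_comp]
    have : (Prod.map D.π id ∘ Prod.map s id : D.Q × Fin m → D.Q × Fin m) = id := by
      funext x
      exact Prod.ext (hs x.1) rfl
    rw [this, Finsupp.mapDomain_id]
  have he : mp D.π n (bd2 (rsh gen) rel c₁) = 0 := by rw [QD.mp_bd2, hc₁, hc]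
  obtain ⟨e', he'⟩ := (hZFR (G × Fin n) (D.Q × Fin n) (INJM.act n g) (Prod.map D.π id)
    (fun x k h => by
      rw [INJM.act_zpow] at h
      have h1 := congrArg Prod.fst h
      exact hg k (mul_eq_right.1 h1))
    (fun x y => by
      constructor
      · intro h
        have h1 := congrArg Prod.fst h
        have h2 := congrArg Prod.snd h
        obtain ⟨k, hk⟩ := (D.rel x.1 y.1).1 h1
        refine ⟨k, ?_⟩
        rw [INJM.act_zpow]
        exact Prod.ext hk h2.symm
      · rintro ⟨k, hk⟩
        rw [INJM.act_zpow] at hk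
        subst hk
        exact Prod.ext ((D.rel x.1 _).2 ⟨k, rfl⟩) rfl)
    (bd2 (rsh gen) rel c₁)).1 he
  have he'' : bd2 (rsh gen) rel c₁ = mp (fun y => g * y) n e' - e' := he'
  have hb : mapDomain (fun y => g * y) (bd1 (rsh gen) e') = bd1 (rsh gen) e' := by
    have h0 := INJM.bd1_bd2 gen rel hrel c₁
    rw [he'', map_sub, sub_eq_zero] at h0
    rw [ltr_bd1, h0]
  have hb0 : bd1 (rsh gen) e' = 0 := (hZFR G D.Q (INJM.act0 g) D.π
    (fun x k h => by
      rw [INJM.act0_zpow] at h
      exact hg k (mul_eq_right.1 h))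
    (fun x y => by
      rw [D.rel]
      simp only [INJM.act0_zpow])
    (bd1 (rsh gen) e')).2 hb
  obtain ⟨d, hd⟩ := hCYC G n m gen rel hp e' hb0
  have hk : bd2 (rsh gen) rel (c₁ - (mp (fun y => g * y) m d - d)) = 0 := by
    rw [map_sub, map_sub, ← ltr_bd2, hd, he'', sub_self]
  have h1 := bd2_injective_of_aspherical gen rel ha _ hk
  rw [sub_eq_zero] at h1
  rw [← hc₁, h1, map_sub, INJM.mp_tr, sub_self]

end Pool.Agent.Lib.MP59b239.CJ
end

section
/-!
# Module TOR (helper87): an aspherical finite presentation presents a torsion free group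
-/
namespace Pool.Agent.Lib.MP59b239.CJ

open Finsupp

namespace TORM

variable {G : Type} [Group G] {n m : ℕ} (gen : Fin n → G)

theorem exists_word (h : Subgroup.closure (Set.range gen) = ⊤) (g : G) :
    ∃ w : List (Let n), ev gen w = g := by
  have hg : g ∈ Subgroup.closure (Set.range gen) := by rw [h]; trivial
  induction hg using Subgroup.closure_induction with
  | mem x hx =>
    obtain ⟨i, rfl⟩ := hx
    exact ⟨[Sum.inl i], by simp [ev]⟩
  | one => exact ⟨[], rfl⟩
  | mul x y _ _ hx hy =>
    obtain ⟨u, rfl⟩ := hx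
    obtain ⟨v, rfl⟩ := hy
    exact ⟨u ++ v, ev_append gen u v⟩
  | inv x _ hx =>
    obtain ⟨u, rfl⟩ := hx
    exact ⟨inv u, ev_inv gen u⟩

theorem ev_rel (rel : Fin m → List (Let n)) (h : Presents gen rel) (j : Fin m) :
    ev gen (rel j) = 1 := by
  have h1 : ev FreeGroup.of (rel j) ∈ (FreeGroup.lift gen).ker := by
    rw [← h.2]
    exact Subgroup.subset_normalClosure ⟨j, rfl⟩
  rw [MonoidHom.mem_ker] at h1
  rw [← h1]
  unfold ev
  rw [map_list_prod, List.map_map]
  congr 1
  apply List.map_congr_left
  intro a _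
  cases a <;> simp

theorem bd1_bd2 (rel : Fin m → List (Let n)) (h : ∀ j, ev gen (rel j) = 1)
    (c : G × Fin m →₀ ℤ) : bd1 (rsh gen) (bd2 (rsh gen) rel c) = 0 := by
  induction c using Finsupp.induction_linear with
  | zero => simp
  | add f g hf hg => rw [map_add, map_add, hf, hg, add_zero]
  | single a x => rw [bd2_single, map_smul, bd1_chn, wlk_rsh, h, mul_one, sub_self, smul_zero]

/-- the left translation by `g` -/
def tau (g : G) (r : ℕ) : Equiv.Perm (G × Fin r) := (Equiv.mulLeft g).prodCongr (Equiv.refl _)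

theorem tau_apply (g : G) (r : ℕ) (x : G × Fin r) : tau g r x = (g * x.1, x.2) := rfl

theorem tau_pow (g : G) (r i : ℕ) (x : G × Fin r) : (tau g r ^ i) x = (g ^ i * x.1, x.2) := by
  induction i with
  | zero => simp
  | succ i ih =>
    rw [pow_succ', Equiv.Perm.mul_apply, ih, pow_succ', mul_assoc, tau_apply]

theorem map_tau_pow (g : G) (r i : ℕ) (c : G × Fin r →₀ ℤ) :
    mapDomain (tau g r ^ i) c = mp (fun y => g ^ i * y) r c := by
  rw [mp_apply]
  congr 1
  funext x
  rw [tau_pow]
  rfl

theorem map_tau (g : G) (r : ℕ) (c : G × Fin r →₀ ℤ) :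
    mapDomain (tau g r) c = mp (fun y => g * y) r c := by
  rw [mp_apply]
  congr 1

/-- the norm element -/
noncomputable def nu (g : G) (N r : ℕ) (c : G × Fin r →₀ ℤ) : G × Fin r →₀ ℤ :=
  ∑ i ∈ Finset.range N, mp (fun y => g ^ i * y) r c

theorem nu_sub (g : G) (N r : ℕ) (c d : G × Fin r →₀ ℤ) :
    nu g N r (c - d) = nu g N r c - nu g N r d := by
  simp only [nu, map_sub, Finset.sum_sub_distrib]

theorem mp_mp (g h : G) (r : ℕ) (c : G × Fin r →₀ ℤ) :
    mp (fun y => g * y) r (mp (fun y => h * y) r c) = mp (fun y => (g * h) * y) r c := by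
  rw [mp_apply, mp_apply, mp_apply, ← mapDomain_comp]
  congr 1
  funext x
  simp [Prod.map, mul_assoc]

theorem mp_nu (g : G) (N r : ℕ) (hN : g ^ N = 1) (c : G × Fin r →₀ ℤ) :
    mp (fun y => g * y) r (nu g N r c) = nu g N r c := by
  unfold nu
  rw [map_sum]
  have h1 : ∀ i ∈ Finset.range N, mp (fun y => g * y) r (mp (fun y => g ^ i * y) r c) =
      mp (fun y => g ^ (i + 1) * y) r c := by
    intro i _
    rw [mp_mp, pow_succ']
  rw [Finset.sum_congr rfl h1]
  have h2 := Finset.sum_range_succ (fun i => mp (fun y => g ^ i * y) r c) N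
  have h3 := Finset.sum_range_succ' (fun i => mp (fun y => g ^ i * y) r c) N
  have h4 : mp (fun y => g ^ N * y) r c = mp (fun y => g ^ 0 * y) r c := by rw [hN, pow_zero]
  rw [h3, ← h4] at h2
  exact add_right_cancel h2

theorem bd2_nu (rel : Fin m → List (Let n)) (g : G) (N : ℕ) (c : G × Fin m →₀ ℤ) :
    bd2 (rsh gen) rel (nu g N m c) = nu g N n (bd2 (rsh gen) rel c) := by
  unfold nu
  rw [map_sum]
  exact Finset.sum_congr rfl fun i _ => (ltr_bd2 gen (g ^ i) rel c).symm

/-- the sum of the coefficients -/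
noncomputable def sm (G : Type) : (G →₀ ℤ) →ₗ[ℤ] ℤ :=
  Finsupp.linearCombination ℤ (fun _ => (1 : ℤ))

theorem sm_single (x : G) (a : ℤ) : sm G (single x a) = a := by
  simp [sm]

theorem sm_mapDomain (f : G → G) (c : G →₀ ℤ) : sm G (mapDomain f c) = sm G c := by
  unfold sm
  rw [Finsupp.linearCombination_mapDomain]
  rfl

theorem sm_bd1 (e : G × Fin n →₀ ℤ) : sm G (bd1 (rsh gen) e) = 0 := by
  induction e using Finsupp.induction_linear with
  | zero => simp
  | add f g hf hg => rw [map_add, map_add, hf, hg, add_zero]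
  | single a x => rw [bd1_single, map_smul, map_sub, sm_single, sm_single, sub_self, smul_zero]

end TORM

open TORM in
theorem specTOR (hCYC : SpecCYC) (hFRE : SpecFRE) : SpecTOR := by
  intro G _ n m gen rel hp ha g hg N0 hN0 hgN0
  have hfo : IsOfFinOrder g := isOfFinOrder_iff_pow_eq_one.2 ⟨N0, hN0, hgN0⟩
  obtain ⟨N, hNdef⟩ : ∃ N, N = orderOf g := ⟨_, rfl⟩
  have hNpos : 0 < N := by rw [hNdef]; exact hfo.orderOf_pos
  have hN1 : N ≠ 1 := by
    rw [hNdef]
    intro h
    exact hg (orderOf_eq_one_iff.1 h)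
  have hgN : g ^ N = 1 := by rw [hNdef]; exact pow_orderOf_eq_one g
  have hlt : ∀ i, 0 < i → i < N → g ^ i ≠ 1 := by
    intro i h1 h2 h3
    rw [hNdef] at h2
    exact absurd (Nat.le_of_dvd h1 (orderOf_dvd_of_pow_eq_one h3)) (not_le.2 h2)
  have htN : ∀ r, tau g r ^ N = 1 := by
    intro r
    ext1 x
    rw [tau_pow, hgN, one_mul]
    rfl
  have htf : ∀ r, ∀ x : G × Fin r, ∀ i, 0 < i → i < N → (tau g r ^ i) x ≠ x := by
    intro r x i h1 h2 h3
    rw [tau_pow] at h3
    have h4 : g ^ i * x.1 = x.1 := congrArg Prod.fst h3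
    exact hlt i h1 h2 (by simpa using h4)
  have hrel := ev_rel gen rel hp
  obtain ⟨w, hw⟩ := exists_word gen hp.1 g
  obtain ⟨e1, he1⟩ : ∃ e1, e1 = chn (rsh gen) 1 w := ⟨_, rfl⟩
  have hb1 : bd1 (rsh gen) e1 = single g 1 - single 1 1 := by
    rw [he1, bd1_chn, wlk_rsh, one_mul, hw]
  -- `bd1 (nu e1) = 0`
  have hb2 : bd1 (rsh gen) (nu g N n e1) = 0 := by
    unfold nu
    rw [map_sum]
    have h1 : ∀ i ∈ Finset.range N, bd1 (rsh gen) (mp (fun y => g ^ i * y) n e1) =
        single (g ^ (i + 1)) 1 - single (g ^ i) 1 := by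
      intro i _
      rw [← ltr_bd1, hb1]
      have hl : ∀ x : G →₀ ℤ, mapDomain (fun y => g ^ i * y) x =
        Finsupp.lmapDomain ℤ ℤ (fun y => g ^ i * y) x := fun x => rfl
      rw [hl, map_sub, ← hl, ← hl, mapDomain_single, mapDomain_single, mul_one, pow_succ]
    rw [Finset.sum_congr rfl h1, Finset.sum_range_sub (fun i => single (g ^ i) (1:ℤ)), hgN,
      pow_zero, sub_self]
  obtain ⟨c2, hc2⟩ := hCYC G n m gen rel hp _ hb2
  have hinv : mp (fun y => g * y) m c2 = c2 := by
    have h1 : bd2 (rsh gen) rel (mp (fun y => g * y) m c2 - c2) = 0 := by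
      rw [map_sub, ← ltr_bd2, hc2, mp_nu g N n hgN, sub_self]
    exact sub_eq_zero.1 (bd2_injective_of_aspherical gen rel ha _ h1)
  obtain ⟨c', hc'⟩ := (hFRE (G × Fin m) (tau g m) N hNpos (htN m) (htf m) c2).1
    (by rw [map_tau]; exact hinv)
  have hc'' : c2 = nu g N m c' := by
    rw [hc']
    exact Finset.sum_congr rfl fun i _ => map_tau_pow g m i c'
  have hz : nu g N n (e1 - bd2 (rsh gen) rel c') = 0 := by
    rw [nu_sub, ← bd2_nu, ← hc'', hc2, sub_self]
  obtain ⟨e', he'⟩ := (hFRE (G × Fin n) (tau g n) N hNpos (htN n) (htf n)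
    (e1 - bd2 (rsh gen) rel c')).2 (by
      rw [← hz]
      exact Finset.sum_congr rfl fun i _ => map_tau_pow g n i _)
  rw [map_tau] at he'
  have h5 := congrArg (bd1 (rsh gen)) he'
  rw [map_sub, bd1_bd2 gen rel hrel, sub_zero, map_sub, ← ltr_bd1, hb1] at h5
  -- `u = single 1 1 - bd1 e'` is invariant
  have h6 : mapDomain (Equiv.mulLeft g) (single 1 1 - bd1 (rsh gen) e') =
      single 1 1 - bd1 (rsh gen) e' := by
    have hl : ∀ x : G →₀ ℤ, mapDomain (Equiv.mulLeft g) x =
      Finsupp.lmapDomain ℤ ℤ (fun y => g * y) x := fun x => rfl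
    have hl' : ∀ x : G →₀ ℤ, mapDomain (fun y => g * y) x =
      Finsupp.lmapDomain ℤ ℤ (fun y => g * y) x := fun x => rfl
    rw [hl, map_sub, ← hl', ← hl', mapDomain_single, mul_one, sub_eq_sub_iff_sub_eq_sub]
    exact h5
  have hpow : ∀ (i : ℕ) (x : G), (Equiv.mulLeft g ^ i) x = g ^ i * x := by
    intro i x
    induction i with
    | zero => simp
    | succ i ih =>
      rw [pow_succ', Equiv.Perm.mul_apply, ih, pow_succ', mul_assoc]
      rfl
  obtain ⟨a, ha'⟩ := (hFRE G (Equiv.mulLeft g) N hNpos (by
      ext1 x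
      rw [hpow, hgN, one_mul]
      rfl) (by
      intro x i h1 h2 h3
      rw [hpow] at h3
      exact hlt i h1 h2 (by simpa using h3)) (single 1 1 - bd1 (rsh gen) e')).1 h6
  have h7 := congrArg (sm G) ha'
  rw [map_sub, sm_single, sm_bd1, sub_zero, map_sum] at h7
  simp only [sm_mapDomain, Finset.sum_const, Finset.card_range, nsmul_eq_mul] at h7
  have h8 : (N : ℤ) ∣ 1 := ⟨_, h7⟩
  have h9 : N ∣ 1 := by exact_mod_cast h8
  exact hN1 (Nat.dvd_one.1 h9)

end Pool.Agent.Lib.MP59b239.CJ
end

section
/-!
# CJ, module ANY: bounded search is computable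
-/
namespace Pool.Agent.Lib.MP59b239.CJ

theorem specANY : SpecANY := by
  intro α β _ _ F P hF hP
  obtain ⟨hdec, hPc⟩ := hP
  classical
  have hPc' : Computable fun q : α × β => decide (P q) := by
    convert hPc using 2
  -- the step
  let body : α → ℕ → Bool → Bool := fun a i r =>
    r || ((F a)[i]?.elim false fun b => decide (P (a, b)))
  have hget : Computable fun q : α × (ℕ × Bool) => (F q.1)[q.2.1]? :=
    Computable.list_getElem?.comp (hF.comp Computable.fst) (Computable.fst.comp Computable.snd)
  have hopt : Computable fun q : α × (ℕ × Bool) =>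
      ((F q.1)[q.2.1]?.elim false fun b => decide (P (q.1, b))) := by
    have h := Computable.option_casesOn (o := fun q : α × (ℕ × Bool) => (F q.1)[q.2.1]?)
      (f := fun _ => false) (g := fun q b => decide (P (q.1, b))) hget (Computable.const false)
      (hPc'.comp ((Computable.fst.comp Computable.fst).pair Computable.snd))
    refine h.of_eq fun q => ?_
    cases (F q.1)[q.2.1]? <;> rfl
  have hbody : Computable₂ fun (a : α) (q : ℕ × Bool) => body a q.1 q.2 := by
    exact (Primrec.or.to_comp).comp (Computable.snd.comp Computable.snd) hopt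
  have hrec : Computable fun a => Nat.rec (motive := fun _ => Bool) false
      (fun i r => body a i r) (F a).length :=
    Computable.nat_rec (Computable.list_length.comp hF) (Computable.const false) hbody
  have key : ∀ a, ∀ N : ℕ, (Nat.rec (motive := fun _ => Bool) false
      (fun i r => body a i r) N = true) ↔ ∃ i < N, ∃ b, (F a)[i]? = some b ∧ P (a, b) := by
    intro a N
    induction N with
    | zero => simp
    | succ N ih =>
      have e : (Nat.rec (motive := fun _ => Bool) false (fun i r => body a i r) (N + 1)) =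
          body a N (Nat.rec (motive := fun _ => Bool) false (fun i r => body a i r) N) := rfl
      rw [e]
      simp only [body, Bool.or_eq_true]
      rw [ih]
      constructor
      · rintro (⟨i, hi, b, hb, hp⟩ | h)
        · exact ⟨i, by omega, b, hb, hp⟩
        · cases hb : (F a)[N]? with
          | none => rw [hb] at h; simp at h
          | some b => rw [hb] at h; exact ⟨N, by omega, b, hb, by simpa using h⟩
      · rintro ⟨i, hi, b, hb, hp⟩
        rcases Nat.lt_succ_iff_lt_or_eq.1 hi with h | h
        · exact Or.inl ⟨i, h, b, hb, hp⟩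
        · subst h
          right
          rw [hb]
          simpa using hp
  refine ⟨fun a => Classical.dec _, ?_⟩
  refine hrec.of_eq fun a => ?_
  have h : (Nat.rec (motive := fun _ => Bool) false
      (fun i r => body a i r) (F a).length = true) ↔ ∃ b ∈ F a, P (a, b) := by
    rw [key]
    constructor
    · rintro ⟨i, -, b, hb, hp⟩
      exact ⟨b, List.mem_of_getElem? hb, hp⟩
    · rintro ⟨b, hb, hp⟩
      obtain ⟨i, hi⟩ := List.mem_iff_getElem?.1 hb
      have hi' : i < (F a).length := by
        by_contra hc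
        rw [List.getElem?_eq_none (by omega)] at hi
        cases hi
      exact ⟨i, hi', b, hi, hp⟩
  rw [Bool.eq_iff_iff]
  exact h.trans (@decide_eq_true_iff _ (Classical.dec _)).symm

end Pool.Agent.Lib.MP59b239.CJ
end

section
/-!
# The conjugacy problem for two-dimensional automatic groups: module CHK (the comparison automaton)
-/
namespace Pool.Agent.Lib.MP59b239.CJ

namespace CHKM

section

variable {G : Type} [Group G] {n : ℕ} (gen : Fin n → G) (k : ℕ)

/-- the elements of length `≤ k` -/
def ball : Set G := {g | ∃ w : List (Let n), w.length ≤ k ∧ ev gen w = g}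

theorem ball_finite : (ball gen k).Finite := by
  have h : (ball gen k) = ev gen '' {w : List (Let n) | w.length ≤ k} := by
    ext g
    constructor
    · rintro ⟨w, h1, h2⟩
      exact ⟨w, h1, h2⟩
    · rintro ⟨w, h1, h2⟩
      exact ⟨w, h1, h2⟩
  rw [h]
  exact (List.finite_length_le (Let n) k).image _

/-- one step on elements -/
def stepG (d : G) (x y : Option (Let n)) : G := (ev gen x.toList)⁻¹ * d * ev gen y.toList

open Classical in
/-- one step of the automaton -/
noncomputable def st {b : ℕ} (e : ball gen k ≃ Fin b)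
    (p : Option (Fin b) × Option (Let n) × Option (Let n)) : Option (Fin b) :=
  p.1.bind fun i =>
    if h : stepG gen (e.symm i).1 p.2.1 p.2.2 ∈ ball gen k then some (e ⟨_, h⟩) else none

open Classical in
/-- the final decision -/
noncomputable def fin {b : ℕ} (e : ball gen k ≃ Fin b) (p : Option (Fin b) × Option (Let n)) :
    Bool :=
  decide (∃ i, p.1 = some i ∧ (e.symm i).1 = ev gen p.2.toList)

/-- the state after `t` steps -/
noncomputable def run {b : ℕ} (e : ball gen k ≃ Fin b) (i₀ : Fin b)
    (p : List (Let n) × List (Let n)) (t : ℕ) : Option (Fin b) :=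
  t.rec (motive := fun _ => Option (Fin b)) (some i₀)
    fun s r => st gen k e (r, p.1[s]?, p.2[s]?)

theorem ev_take_succ (u : List (Let n)) (t : ℕ) :
    ev gen (u.take (t + 1)) = ev gen (u.take t) * ev gen (u[t]?).toList := by
  rw [← ev_append, List.take_add_one]

theorem step_eq (u v : List (Let n)) (t : ℕ) :
    stepG gen ((ev gen (u.take t))⁻¹ * ev gen (v.take t)) u[t]? v[t]? =
      (ev gen (u.take (t + 1)))⁻¹ * ev gen (v.take (t + 1)) := by
  rw [stepG, ev_take_succ, ev_take_succ]
  group

variable {b : ℕ} (e : ball gen k ≃ Fin b) (i₀ : Fin b) (h₀ : (e.symm i₀).1 = 1)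

include h₀

theorem run_sound (u v : List (Let n)) (t : ℕ) (i : Fin b) (h : run gen k e i₀ (u, v) t = some i) :
    (e.symm i).1 = (ev gen (u.take t))⁻¹ * ev gen (v.take t) := by
  induction t generalizing i with
  | zero =>
    have h1 : i₀ = i := Option.some_injective _ h
    rw [← h1, h₀]
    simp
  | succ t ih =>
    have h1 : st gen k e (run gen k e i₀ (u, v) t, u[t]?, v[t]?) = some i := h
    rcases hr : run gen k e i₀ (u, v) t with _ | j
    · rw [hr] at h1
      simp [st] at h1
    · rw [hr] at h1
      have h2 := ih j hr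
      simp only [st, Option.bind_some] at h1
      split_ifs at h1 with h3
      have h4 := Option.some_injective _ h1
      rw [← h4, Equiv.symm_apply_apply]
      show stepG gen (e.symm j).1 u[t]? v[t]? = _
      rw [h2, step_eq]

theorem run_complete (u v : List (Let n)) (t : ℕ)
    (h : ∀ s ≤ t, (ev gen (u.take s))⁻¹ * ev gen (v.take s) ∈ ball gen k) :
    ∃ i, run gen k e i₀ (u, v) t = some i := by
  induction t with
  | zero => exact ⟨i₀, rfl⟩
  | succ t ih =>
    obtain ⟨j, hj⟩ := ih fun s hs => h s (by omega)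
    have h2 := run_sound gen k e i₀ h₀ u v t j hj
    have h3 : stepG gen (e.symm j).1 u[t]? v[t]? ∈ ball gen k := by
      rw [h2, step_eq]
      exact h (t + 1) le_rfl
    refine ⟨e ⟨_, h3⟩, ?_⟩
    show st gen k e (run gen k e i₀ (u, v) t, u[t]?, v[t]?) = _
    rw [hj]
    simp only [st, Option.bind_some]
    rw [dif_pos h3]

end

end CHKM

open CHKM in
theorem specCHK : SpecCHK := by
  intro G _ n gen L k hFT
  haveI := (ball_finite gen k).to_subtype
  obtain ⟨b, e⟩ : Σ b : ℕ, ball gen k ≃ Fin b := ⟨Nat.card (ball gen k), Finite.equivFin _⟩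
  have h1 : (1 : G) ∈ ball gen k := ⟨[], Nat.zero_le _, rfl⟩
  obtain ⟨i₀, hi₀⟩ : ∃ i₀, e.symm i₀ = ⟨1, h1⟩ := ⟨e ⟨1, h1⟩, e.symm_apply_apply _⟩
  have h₀ : (e.symm i₀).1 = 1 := by rw [hi₀]
  refine ⟨fun p => fin gen k e (run gen k e i₀ (p.1, p.2.1) (p.1.length + p.2.1.length), p.2.2),
    ?_, ?_⟩
  · have hst : Primrec (st gen k e) := Primrec.dom_finite _
    have hfin : Primrec (fin gen k e) := Primrec.dom_finite _
    have hrun : Primrec fun p : List (Let n) × List (Let n) × Option (Let n) =>
        run gen k e i₀ (p.1, p.2.1) (p.1.length + p.2.1.length) := by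
      refine Primrec.nat_rec'
        (f := fun p : List (Let n) × List (Let n) × Option (Let n) => p.1.length + p.2.1.length)
        (g := fun _ => some i₀)
        (h := fun p q => st gen k e (q.2, p.1[q.1]?, p.2.1[q.1]?)) ?_ (Primrec.const _) ?_
      · exact Primrec.nat_add.comp (Primrec.list_length.comp Primrec.fst)
          (Primrec.list_length.comp (Primrec.fst.comp Primrec.snd))
      · refine hst.comp (Primrec.pair (Primrec.snd.comp Primrec.snd) (Primrec.pair ?_ ?_))
        · exact Primrec.list_getElem?.comp (Primrec.fst.comp Primrec.fst)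
            (Primrec.fst.comp Primrec.snd)
        · exact Primrec.list_getElem?.comp
            (Primrec.fst.comp (Primrec.snd.comp Primrec.fst)) (Primrec.fst.comp Primrec.snd)
    exact hfin.comp (Primrec.pair hrun (Primrec.snd.comp Primrec.snd))
  · intro u hu v hv a
    have hT1 : u.take (u.length + v.length) = u := List.take_of_length_le (by omega)
    have hT2 : v.take (u.length + v.length) = v := List.take_of_length_le (by omega)
    simp only [fin, decide_eq_true_eq]
    constructor
    · rintro ⟨i, hi, hia⟩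
      have h2 := run_sound gen k e i₀ h₀ u v _ i hi
      rw [hT1, hT2] at h2
      rw [← hia, h2, mul_inv_cancel_left]
    · intro h
      obtain ⟨i, hi⟩ := run_complete gen k e i₀ h₀ u v (u.length + v.length) (by
        intro s _
        obtain ⟨w, hw1, hw2⟩ := hFT u hu v hv a h s
        exact ⟨w, hw1, by rw [← hw2, inv_mul_cancel_left]⟩)
      refine ⟨i, hi, ?_⟩
      have h2 := run_sound gen k e i₀ h₀ u v _ i hi
      rw [hT1, hT2] at h2
      rw [h2, h, inv_mul_cancel_left]

end Pool.Agent.Lib.MP59b239.CJ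
end

section
/-!
# The `1`-cycles of the Cayley graph are boundaries (module CYC)
-/
namespace Pool.Agent.Lib.MP59b239.CJ

theorem specCYC (hFLW : SpecFLW) (hREL : SpecREL) : SpecCYC := by
  intro G _ n m gen rel hp e he
  obtain ⟨l, hl, hz, -⟩ := hFLW G n (rsh gen) e he
  have key : ∀ l : List (G × List (Let n)), (∀ c ∈ l, wlk (rsh gen) c.1 c.2 = c.1) →
      ∃ c : G × Fin m →₀ ℤ, bd2 (rsh gen) rel c = (l.map fun c => chn (rsh gen) c.1 c.2).sum := by
    intro l
    induction l with
    | nil => exact fun _ => ⟨0, by simp⟩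
    | cons a l ih =>
      intro h
      obtain ⟨c, hc⟩ := ih fun b hb => h b (List.mem_cons_of_mem _ hb)
      have ha := h a List.mem_cons_self
      rw [wlk_rsh, mul_eq_left] at ha
      obtain ⟨d, hd⟩ := (hREL G n m gen rel hp).2 a.1 a.2 ha
      exact ⟨d + c, by rw [map_add, hd, hc, List.map_cons, List.sum_cons]⟩
  obtain ⟨c, hc⟩ := key l fun c hc => (hl c hc).1
  exact ⟨c, by rw [hc, ← hz]⟩

end Pool.Agent.Lib.MP59b239.CJ
end

section
/-!
# MP_59b239_al, CJ, module FLW: integral cycles are sums of closed walks without cancellation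
-/
namespace Pool.Agent.Lib.MP59b239.CJ

namespace FLWM

theorem nrm_sub_single {α : Type} (d : α →₀ ℤ) (e : α) (h : 0 < d e) :
    nrm (d - Finsupp.single e 1) + 1 = nrm d := by
  classical
  have he : e ∈ d.support := by
    rw [Finsupp.mem_support_iff]
    exact h.ne'
  have hs : (d - Finsupp.single e 1).support ⊆ d.support := by
    intro a ha
    rw [Finsupp.mem_support_iff] at ha ⊢
    intro h0
    by_cases hae : a = e
    · subst hae
      omega
    · apply ha
      rw [Finsupp.sub_apply, Finsupp.single_eq_of_ne hae, h0, sub_zero]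
  rw [nrm_eq_of_subset _ _ hs, nrm_eq_of_subset d d.support (Finset.Subset.refl _),
    ← Finset.sum_erase_add _ _ he, ← Finset.sum_erase_add _ _ he]
  have h1 : ∀ a ∈ d.support.erase e,
      ((d - Finsupp.single e 1 : α →₀ ℤ) a).natAbs = (d a).natAbs := by
    intro a ha
    rw [Finsupp.sub_apply, Finsupp.single_eq_of_ne (Finset.ne_of_mem_erase ha), sub_zero]
  rw [Finset.sum_congr rfl h1, Finsupp.sub_apply, Finsupp.single_eq_same]
  omega

theorem nrm_add_single {α : Type} (d : α →₀ ℤ) (e : α) (h : d e < 0) :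
    nrm (d + Finsupp.single e 1) + 1 = nrm d := by
  have h1 := nrm_sub_single (-d) e (by rw [Finsupp.neg_apply]; omega)
  rw [nrm_neg] at h1
  rw [← h1, ← nrm_neg (d + Finsupp.single e 1)]
  congr 2
  abel

theorem supp {α : Type} (z c : α →₀ ℤ) (L : ℕ) (h : nrm (z - c) + L = nrm z) (hc : nrm c ≤ L)
    (e : α) (he : (z - c) e ≠ 0) : z e ≠ 0 := by
  classical
  intro h0
  have hz : z.support ⊆ z.support ∪ c.support := Finset.subset_union_left
  have hc' : c.support ⊆ z.support ∪ c.support := Finset.subset_union_right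
  have hzc : (z - c).support ⊆ z.support ∪ c.support := Finsupp.support_sub
  have hes : e ∈ z.support ∪ c.support := hzc (by rwa [Finsupp.mem_support_iff])
  have h1 : ∑ a ∈ z.support ∪ c.support, (z a).natAbs =
      ∑ a ∈ z.support ∪ c.support, (((z - c) a).natAbs + (c a).natAbs) := by
    refine le_antisymm (Finset.sum_le_sum fun a _ => ?_) ?_
    · rw [Finsupp.sub_apply]
      omega
    · rw [Finset.sum_add_distrib, ← nrm_eq_of_subset _ _ hz, ← nrm_eq_of_subset _ _ hzc,
        ← nrm_eq_of_subset _ _ hc']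
      omega
  have h2 := (Finset.sum_eq_sum_iff_of_le (fun a _ => by
    rw [Finsupp.sub_apply]
    omega)).1 h1 e hes
  rw [h0] at h2
  have h3 : ((z - c) e).natAbs = 0 := by
    rw [Int.natAbs_zero] at h2
    omega
  exact he (Int.natAbs_eq_zero.1 h3)

section
variable {V : Type} {n : ℕ} (σ : Fin n → Equiv.Perm V)

theorem bd1_apply (d : V × Fin n →₀ ℤ) (x : V) :
    bd1 σ d x = ∑ i, (d ((σ i).symm x, i) - d (x, i)) := by
  classical
  induction d using Finsupp.induction_linear with
  | zero => simp
  | add f g hf hg =>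
    rw [map_add, Finsupp.add_apply, hf, hg, ← Finset.sum_add_distrib]
    refine Finset.sum_congr rfl fun i _ => ?_
    rw [Finsupp.add_apply, Finsupp.add_apply]
    ring
  | single a y =>
    obtain ⟨u, j⟩ := a
    have sg : ∀ x' : V, (Finsupp.single (u, j) y : V × Fin n →₀ ℤ) (x', j) =
        (Finsupp.single u y : V →₀ ℤ) x' := by
      intro x'
      by_cases h3 : x' = u
      · rw [h3, Finsupp.single_eq_same, Finsupp.single_eq_same]
      · rw [Finsupp.single_eq_of_ne h3, Finsupp.single_eq_of_ne]
        intro h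
        exact h3 (Prod.ext_iff.1 h).1
    have sy : ∀ x' : V, (Finsupp.single u y : V →₀ ℤ) x' =
        y * (Finsupp.single u 1 : V →₀ ℤ) x' := by
      intro x'
      by_cases h3 : x' = u
      · rw [h3, Finsupp.single_eq_same, Finsupp.single_eq_same, mul_one]
      · rw [Finsupp.single_eq_of_ne h3, Finsupp.single_eq_of_ne h3, mul_zero]
    rw [bd1_single, Finset.sum_eq_single j]
    · rw [sg, sg, sy, sy]
      simp only [Finsupp.smul_apply, Finsupp.sub_apply, smul_eq_mul]
      have h1 : (Finsupp.single (σ j u) 1 : V →₀ ℤ) x =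
          (Finsupp.single u 1 : V →₀ ℤ) ((σ j).symm x) := by
        by_cases h1 : x = σ j u
        · rw [h1, Equiv.symm_apply_apply, Finsupp.single_eq_same, Finsupp.single_eq_same]
        · rw [Finsupp.single_eq_of_ne h1, Finsupp.single_eq_of_ne]
          intro h
          exact h1 ((Equiv.symm_apply_eq _).1 h)
      rw [h1]
      ring
    · intro i _ hi
      have h0 : ∀ x' : V, (Finsupp.single (u, j) y : V × Fin n →₀ ℤ) (x', i) = 0 := by
        intro x'
        rw [Finsupp.single_eq_of_ne]
        intro h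
        exact hi (Prod.ext_iff.1 h).2
      rw [h0, h0, sub_zero]
    · intro h
      exact absurd (Finset.mem_univ j) h

/-- one step -/
theorem ext_step (z : V × Fin n →₀ ℤ) (v : V) (w : List (Let n))
    (hs : nrm (z - chn σ v w) + w.length = nrm z) (a : Let n)
    (ha : nrm (z - chn σ v w - edg σ (wlk σ v w) a) + 1 = nrm (z - chn σ v w)) :
    nrm (z - chn σ v (w ++ [a])) + (w ++ [a]).length = nrm z := by
  have h1 : z - chn σ v (w ++ [a]) = z - chn σ v w - edg σ (wlk σ v w) a := by
    rw [chn_append]
    simp only [chn, add_zero]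
    abel
  rw [h1, List.length_append, List.length_singleton]
  omega

/-- a letter which decreases the norm -/
theorem letter (d : V × Fin n →₀ ℤ) (x : V) (h : bd1 σ d x < 0) :
    ∃ a : Let n, nrm (d - edg σ x a) + 1 = nrm d := by
  rw [bd1_apply] at h
  obtain ⟨i, -, hi⟩ := Finset.exists_lt_of_sum_lt (s := Finset.univ)
    (f := fun i => d ((σ i).symm x, i) - d (x, i)) (g := fun _ => (0 : ℤ)) (by simpa using h)
  by_cases h1 : 0 < d (x, i)
  · exact ⟨Sum.inl i, nrm_sub_single d _ h1⟩
  · refine ⟨Sum.inr i, ?_⟩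
    have h2 : d ((σ i).symm x, i) < 0 := by
      have hi' : d ((σ i).symm x, i) - d (x, i) < 0 := hi
      omega
    have h3 := nrm_add_single d _ h2
    rw [← h3]
    simp only [edg, sub_neg_eq_add]

/-- a subordinate walk can be closed -/
theorem close (z : V × Fin n →₀ ℤ) (hz : bd1 σ z = 0) (v : V) (k : ℕ) :
    ∀ w : List (Let n), w ≠ [] → nrm (z - chn σ v w) + w.length = nrm z →
      nrm z ≤ k + w.length →
      ∃ w' : List (Let n), w' ≠ [] ∧ nrm (z - chn σ v w') + w'.length = nrm z ∧ wlk σ v w' = v := by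
  classical
  induction k with
  | zero =>
    intro w hw hs hk
    by_cases hc : wlk σ v w = v
    · exact ⟨w, hw, hs, hc⟩
    · exfalso
      have h0 : nrm (z - chn σ v w) = 0 := by omega
      have h1 := congrArg (bd1 σ) ((nrm_eq_zero _).1 h0)
      rw [map_sub, hz, bd1_chn, map_zero] at h1
      have h2 := DFunLike.congr_fun h1 (wlk σ v w)
      rw [Finsupp.sub_apply, Finsupp.sub_apply, Finsupp.single_eq_same,
        Finsupp.single_eq_of_ne hc] at h2
      simp at h2
  | succ k ih =>
    intro w hw hs hk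
    by_cases hc : wlk σ v w = v
    · exact ⟨w, hw, hs, hc⟩
    · have h1 : bd1 σ (z - chn σ v w) (wlk σ v w) < 0 := by
        rw [map_sub, hz, bd1_chn, Finsupp.sub_apply, Finsupp.sub_apply, Finsupp.single_eq_same,
          Finsupp.single_eq_of_ne hc]
        simp
      obtain ⟨a, ha⟩ := letter σ _ _ h1
      refine ih (w ++ [a]) (by simp) (ext_step σ z v w hs a ha) ?_
      rw [List.length_append, List.length_singleton]
      omega

/-- the first letter -/
theorem first (z : V × Fin n →₀ ℤ) (hz : z ≠ 0) :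
    ∃ (v : V) (a : Let n), nrm (z - chn σ v [a]) + 1 = nrm z ∧
      ∃ i, z (v, i) ≠ 0 ∨ z ((σ i).symm v, i) ≠ 0 := by
  obtain ⟨e, he⟩ := DFunLike.ne_iff.1 hz
  obtain ⟨v, i⟩ := e
  rw [Finsupp.zero_apply] at he
  rcases lt_or_gt_of_ne he with h | h
  · refine ⟨σ i v, Sum.inr i, ?_, i, Or.inr (by rwa [Equiv.symm_apply_apply])⟩
    have h3 := nrm_add_single z _ h
    rw [← h3]
    simp only [chn, edg, Equiv.symm_apply_apply, add_zero, sub_neg_eq_add]
  · refine ⟨v, Sum.inl i, ?_, i, Or.inl he⟩
    have h3 := nrm_sub_single z _ h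
    rw [← h3]
    simp only [chn, edg, add_zero]

end

end FLWM

theorem specFLW : SpecFLW := by
  intro V n σ
  suffices H : ∀ (k : ℕ) (z : V × Fin n →₀ ℤ), nrm z ≤ k → bd1 σ z = 0 →
      ∃ l : List (V × List (Let n)),
        (∀ c ∈ l, wlk σ c.1 c.2 = c.1 ∧ c.2 ≠ [] ∧
          ∃ i, z (c.1, i) ≠ 0 ∨ z ((σ i).symm c.1, i) ≠ 0) ∧
        z = (l.map fun c => chn σ c.1 c.2).sum ∧ (l.map fun c => c.2.length).sum = nrm z from
    fun z hz => H (nrm z) z le_rfl hz
  intro k
  induction k with
  | zero =>
    intro z hk hz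
    have h0 : nrm z = 0 := by omega
    refine ⟨[], by simp, ?_, by simp [h0]⟩
    rw [(nrm_eq_zero z).1 h0]
    simp
  | succ k ih =>
    intro z hk hz
    by_cases h0 : z = 0
    · exact ⟨[], by simp, by simp [h0], by simp [h0]⟩
    · obtain ⟨v, a, ha, hv⟩ := FLWM.first σ z h0
      obtain ⟨w, hw, hs, hc⟩ := FLWM.close σ z hz v (nrm z) [a] (by simp) ha (by omega)
      have hlen : 1 ≤ w.length := List.length_pos_iff.2 hw
      obtain ⟨l, hl1, hl2, hl3⟩ := ih (z - chn σ v w) (by omega) (by
        rw [map_sub, hz, bd1_chn, hc, sub_self, sub_zero])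
      have hsup := FLWM.supp z (chn σ v w) w.length hs (nrm_chn_le σ v w)
      refine ⟨(v, w) :: l, ?_, ?_, ?_⟩
      · intro c hcl
        rcases List.mem_cons.1 hcl with h | h
        · rw [h]
          exact ⟨hc, hw, hv⟩
        · obtain ⟨g1, g2, i, g3⟩ := hl1 c h
          exact ⟨g1, g2, i, g3.imp (hsup _) (hsup _)⟩
      · rw [List.map_cons, List.sum_cons, ← hl2]
        abel
      · rw [List.map_cons, List.sum_cons, hl3]
        simp only
        omega

end Pool.Agent.Lib.MP59b239.CJ
end

section
/-!
# FRE: a free action of a finite cyclic group has no cohomology on finitely supported functions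
-/
namespace Pool.Agent.Lib.MP59b239.CJ

open Finsupp

namespace FREM

variable {X : Type} (τ : Equiv.Perm X)

/-- A representative of the orbit. -/
noncomputable def rep (x : X) : X := (Quotient.mk (Equiv.Perm.SameCycle.setoid τ) x).out

theorem rep_same (x : X) : τ.SameCycle (rep τ x) x :=
  Quotient.exact (Quotient.out_eq (Quotient.mk (Equiv.Perm.SameCycle.setoid τ) x))

theorem rep_eq {x y : X} (h : τ.SameCycle x y) : rep τ x = rep τ y := by
  unfold rep
  congr 1
  exact Quotient.sound h

theorem rep_pow (i : ℕ) (x : X) : rep τ ((τ ^ i) x) = rep τ x := by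
  apply rep_eq
  exact ⟨-(i : ℤ), by simp⟩

theorem exists_lt {N : ℕ} (hN : 0 < N) (h : τ ^ N = 1) (x : X) :
    ∃ i, i < N ∧ (τ ^ i) (rep τ x) = x := by
  obtain ⟨i, hi⟩ := rep_same τ x
  have hN' : (0 : ℤ) < N := by exact_mod_cast hN
  refine ⟨(i % N).toNat, ?_, ?_⟩
  · have := Int.emod_lt_of_pos i hN'
    have := Int.emod_nonneg i hN'.ne'
    omega
  · have h1 : τ ^ i = τ ^ (i % N).toNat := by
      have h2 : ((i % N).toNat : ℤ) = i % N := Int.toNat_of_nonneg (Int.emod_nonneg i hN'.ne')
      rw [← zpow_natCast, h2]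
      conv_lhs => rw [← Int.mul_ediv_add_emod i N]
      rw [zpow_add, zpow_mul, zpow_natCast, h, one_zpow, one_mul]
    rw [← h1]
    exact hi

theorem uniq {N : ℕ} (hf : ∀ x, ∀ i, 0 < i → i < N → (τ ^ i) x ≠ x) (x : X) {i j : ℕ}
    (hi : i < N) (hj : j < N) (h : (τ ^ i) x = (τ ^ j) x) : i = j := by
  have key : ∀ i j : ℕ, i < j → j < N → (τ ^ i) x ≠ (τ ^ j) x := by
    intro i j hij hj h
    apply hf x (j - i) (by omega) (by omega)
    have h1 : τ ^ j = τ ^ i * τ ^ (j - i) := by
      rw [← pow_add]; congr 1; omega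
    rw [h1, Equiv.Perm.mul_apply] at h
    exact ((τ ^ i).injective h).symm
  rcases lt_trichotomy i j with h1 | h1 | h1
  · exact absurd h (key i j h1 hj)
  · exact h1
  · exact absurd h.symm (key j i h1 hi)

theorem part1 {N : ℕ} (hN : 0 < N) (h : τ ^ N = 1)
    (hf : ∀ x, ∀ i, 0 < i → i < N → (τ ^ i) x ≠ x) (c : X →₀ ℤ) (hc : mapDomain τ c = c) :
    ∃ d : X →₀ ℤ, c = ∑ i ∈ Finset.range N, mapDomain (τ ^ i) d := by
  classical
  have hc1 : ∀ y, c (τ y) = c y := by
    intro y
    have h1 := Finsupp.mapDomain_apply τ.injective c y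
    rw [hc] at h1
    exact h1
  have hci : ∀ (i : ℕ) y, c ((τ ^ i) y) = c y := by
    intro i
    induction i with
    | zero => intro y; simp
    | succ i ih => intro y; rw [pow_succ', Equiv.Perm.mul_apply, hc1, ih]
  refine ⟨c.filter fun x => rep τ x = x, ?_⟩
  ext y
  rw [Finsupp.finsetSum_apply]
  obtain ⟨i, hi, hiy⟩ := exists_lt τ hN h y
  rw [Finset.sum_eq_single i]
  · conv_rhs => rw [← hiy]
    rw [Finsupp.mapDomain_apply (τ ^ i).injective, Finsupp.filter_apply, if_pos]
    · rw [← hci i (rep τ y), hiy]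
    · rw [← rep_pow τ i (rep τ y), hiy]
  · intro j hj hji
    obtain ⟨z, rfl⟩ := (τ ^ j).surjective y
    rw [Finsupp.mapDomain_apply (τ ^ j).injective, Finsupp.filter_apply, if_neg]
    intro hz
    rw [rep_pow, hz] at hiy
    exact hji (uniq τ hf z hi (Finset.mem_range.mp hj) hiy).symm
  · intro hi'
    exact absurd (Finset.mem_range.mpr hi) hi'

/-- The coboundaries. -/
def cob (c : X →₀ ℤ) : Prop := ∃ d : X →₀ ℤ, c = mapDomain τ d - d

theorem cob_zero : cob τ 0 := ⟨0, by simp⟩

theorem cob_add {c c' : X →₀ ℤ} (h : cob τ c) (h' : cob τ c') : cob τ (c + c') := by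
  obtain ⟨d, rfl⟩ := h
  obtain ⟨d', rfl⟩ := h'
  exact ⟨d + d', by rw [Finsupp.mapDomain_add]; abel⟩

theorem cob_pow (x : X) (a : ℤ) (i : ℕ) : cob τ (single ((τ ^ i) x) a - single x a) := by
  induction i with
  | zero => simpa using cob_zero τ
  | succ i ih =>
    have h1 : cob τ (single ((τ ^ (i + 1)) x) a - single ((τ ^ i) x) a) :=
      ⟨single ((τ ^ i) x) a, by
        rw [Finsupp.mapDomain_single, pow_succ', Equiv.Perm.mul_apply]⟩
    have := cob_add τ h1 ih
    simpa using this

theorem cob_rep {N : ℕ} (hN : 0 < N) (h : τ ^ N = 1) (c : X →₀ ℤ) :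
    cob τ (c - mapDomain (rep τ) c) := by
  induction c using Finsupp.induction_linear with
  | zero => simpa using cob_zero τ
  | add f g hf hg =>
    have := cob_add τ hf hg
    rw [Finsupp.mapDomain_add]
    have h2 : f + g - (mapDomain (rep τ) f + mapDomain (rep τ) g) =
      f - mapDomain (rep τ) f + (g - mapDomain (rep τ) g) := by abel
    rw [h2]
    exact this
  | single x a =>
    rw [Finsupp.mapDomain_single]
    obtain ⟨i, -, hi⟩ := exists_lt τ hN h x
    have := cob_pow τ (rep τ x) a i
    rwa [hi] at this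

theorem part2 {N : ℕ} (hN : 0 < N) (h : τ ^ N = 1) (c : X →₀ ℤ)
    (hc : (∑ i ∈ Finset.range N, mapDomain (τ ^ i) c) = 0) :
    ∃ d : X →₀ ℤ, c = mapDomain τ d - d := by
  have h1 : mapDomain (rep τ) c = 0 := by
    have h2 : mapDomain (rep τ) (∑ i ∈ Finset.range N, mapDomain (τ ^ i) c) =
        N • mapDomain (rep τ) c := by
      rw [Finsupp.mapDomain_finsetSum]
      rw [Finset.sum_congr rfl (g := fun _ => mapDomain (rep τ) c)]
      · simp
      · intro i _
        rw [← Finsupp.mapDomain_comp]
        congr 1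
        funext x
        exact rep_pow τ i x
    rw [hc, Finsupp.mapDomain_zero] at h2
    exact (smul_eq_zero.mp h2.symm).resolve_left hN.ne'
  have := cob_rep τ hN h c
  rw [h1, sub_zero] at this
  exact this

end FREM

theorem specFRE : SpecFRE := fun _ τ _ hN h hf c =>
  ⟨FREM.part1 τ hN h hf c, FREM.part2 τ hN h c⟩

end Pool.Agent.Lib.MP59b239.CJ
end

section
/-!
# MP_59b239_al, theorem CJ: module LEN (helper20)

The words of the regular language can be chosen of controlled length.
-/
namespace Pool.Agent.Lib.MP59b239.CJ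

namespace LENM

theorem ev_append {G : Type} [Group G] {n : ℕ} (gen : Fin n → G) (u v : List (Let n)) :
    ev gen (u ++ v) = ev gen u * ev gen v := by
  unfold ev
  rw [List.map_append, List.prod_append]

end LENM

theorem specLEN : SpecLEN := by
  classical
  intro G _ n gen L σ _ M hM hsurj k hFT
  have hfin : Set.Finite {w : List (Let n) | w.length ≤ k} := List.finite_length_le (Let n) k
  set B : Finset G := hfin.toFinset.image (ev gen) with hB
  refine ⟨Fintype.card σ * B.card + 1, fun u hu a => ?_⟩
  have hex : ∃ m : ℕ, ∃ v ∈ L, ev gen v = ev gen u * ev gen [a] ∧ v.length = m := by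
    obtain ⟨v, hv, hv'⟩ := hsurj (ev gen u * ev gen [a])
    exact ⟨_, v, hv, hv', rfl⟩
  obtain ⟨v, hv, hve, hvl⟩ := Nat.find_spec hex
  refine ⟨v, hv, hve, ?_⟩
  by_contra hlt
  push Not at hlt
  have hw : ∀ t : ℕ, ∃ w : List (Let n), w.length ≤ k ∧
      ev gen (u.take (u.length + t)) * ev gen w = ev gen (v.take (u.length + t)) :=
    fun t => hFT u hu v hv (some a) hve (u.length + t)
  choose w hwl hwe using hw
  have hut : ∀ t, u.take (u.length + t) = u := fun t => List.take_of_length_le (by omega)
  obtain ⟨x, hx, y, hy, hxy, hf⟩ := Finset.exists_ne_map_eq_of_card_lt_of_maps_to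
    (s := Finset.range (Fintype.card σ * B.card + 1)) (t := (Finset.univ : Finset σ) ×ˢ B)
    (f := fun t => (M.eval (v.take (u.length + t)), ev gen (w t)))
    (by rw [Finset.card_product, Finset.card_range, Finset.card_univ]; omega)
    (by
      intro t _
      rw [Finset.mem_coe, Finset.mem_product]
      refine ⟨Finset.mem_univ _, ?_⟩
      rw [hB, Finset.mem_image]
      exact ⟨w t, hfin.mem_toFinset.2 (hwl t), rfl⟩)
  have key : ∀ x y : ℕ, x < Fintype.card σ * B.card + 1 → y < Fintype.card σ * B.card + 1 →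
      x < y → M.eval (v.take (u.length + x)) = M.eval (v.take (u.length + y)) →
      ev gen (w x) = ev gen (w y) → False := by
    intro x y hx hy hxy h1 h2
    have h3 : ev gen (v.take (u.length + x)) = ev gen (v.take (u.length + y)) := by
      rw [← hwe x, ← hwe y, hut, hut, h2]
    have h4 : v.take (u.length + x) ++ v.drop (u.length + y) ∈ L := by
      rw [← hM, DFA.mem_accepts]
      have h5 : M.eval (v.take (u.length + x) ++ v.drop (u.length + y)) = M.eval v := by
        conv_rhs => rw [← List.take_append_drop (u.length + y) v]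
        unfold DFA.eval at h1 ⊢
        rw [DFA.evalFrom_of_append, DFA.evalFrom_of_append, h1]
      rw [h5, ← DFA.mem_accepts, hM]
      exact hv
    have h6 : ev gen (v.take (u.length + x) ++ v.drop (u.length + y)) =
        ev gen u * ev gen [a] := by
      rw [LENM.ev_append, h3, ← LENM.ev_append, List.take_append_drop, hve]
    have h7 := Nat.find_min' hex ⟨_, h4, h6, rfl⟩
    rw [← hvl, List.length_append, List.length_take, List.length_drop] at h7
    omega
  rw [Finset.mem_range] at hx hy
  obtain ⟨hf1, hf2⟩ := Prod.ext_iff.1 hf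
  rcases lt_or_gt_of_ne hxy with h | h
  · exact key x y hx hy h hf1 hf2
  · exact key y x hy hx h hf1.symm hf2.symm

end Pool.Agent.Lib.MP59b239.CJ
end

section
/-!
# LVL: the distance to the centralizer of `g`
-/
namespace Pool.Agent.Lib.MP59b239.CJ

namespace LVLM

variable {G : Type} [Group G] {n : ℕ} (gen : Fin n → G)

/-- The value of a letter. -/
theorem ev_single (a : Let n) : ev gen [a] = Sum.elim gen (fun i => (gen i)⁻¹) a := by
  simp [ev]

/-- Every element is represented by a word. -/
theorem ex_word (h : Subgroup.closure (Set.range gen) = ⊤) (x : G) :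
    ∃ w : List (Let n), x = ev gen w := by
  have hx : x ∈ Subgroup.closure (Set.range gen) := by rw [h]; trivial
  induction hx using Subgroup.closure_induction with
  | mem y hy =>
    obtain ⟨i, rfl⟩ := hy
    exact ⟨[Sum.inl i], by rw [ev_single]; rfl⟩
  | one => exact ⟨[], rfl⟩
  | mul y z _ _ hy hz =>
    obtain ⟨u, rfl⟩ := hy
    obtain ⟨w, rfl⟩ := hz
    exact ⟨u ++ w, by rw [ev_append]⟩
  | inv y _ hy =>
    obtain ⟨u, rfl⟩ := hy
    exact ⟨inv u, by rw [ev_inv]⟩

/-- There is a word of length `N` which leads from the centralizer of `g` to `x`. -/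
def Ok (g x : G) (N : ℕ) : Prop :=
  ∃ (z : G) (w : List (Let n)), z * g = g * z ∧ x = z * ev gen w ∧ w.length = N

theorem ok_mul {g x : G} {N : ℕ} (y : G) (hy : y * g = g * y) (h : Ok gen g x N) :
    Ok gen g (y * x) N := by
  obtain ⟨z, w, hz, hx, hw⟩ := h
  refine ⟨y * z, w, ?_, by rw [hx, mul_assoc], hw⟩
  rw [mul_assoc, hz, ← mul_assoc, hy, mul_assoc]

theorem ok_letter {g x : G} {N : ℕ} (a : Let n) (h : Ok gen g x N) :
    Ok gen g (x * Sum.elim gen (fun i => (gen i)⁻¹) a) (N + 1) := by
  obtain ⟨z, w, hz, hx, hw⟩ := h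
  refine ⟨z, w ++ [a], hz, ?_, by simp [hw]⟩
  rw [ev_append, ev_single, hx, mul_assoc]

end LVLM

open LVLM in
theorem specLVL : SpecLVL := by
  classical
  intro G _ n gen hgen g
  have hex : ∀ x : G, ∃ N, Ok gen g x N := fun x => by
    obtain ⟨w, hw⟩ := ex_word gen hgen x
    exact ⟨w.length, 1, w, by simp, by rw [hw, one_mul], rfl⟩
  refine ⟨fun x => Nat.find (hex x), ?_, ?_, ?_, fun x => Nat.find_spec (hex x)⟩
  · intro z x hz
    apply le_antisymm
    · exact Nat.find_min' _ (ok_mul gen z hz (Nat.find_spec (hex x)))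
    · refine Nat.find_min' _ ?_
      have h := ok_mul gen z⁻¹ (x := z * x) ?_ (Nat.find_spec (hex (z * x)))
      · rwa [inv_mul_cancel_left] at h
      · rw [inv_mul_eq_iff_eq_mul, ← mul_assoc, hz, mul_inv_cancel_right]
  · intro x i
    constructor
    · exact Nat.find_min' _ (ok_letter gen (Sum.inl i) (Nat.find_spec (hex x)))
    · refine Nat.find_min' _ ?_
      have h := ok_letter gen (Sum.inr i) (Nat.find_spec (hex (x * gen i)))
      simpa using h
  · have h : Ok gen g 1 0 := ⟨1, [], by simp, by simp, rfl⟩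
    exact Nat.le_zero.mp (Nat.find_min' _ h)

end Pool.Agent.Lib.MP59b239.CJ
end

section
/-!
CJ, module MEM: membership in a regular language is primitive recursive.
-/
namespace Pool.Agent.Lib.MP59b239.CJ

namespace MEMM

variable {n : ℕ} {σ : Type} (M : DFA (Let n) σ)

theorem foldl_equiv {s : ℕ} (e : σ ≃ Fin s) (w : List (Let n)) (q : σ) :
    w.foldl (fun t a => e (M.step (e.symm t) a)) (e q) = e (w.foldl M.step q) := by
  induction w generalizing q with
  | nil => rfl
  | cons a w ih =>
    rw [List.foldl_cons, List.foldl_cons, Equiv.symm_apply_apply]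
    exact ih _

end MEMM

open MEMM in
theorem specMEM : SpecMEM := by
  classical
  intro n L σ _ M hM
  let e := Fintype.equivFin σ
  let f : Fin (Fintype.card σ) → Bool := fun q => decide (e.symm q ∈ M.accept)
  let g : Fin (Fintype.card σ) × Let n → Fin (Fintype.card σ) :=
    fun p => e (M.step (e.symm p.1) p.2)
  have hf : Primrec f := Primrec.dom_finite f
  have hg : Primrec g := Primrec.dom_finite g
  refine ⟨fun w => f (w.foldl (fun t a => g (t, a)) (e M.start)), ?_, ?_⟩
  · refine hf.comp ?_
    exact Primrec.list_foldl (f := fun w : List (Let n) => w)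
      (g := fun _ => e M.start) (h := fun _ p => g p) Primrec.id (Primrec.const _)
      (hg.comp Primrec.snd)
  · intro w
    have h : w.foldl (fun t a => g (t, a)) (e M.start) = e (w.foldl M.step M.start) :=
      foldl_equiv M e w M.start
    show f (w.foldl (fun t a => g (t, a)) (e M.start)) = true ↔ w ∈ L
    rw [h, ← hM]
    simp only [f, Equiv.symm_apply_apply, decide_eq_true_eq]
    rfl

end Pool.Agent.Lib.MP59b239.CJ
end

section
/-!
# The quotient of the Cayley graph (module QUO)
-/
namespace Pool.Agent.Lib.MP59b239.CJ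

namespace QUOM

variable {G : Type} [Group G] {n : ℕ}

/-- The orbit relation of the powers of `g`. -/
def rl (g : G) : Setoid G where
  r x y := ∃ k : ℤ, y = g ^ k * x
  iseqv :=
    { refl := fun x => ⟨0, by simp⟩
      symm := by
        rintro x y ⟨k, rfl⟩
        exact ⟨-k, by simp⟩
      trans := by
        rintro x y z ⟨k, rfl⟩ ⟨l, rfl⟩
        exact ⟨l + k, by rw [zpow_add, mul_assoc]⟩ }

/-- Right multiplication on the quotient. -/
def rt (g s : G) : Quotient (rl g) → Quotient (rl g) :=
  Quotient.map (fun x => x * s) (by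
    rintro x y ⟨k, rfl⟩
    exact ⟨k, by rw [mul_assoc]⟩)

theorem rt_mk (g s x : G) : rt g s (Quotient.mk (rl g) x) = Quotient.mk (rl g) (x * s) := rfl

end QUOM

open QUOM in
theorem specQUO : SpecQUO := by
  intro G _ n gen g
  refine ⟨⟨Quotient (rl g), Quotient.mk (rl g), fun i => ⟨rt g (gen i), rt g (gen i)⁻¹, ?_, ?_⟩,
    Quotient.mk_surjective, ?_, ?_⟩⟩
  · intro q
    obtain ⟨x, rfl⟩ := Quotient.mk_surjective q
    rw [rt_mk, rt_mk, mul_inv_cancel_right]
  · intro q
    obtain ⟨x, rfl⟩ := Quotient.mk_surjective q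
    rw [rt_mk, rt_mk, inv_mul_cancel_right]
  · intro x y
    exact Quotient.eq (r := rl g)
  · intro i x
    exact rt_mk g (gen i) x

end Pool.Agent.Lib.MP59b239.CJ
end

section
/-!
CJ, module REL: the chain of a closed walk of the Cayley graph is a boundary.
-/
namespace Pool.Agent.Lib.MP59b239.CJ

namespace RELM

open Finsupp

variable {G : Type} [Group G] {n m : ℕ} (gen : Fin n → G) (rel : Fin m → List (Let n))

/-- The action of a generator of the free group on pairs (vertex, chain). -/
noncomputable def act (i : Fin n) : Equiv.Perm (G × (G × Fin n →₀ ℤ)) where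
  toFun p := (p.1 * gen i, p.2 + single (p.1, i) 1)
  invFun p := (p.1 * (gen i)⁻¹, p.2 - single (p.1 * (gen i)⁻¹, i) 1)
  left_inv p := by simp
  right_inv p := by simp

theorem lift_ev (w : List (Let n)) :
    FreeGroup.lift gen (ev FreeGroup.of w) = ev gen w := by
  induction w with
  | nil => simp [ev]
  | cons a w ih =>
    rw [ev_cons, ev_cons, map_mul, ih]
    cases a <;> simp

theorem act_ev (w : List (Let n)) (x : G) (c : G × Fin n →₀ ℤ) :
    ((FreeGroup.lift (fun i => (act gen i)⁻¹) (ev FreeGroup.of w))⁻¹ : Equiv.Perm _) (x, c) =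
      (wlk (rsh gen) x w, c + chn (rsh gen) x w) := by
  induction w generalizing x c with
  | nil => simp [ev, wlk, chn]
  | cons a w ih =>
    rw [ev_cons, map_mul, mul_inv_rev, Equiv.Perm.mul_apply]
    cases a with
    | inl i =>
      have h : ((FreeGroup.lift (fun i => (act gen i)⁻¹)
          (Sum.elim FreeGroup.of (fun i => (FreeGroup.of i)⁻¹) (Sum.inl i : Let n)))⁻¹ :
          Equiv.Perm _) (x, c) = (x * gen i, c + single (x, i) 1) := by
        simp [act]
      rw [h, ih]
      simp [wlk, chn, stp, edg, rsh, add_assoc]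
    | inr i =>
      have h : ((FreeGroup.lift (fun i => (act gen i)⁻¹)
          (Sum.elim FreeGroup.of (fun i => (FreeGroup.of i)⁻¹) (Sum.inr i : Let n)))⁻¹ :
          Equiv.Perm _) (x, c) = (x * (gen i)⁻¹, c - single (x * (gen i)⁻¹, i) 1) := by
        simp [act, Equiv.Perm.inv_def]
      rw [h, ih]
      simp [wlk, chn, stp, edg, rsh, sub_eq_add_neg, add_assoc]

theorem chn_congr (u w : List (Let n)) (h : ev FreeGroup.of u = ev FreeGroup.of w) (x : G) :
    chn (rsh gen) x u = chn (rsh gen) x w := by
  have h1 := act_ev gen u x 0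
  have h2 := act_ev gen w x 0
  rw [h, h2] at h1
  have := congrArg Prod.snd h1
  simpa using this.symm

theorem exists_word (u : FreeGroup (Fin n)) : ∃ w : List (Let n), ev FreeGroup.of w = u := by
  induction u using FreeGroup.induction_on with
  | C1 => exact ⟨[], by simp [ev]⟩
  | of i => exact ⟨[Sum.inl i], by simp [ev]⟩
  | inv_of i _ => exact ⟨[Sum.inr i], by simp [ev]⟩
  | mul x y hx hy =>
    obtain ⟨u, hu⟩ := hx
    obtain ⟨w, hw⟩ := hy
    exact ⟨u ++ w, by rw [ev_append, hu, hw]⟩

end RELM

open Finsupp RELM in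
theorem specREL : SpecREL := by
  intro G _ n m gen rel hP
  have ha : ∀ j, ev gen (rel j) = 1 := by
    intro j
    rw [← lift_ev, ← MonoidHom.mem_ker, ← hP.2]
    exact Subgroup.subset_normalClosure ⟨j, rfl⟩
  refine ⟨ha, ?_⟩
  have key : ∀ u ∈ Subgroup.normalClosure (Set.range fun j => ev FreeGroup.of (rel j)),
      ∀ w : List (Let n), ev FreeGroup.of w = u → ∀ x : G,
        ∃ c : G × Fin m →₀ ℤ, bd2 (rsh gen) rel c = chn (rsh gen) x w := by
    intro u hu
    unfold Subgroup.normalClosure at hu
    induction hu using Subgroup.closure_induction with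
    | mem u hu =>
      intro w hw x
      obtain ⟨r, ⟨j, rfl⟩, hr⟩ := Group.mem_conjugatesOfSet_iff.1 hu
      obtain ⟨g, hg⟩ := isConj_iff.1 hr
      obtain ⟨s, hs⟩ := exists_word g
      have h1 : ev FreeGroup.of w = ev FreeGroup.of (s ++ (rel j ++ inv s)) := by
        rw [hw, ev_append, ev_append, ev_inv, hs, ← hg, mul_assoc]
      refine ⟨single (x * ev gen s, j) 1, ?_⟩
      rw [chn_congr gen _ _ h1 x, chn_append, chn_append, bd2_single, one_smul]
      have h2 : wlk (rsh gen) (wlk (rsh gen) x s) (rel j) = wlk (rsh gen) x s := by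
        rw [wlk_rsh, ha j, mul_one]
      rw [h2, chn_inv, wlk_rsh]
      abel
    | one =>
      intro w hw x
      refine ⟨0, ?_⟩
      rw [chn_congr gen w [] (by rw [hw]; simp [ev]) x]
      simp [chn]
    | mul u v _ _ hu hv =>
      intro w hw x
      obtain ⟨w1, h1⟩ := exists_word u
      obtain ⟨w2, h2⟩ := exists_word v
      obtain ⟨c1, e1⟩ := hu w1 h1 x
      obtain ⟨c2, e2⟩ := hv w2 h2 (wlk (rsh gen) x w1)
      refine ⟨c1 + c2, ?_⟩
      rw [map_add, e1, e2, ← chn_append]
      exact (chn_congr gen w (w1 ++ w2) (by rw [hw, ev_append, h1, h2]) x).symm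
    | inv u _ hu =>
      intro w hw x
      obtain ⟨w1, h1⟩ := exists_word u
      obtain ⟨c1, e1⟩ := hu w1 h1 (x * (ev gen w1)⁻¹)
      refine ⟨-c1, ?_⟩
      rw [map_neg, e1, ← chn_inv, wlk_rsh, inv_mul_cancel_right]
      exact (chn_congr gen w (inv w1) (by rw [hw, ev_inv, h1]) x).symm
  intro x w hw
  refine key (ev FreeGroup.of w) ?_ w rfl x
  rw [hP.2, MonoidHom.mem_ker, lift_ev, hw]

end Pool.Agent.Lib.MP59b239.CJ
end

section
/-! Module SRH (theorem CJ, MP_59b239_al): unbounded search for a witness. -/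
namespace Pool.Agent.Lib.MP59b239.CJ

theorem specSRH : SpecSRH := by
  intro α β _ _ P hP hex
  let f : α → ℕ → Option β := fun a k =>
    (Encodable.decode (α := β) k).bind fun b => cond (P (a, b)) (some b) none
  have hf : Computable₂ f := by
    have h1 : Computable fun x : α × ℕ => (Encodable.decode (α := β) x.2) :=
      Computable.decode.comp Computable.snd
    have h2 : Computable₂ fun (x : α × ℕ) (b : β) => cond (P (x.1, b)) (some b) (none : Option β) := by
      refine Computable.cond (hP.comp ((Computable.fst.comp Computable.fst).pair Computable.snd))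
        (Computable.option_some.comp Computable.snd) (Computable.const none)
    exact Computable.option_bind h1 h2
  have hp : Partrec fun a => Nat.rfindOpt (f a) := Partrec.rfindOpt hf
  have hmem : ∀ a (b : β), b ∈ Nat.rfindOpt (f a) → P (a, b) = true := by
    intro a b hb
    obtain ⟨k, hk⟩ := Nat.rfindOpt_spec hb
    simp only [f, Option.mem_def, Option.bind_eq_some_iff] at hk
    obtain ⟨c, _, hc⟩ := hk
    cases hPc : P (a, c) with
    | false => rw [hPc] at hc; simp at hc
    | true =>
      rw [hPc] at hc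
      simp only [cond_true, Option.some.injEq] at hc
      rw [← hc]
      exact hPc
  have hdom : ∀ a, (Nat.rfindOpt (f a)).Dom := by
    intro a
    rw [Nat.rfindOpt_dom]
    obtain ⟨b, hb⟩ := hex a
    refine ⟨Encodable.encode b, b, ?_⟩
    simp [f, hb]
  refine ⟨fun a => (Nat.rfindOpt (f a)).get (hdom a), ?_, ?_⟩
  · exact hp.of_eq fun a => (Part.some_get (hdom a)).symm
  · intro a
    exact hmem a _ (Part.get_mem (hdom a))

end Pool.Agent.Lib.MP59b239.CJ
end

section
/-!
# WND: winding numbers in the quotient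
-/
namespace Pool.Agent.Lib.MP59b239.CJ

namespace WNDM

variable {G : Type} [Group G] {n : ℕ} {gen : Fin n → G} {g : G}

/-- An integer valued height function. -/
theorem ex_height (D : QD gen g) (hg : ∀ k : ℤ, g ^ k = 1 → k = 0) :
    ∃ h : G → ℤ, ∀ (x : G) (k : ℤ), h (g ^ k * x) = h x + k := by
  classical
  choose s hs using D.surj
  have h1 : ∀ x : G, ∃ k : ℤ, x = g ^ k * s (D.π x) := fun x =>
    (D.rel (s (D.π x)) x).mp (hs (D.π x))
  choose h hh using h1
  refine ⟨h, fun x k => ?_⟩
  have h2 : D.π (g ^ k * x) = D.π x := ((D.rel x (g ^ k * x)).mpr ⟨k, rfl⟩).symm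
  have h3 := hh (g ^ k * x)
  rw [h2] at h3
  have h4 : g ^ k * (g ^ h x * s (D.π x)) = g ^ h (g ^ k * x) * s (D.π x) := by
    rw [← hh x]; exact h3
  rw [← mul_assoc, ← zpow_add] at h4
  have h5 := mul_right_cancel h4
  have h6 : g ^ (k + h x - h (g ^ k * x)) = 1 := by
    rw [zpow_sub, h5, mul_inv_cancel]
  have := hg _ h6
  omega

end WNDM

open WNDM in
theorem specWND : SpecWND := by
  classical
  intro G _ n gen g D hg
  obtain ⟨h, hh⟩ := ex_height D hg
  choose s hs using D.surj
  let φ : D.Q × Fin n → ℤ := fun e => h (s e.1 * gen e.2) - h (s e.1)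
  have hφ : ∀ (x : G) (i : Fin n), φ (D.π x, i) = h (x * gen i) - h x := by
    intro x i
    obtain ⟨k, hk⟩ := (D.rel (s (D.π x)) x).mp (hs (D.π x))
    have h1 : h x = h (s (D.π x)) + k := by
      conv_lhs => rw [hk]
      exact hh _ _
    have h2 : h (x * gen i) = h (s (D.π x) * gen i) + k := by
      conv_lhs => rw [hk, mul_assoc]
      exact hh _ _
    rw [h1, h2]
    simp only [φ]
    ring
  refine ⟨Finsupp.linearCombination ℤ φ, ?_⟩
  have hedg : ∀ (x : G) (a : Let n), Finsupp.linearCombination ℤ φ (edg D.σ (D.π x) a) =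
      h (x * Sum.elim gen (fun i => (gen i)⁻¹) a) - h x := by
    intro x a
    cases a with
    | inl i => simp [edg, hφ]
    | inr i =>
      simp only [edg, map_neg, Finsupp.linearCombination_single, one_smul, D.symm_comm, hφ,
        Sum.elim_inr, inv_mul_cancel_right]
      ring
  have key : ∀ (w : List (Let n)) (x : G), Finsupp.linearCombination ℤ φ (chn D.σ (D.π x) w) =
      h (x * ev gen w) - h x := by
    intro w
    induction w with
    | nil => intro x; simp [chn]
    | cons a w ih =>
      intro x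
      simp only [chn, map_add]
      rw [hedg, D.stp, ih, stp_rsh, ev_cons, mul_assoc]
      ring
  intro x w k hk
  rw [key, hk, hh]
  ring

end Pool.Agent.Lib.MP59b239.CJ
end

section
/-!
# Module WPC (helper87): the word problem of an automatic group is solvable
-/
namespace Pool.Agent.Lib.MP59b239.CJ

namespace WPCM

/-- the states: last word, remaining list, flag -/
abbrev St (n : ℕ) := List (Let n) × List (List (Let n)) × Bool

/-- one step -/
def step {n : ℕ} (mem : List (Let n) → Bool)
    (chk : List (Let n) × List (Let n) × Option (Let n) → Bool) (q : St n) (a : Let n) : St n :=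
  List.casesOn q.2.1 (([], [], false) : St n)
    (fun v s' => (v, s', (q.2.2 && mem v) && chk (q.1, v, some a)))

/-- the run -/
def run {n : ℕ} (mem : List (Let n) → Bool)
    (chk : List (Let n) × List (Let n) × Option (Let n) → Bool) (u₀ : List (Let n))
    (p : List (Let n) × List (List (Let n))) : St n :=
  p.1.foldl (fun q a => step mem chk q a) (u₀, p.2, true)

theorem primrec_step {n : ℕ} (mem : List (Let n) → Bool)
    (chk : List (Let n) × List (Let n) × Option (Let n) → Bool) (hm : Primrec mem)
    (hc : Primrec chk) :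
    Primrec fun z : (List (Let n) × List (List (Let n))) × (St n × Let n) =>
      step mem chk z.2.1 z.2.2 := by
  unfold step
  refine Primrec.list_casesOn (f := fun z : (List (Let n) × List (List (Let n))) ×
    (St n × Let n) => z.2.1.2.1) (g := fun _ => (([], [], false) : St n))
    (h := fun z (y : List (Let n) × List (List (Let n))) =>
      ((y.1, y.2, (z.2.1.2.2 && mem y.1) && chk (z.2.1.1, y.1, some z.2.2)) : St n))
    ?_ (Primrec.const _) ?_
  · exact Primrec.fst.comp (Primrec.snd.comp (Primrec.fst.comp Primrec.snd))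
  · show Primrec fun y : ((List (Let n) × List (List (Let n))) × (St n × Let n)) ×
      (List (Let n) × List (List (Let n))) =>
        ((y.2.1, y.2.2, (y.1.2.1.2.2 && mem y.2.1) && chk (y.1.2.1.1, y.2.1, some y.1.2.2)) : St n)
    have h1 : Primrec fun y : ((List (Let n) × List (List (Let n))) × (St n × Let n)) ×
      (List (Let n) × List (List (Let n))) => y.2.1 := Primrec.fst.comp Primrec.snd
    have h2 : Primrec fun y : ((List (Let n) × List (List (Let n))) × (St n × Let n)) ×
      (List (Let n) × List (List (Let n))) => y.2.2 := Primrec.snd.comp Primrec.snd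
    have h3 : Primrec fun y : ((List (Let n) × List (List (Let n))) × (St n × Let n)) ×
      (List (Let n) × List (List (Let n))) => y.1.2.1 :=
        Primrec.fst.comp (Primrec.snd.comp Primrec.fst)
    have h4 : Primrec fun y : ((List (Let n) × List (List (Let n))) × (St n × Let n)) ×
      (List (Let n) × List (List (Let n))) => y.1.2.2 :=
        Primrec.snd.comp (Primrec.snd.comp Primrec.fst)
    have h5 : Primrec fun y : ((List (Let n) × List (List (Let n))) × (St n × Let n)) ×
      (List (Let n) × List (List (Let n))) =>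
        chk (y.1.2.1.1, y.2.1, some y.1.2.2) :=
      hc.comp (Primrec.pair (Primrec.fst.comp h3)
        (Primrec.pair h1 (Primrec.option_some.comp h4)))
    exact Primrec.pair h1 (Primrec.pair h2 (Primrec.and.comp
      (Primrec.and.comp (Primrec.snd.comp (Primrec.snd.comp h3)) (hm.comp h1)) h5))

theorem primrec_run {n : ℕ} (mem : List (Let n) → Bool)
    (chk : List (Let n) × List (Let n) × Option (Let n) → Bool) (hm : Primrec mem)
    (hc : Primrec chk) (u₀ : List (Let n)) : Primrec (run mem chk u₀) := by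
  unfold run
  exact Primrec.list_foldl (f := fun p : List (Let n) × List (List (Let n)) => p.1)
    (g := fun p => ((u₀, p.2, true) : St n)) (h := fun _ z => step mem chk z.1 z.2) Primrec.fst
    (Primrec.pair (Primrec.const _) (Primrec.pair Primrec.snd (Primrec.const _)))
    (primrec_step mem chk hm hc)

section

variable {G : Type} [Group G] {n : ℕ} {gen : Fin n → G} {L : Language (Let n)}
  {mem : List (Let n) → Bool} {chk : List (Let n) × List (Let n) × Option (Let n) → Bool}
  (hmem : ∀ w, mem w = true ↔ w ∈ L)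
  (hchk : ∀ u ∈ L, ∀ v ∈ L, ∀ a : Option (Let n),
    chk (u, v, a) = true ↔ ev gen v = ev gen u * ev gen a.toList)

include hmem hchk

theorem sound (w : List (Let n)) : ∀ q : St n,
    (w.foldl (fun q a => step mem chk q a) q).2.2 = true →
    q.2.2 = true ∧ (q.1 ∈ L → (w.foldl (fun q a => step mem chk q a) q).1 ∈ L ∧
      ev gen (w.foldl (fun q a => step mem chk q a) q).1 = ev gen q.1 * ev gen w) := by
  induction w with
  | nil =>
    intro q hq
    exact ⟨hq, fun h => ⟨h, by simp⟩⟩
  | cons a w ih =>
    rintro ⟨u, s, ok⟩ hq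
    cases s with
    | nil =>
      have h1 := (ih (step mem chk (u, [], ok) a) hq).1
      exact absurd h1 (by simp [step])
    | cons v s' =>
      obtain ⟨h1, h2⟩ := ih (step mem chk (u, v :: s', ok) a) hq
      have h3 : ((ok && mem v) && chk (u, v, some a)) = true := h1
      rw [Bool.and_eq_true, Bool.and_eq_true] at h3
      obtain ⟨⟨h4, h5⟩, h6⟩ := h3
      have hv : v ∈ L := (hmem v).1 h5
      obtain ⟨h7, h8⟩ := h2 hv
      refine ⟨h4, fun hu => ⟨h7, ?_⟩⟩
      have h9 := (hchk u hu v hv (some a)).1 h6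
      have h10 : ev gen (List.foldl (fun q a => step mem chk q a)
          (step mem chk (u, v :: s', ok) a) w).1 = ev gen v * ev gen w := h8
      show ev gen (List.foldl (fun q a => step mem chk q a)
          (step mem chk (u, v :: s', ok) a) w).1 = ev gen u * ev gen (a :: w)
      rw [h10, h9, mul_assoc]
      congr 1
      rw [← ev_append]
      rfl

theorem complete (hL : ∀ g : G, ∃ w ∈ L, ev gen w = g) (w : List (Let n)) :
    ∀ u ∈ L, ∃ s : List (List (Let n)),
      (w.foldl (fun q a => step mem chk q a) ((u, s, true) : St n)).2.2 = true := by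
  induction w with
  | nil => exact fun u _ => ⟨[], rfl⟩
  | cons a w ih =>
    intro u hu
    obtain ⟨v, hv, he⟩ := hL (ev gen u * ev gen (some a).toList)
    obtain ⟨s, hs⟩ := ih v hv
    refine ⟨v :: s, ?_⟩
    have h1 : step mem chk ((u, v :: s, true) : St n) a = (v, s, true) := by
      show ((v, s, (true && mem v) && chk (u, v, some a)) : St n) = (v, s, true)
      rw [(hmem v).2 hv, (hchk u hu v hv (some a)).2 he]
      rfl
    show (List.foldl (fun q a => step mem chk q a) (step mem chk ((u, v :: s, true) : St n) a)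
      w).2.2 = true
    rw [h1]
    exact hs

end

end WPCM

open WPCM in
theorem specWPC (hSRH : SpecSRH) (hMEM : SpecMEM) (hCHK : SpecCHK) : SpecWPC := by
  intro G _ n gen hA
  obtain ⟨L, ⟨σ, hσ, M, hM⟩, hL, k, hk⟩ := hA
  obtain ⟨mem, hm, hmem⟩ := hMEM n L σ M hM
  obtain ⟨chk, hc, hchk⟩ := hCHK G n gen L k hk
  obtain ⟨u₀, hu₀, he₀⟩ := hL 1
  have hrun := primrec_run mem chk hm hc u₀
  obtain ⟨F, hF, hF'⟩ := hSRH (List (Let n)) (List (List (Let n)))
    (fun p => (run mem chk u₀ p).2.2) (Primrec.snd.comp (Primrec.snd.comp hrun)).to_comp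
    (fun w => complete hmem hchk hL w u₀ hu₀)
  have key : ∀ w : List (Let n), chk (u₀, (run mem chk u₀ (w, F w)).1, none) = true ↔
      ev gen w = 1 := by
    intro w
    obtain ⟨-, h1⟩ := sound hmem hchk w ((u₀, F w, true) : St n) (hF' w)
    obtain ⟨h2, h3⟩ := h1 hu₀
    have h4 : ev gen (run mem chk u₀ (w, F w)).1 = ev gen u₀ * ev gen w := h3
    have h5 : (run mem chk u₀ (w, F w)).1 ∈ L := h2
    rw [hchk u₀ hu₀ _ h5 none, h4, he₀]
    simp
  have hcomp : Computable fun w : List (Let n) => chk (u₀, (run mem chk u₀ (w, F w)).1, none) :=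
    hc.to_comp.comp (Computable.pair (Computable.const _) (Computable.pair
      (Computable.fst.comp (hrun.to_comp.comp (Computable.pair Computable.id hF)))
      (Computable.const _)))
  rw [ComputablePred.computable_iff]
  refine ⟨_, hcomp, ?_⟩
  funext w
  exact propext (key w).symm

end Pool.Agent.Lib.MP59b239.CJ
end

section
/-!
# The list of all words of length at most `N` (module WRD)
-/
namespace Pool.Agent.Lib.MP59b239.CJ

namespace WRDM

/-- All letters. -/
noncomputable def letters (n : ℕ) : List (Let n) := (Finset.univ : Finset (Let n)).toList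

theorem mem_letters {n : ℕ} (a : Let n) : a ∈ letters n := by simp [letters]

/-- All words of length `≤ N`. -/
noncomputable def W (n : ℕ) : ℕ → List (List (Let n)) :=
  Nat.rec [[]] fun _ acc => acc ++ acc.flatMap fun w => (letters n).map fun a => a :: w

theorem W_succ (n N : ℕ) :
    W n (N + 1) = W n N ++ (W n N).flatMap fun w => (letters n).map fun a => a :: w := rfl

theorem mem_W (n N : ℕ) (w : List (Let n)) : w ∈ W n N ↔ w.length ≤ N := by
  induction N generalizing w with
  | zero =>
    rw [show W n 0 = [[]] from rfl, List.mem_singleton, Nat.le_zero, List.length_eq_zero_iff]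
  | succ N ih =>
    rw [W_succ, List.mem_append, ih, List.mem_flatMap]
    constructor
    · rintro (h | ⟨u, hu, h⟩)
      · omega
      · rw [List.mem_map] at h
        obtain ⟨a, -, rfl⟩ := h
        have := (ih u).mp hu
        simp only [List.length_cons]
        omega
    · intro h
      cases w with
      | nil => exact Or.inl (by simp)
      | cons a u =>
        right
        simp only [List.length_cons] at h
        exact ⟨u, (ih u).mpr (by omega), List.mem_map.mpr ⟨a, mem_letters a, rfl⟩⟩

theorem primrec_W (n : ℕ) : Primrec (W n) := by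
  refine Primrec.nat_rec₁ (f := fun _ acc => acc ++ acc.flatMap fun w =>
    (letters n).map fun a => a :: w) [[]] ?_
  have h1 : Primrec₂ fun (_ : ℕ × List (List (Let n))) (w : List (Let n)) =>
      (letters n).map fun a => a :: w := by
    have h2 : Primrec₂ fun (x : (ℕ × List (List (Let n))) × List (Let n)) (a : Let n) =>
        a :: x.2 :=
      Primrec.list_cons.comp Primrec.snd (Primrec.snd.comp Primrec.fst)
    exact Primrec.list_map (Primrec.const (letters n)) h2
  have h3 : Primrec fun x : ℕ × List (List (Let n)) => x.2 ++ x.2.flatMap fun w =>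
      (letters n).map fun a => a :: w :=
    Primrec.list_append.comp Primrec.snd (Primrec.list_flatMap Primrec.snd h1)
  exact h3

end WRDM

open WRDM in
theorem specWRD : SpecWRD := fun n => ⟨W n, (primrec_W n).to_comp, mem_W n⟩

end Pool.Agent.Lib.MP59b239.CJ
end

section
/-!
# Module ZFR: free actions of the integers on finitely supported functions
-/
namespace Pool.Agent.Lib.MP59b239.CJ

open Finsupp

namespace ZFRM

variable {X : Type} (τ : Equiv.Perm X)

/-- the map `d ↦ τ d - d` -/
noncomputable def T : (X →₀ ℤ) →ₗ[ℤ] (X →₀ ℤ) := Finsupp.lmapDomain ℤ ℤ τ - LinearMap.id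

theorem T_apply (d : X →₀ ℤ) : T τ d = mapDomain τ d - d := rfl

theorem step (x : X) : single (τ x) (1 : ℤ) - single x 1 ∈ LinearMap.range (T τ) :=
  ⟨single x 1, by rw [T_apply, mapDomain_single]⟩

theorem orb (x : X) (k : ℤ) :
    single ((τ ^ k) x) (1 : ℤ) - single x 1 ∈ LinearMap.range (T τ) := by
  induction k using Int.induction_on with
  | zero => simp
  | succ i ih =>
    have h := Submodule.add_mem _ (step τ ((τ ^ (i : ℤ)) x)) ih
    have e : (τ ^ ((i : ℤ) + 1)) x = τ ((τ ^ (i : ℤ)) x) := by
      rw [add_comm, zpow_add, zpow_one, Equiv.Perm.mul_apply]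
    rw [e]
    convert h using 1
    abel
  | pred i ih =>
    have h := Submodule.sub_mem _ ih (step τ ((τ ^ (-(i : ℤ) - 1)) x))
    have e : τ ((τ ^ (-(i : ℤ) - 1)) x) = (τ ^ (-(i : ℤ))) x := by
      rw [← Equiv.Perm.mul_apply]
      congr 1
      rw [← zpow_one_add]
      congr 1
      ring
    rw [e] at h
    convert h using 1
    abel

theorem red (r : X → X) (hr : ∀ x, ∃ k : ℤ, r x = (τ ^ k) x) (c : X →₀ ℤ) :
    c - mapDomain r c ∈ LinearMap.range (T τ) := by
  induction c using Finsupp.induction_linear with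
  | zero => simp
  | add f g hf hg =>
    have h := Submodule.add_mem _ hf hg
    rw [mapDomain_add]
    convert h using 1
    abel
  | single a b =>
    obtain ⟨k, hk⟩ := hr a
    have h := Submodule.smul_mem _ (-b) (orb τ a k)
    rw [mapDomain_single, hk]
    convert h using 1
    rw [smul_sub, Finsupp.smul_single, Finsupp.smul_single]
    simp only [smul_eq_mul, mul_one, single_neg]
    abel

end ZFRM

open ZFRM in
theorem specZFR : SpecZFR := by
  intro X Y τ π hfree horb c
  constructor
  · intro hc
    rcases isEmpty_or_nonempty X with hX | hX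
    · exact ⟨0, by ext x; exact hX.elim x⟩
    · have hr : ∀ x, ∃ k : ℤ, Function.invFun π (π x) = (τ ^ k) x := fun x =>
        (horb x _).1 (Function.invFun_eq ⟨x, rfl⟩).symm
      have h := red τ (Function.invFun π ∘ π) hr c
      rw [mapDomain_comp, hc, mapDomain_zero, sub_zero] at h
      obtain ⟨d, hd⟩ := h
      exact ⟨d, by rw [← hd, T_apply]⟩
  · intro hc
    by_contra hne
    obtain ⟨x, hx⟩ : ∃ x, c x ≠ 0 := by
      by_contra hcon
      push Not at hcon
      exact hne (Finsupp.ext hcon)
    have h1 : ∀ y, c (τ y) = c y := by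
      intro y
      conv_lhs => rw [← hc]
      exact mapDomain_apply τ.injective c y
    have h2 : ∀ k : ℕ, c ((τ ^ k) x) = c x := by
      intro k
      induction k with
      | zero => rfl
      | succ k ih => rw [pow_succ', Equiv.Perm.mul_apply, h1, ih]
    have hinj : Function.Injective fun k : ℕ => (τ ^ k) x := by
      intro i j hij
      have h3 : (τ ^ ((i : ℤ) - j)) ((τ ^ j) x) = (τ ^ j) x := by
        have e : (τ ^ ((i : ℤ) - j)) ((τ ^ j) x) = (τ ^ i) x := by
          rw [← Equiv.Perm.mul_apply]
          congr 1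
          rw [← zpow_natCast τ j, ← zpow_add, sub_add_cancel, zpow_natCast]
        rw [e]
        exact hij
      have h4 := hfree _ _ h3
      omega
    refine Set.infinite_range_of_injective hinj (c.support.finite_toSet.subset ?_)
    rintro _ ⟨k, rfl⟩
    rw [Finset.mem_coe, Finsupp.mem_support_iff]
    simp only [h2]
    exact hx

end Pool.Agent.Lib.MP59b239.CJ
end
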