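import Pool.Agent.Lib.MP_59b239_al.CJ.Spec

/-! # ANN: the annulus between two conjugate loops -/

namespace Pool.Agent.Lib.MP59b239.CJ

namespace ANNM

/-- the power of a word -/
def pw {n : ℕ} (w : List (Let n)) : ℕ → List (Let n)
  | 0 => []
  | N + 1 => w ++ pw w N

theorem length_pw {n : ℕ} (w : List (Let n)) (N : ℕ) : (pw w N).length = N * w.length := by
  induction N with
  | zero => simp [pw]
  | succ N ih => rw [pw, List.length_append, ih]; ring

theorem ev_pw {G : Type} [Group G] {n : ℕ} (gen : Fin n → G) (w : List (Let n)) (N : ℕ) :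
    ev gen (pw w N) = ev gen w ^ N := by
  induction N with
  | zero => simp [pw]
  | succ N ih => rw [pw, ev_append, ih, pow_succ']

section

variable {V : Type} {n : ℕ} (σ : Fin n → Equiv.Perm V)

theorem wlk_pw (a : V) (w : List (Let n)) (h : wlk σ a w = a) (N : ℕ) :
    wlk σ a (pw w N) = a := by
  induction N with
  | zero => rfl
  | succ N ih => rw [pw, wlk_append, h, ih]

theorem chn_pw (a : V) (w : List (Let n)) (h : wlk σ a w = a) (N : ℕ) :
    chn σ a (pw w N) = (N : ℤ) • chn σ a w := by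
  induction N with
  | zero => simp [pw, chn]
  | succ N ih =>
    rw [pw, chn_append, h, ih]
    push_cast
    rw [add_smul, one_smul]; abel

end

end ANNM

open ANNM in
theorem specANN : SpecANN := by
  intro G _ n m gen rel g D hinj C hfill p q v hp hc
  -- the words
  set W : ℕ → List (Let n) := fun N => pw p N ++ v ++ pw (inv q) N ++ inv v with hW
  have hcN : ∀ N : ℕ, g ^ N * ev gen v = ev gen v * ev gen q ^ N := by
    intro N
    induction N with
    | zero => simp
    | succ N ih => rw [pow_succ', mul_assoc, ih, ← mul_assoc, hc, mul_assoc, ← pow_succ']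
  have hevW : ∀ N, ev gen (W N) = 1 := by
    intro N
    simp only [hW, ev_append, ev_inv, ev_pw, hp]
    rw [hcN N, inv_pow, mul_inv_cancel_right, mul_inv_cancel]
  have hlen : ∀ N, (W N).length = N * p.length + N * q.length + 2 * v.length := by
    intro N
    simp only [hW, List.length_append, length_pw, length_inv]
    ring
  -- the loops in the quotient
  have hπg : ∀ x : G, D.π (g * x) = D.π x := fun x =>
    ((D.rel x (g * x)).2 ⟨1, by simp⟩).symm
  have hlp : wlk D.σ (D.π 1) p = D.π 1 := by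
    rw [D.wlk, one_mul, hp]
    have := hπg 1
    rwa [mul_one] at this
  have hlq : wlk D.σ (D.π (ev gen v)) q = D.π (ev gen v) := by
    rw [D.wlk, ← hc, hπg]
  have hlq' : wlk D.σ (D.π (ev gen v)) (inv q) = D.π (ev gen v) := by
    have := wlk_inv D.σ (D.π (ev gen v)) q
    rwa [hlq] at this
  have hcq : chn D.σ (D.π (ev gen v)) (inv q) = -chn D.σ (D.π (ev gen v)) q := by
    have := chn_inv D.σ (D.π (ev gen v)) q
    rwa [hlq] at this
  have hv1 : wlk D.σ (D.π 1) v = D.π (ev gen v) := by rw [D.wlk, one_mul]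
  have hchW : ∀ N : ℕ, chn D.σ (D.π 1) (W N) =
      (N : ℤ) • (chn D.σ (D.π 1) p - chn D.σ (D.π (ev gen v)) q) := by
    intro N
    have hcv : chn D.σ (D.π (ev gen v)) (inv v) = -chn D.σ (D.π 1) v := by
      have := chn_inv D.σ (D.π 1) v
      rwa [hv1] at this
    simp only [hW, chn_append, wlk_append]
    rw [wlk_pw D.σ _ _ hlp, hv1, wlk_pw D.σ _ _ hlq', chn_pw D.σ _ _ hlp,
      chn_pw D.σ _ _ hlq', hcq, hcv, smul_sub, smul_neg]
    abel
  -- the fillings
  have hfN : ∀ N : ℕ, ∃ c : D.Q × Fin m →₀ ℤ,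
      bd2 D.σ rel c = (N : ℤ) • (chn D.σ (D.π 1) p - chn D.σ (D.π (ev gen v)) q) ∧
      nrm c ≤ C * (N * p.length + N * q.length + 2 * v.length + 1) ^ 2 := by
    intro N
    obtain ⟨c, hb, hn⟩ := hfill (W N) (hevW N)
    refine ⟨mp D.π m c, ?_, (nrm_mp_le _ _ _).trans ?_⟩
    · rw [← D.mp_bd2, hb, D.mp_chn, hchW]
    · rw [hlen] at hn; exact hn
  obtain ⟨c, hb, -⟩ := hfN 1
  rw [Nat.cast_one, one_smul] at hb
  refine ⟨c, hb, fun N _ => ?_⟩
  obtain ⟨cN, hbN, hnN⟩ := hfN N
  have h0 : (N : ℤ) • c - cN = 0 := by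
    apply hinj
    rw [map_sub, map_smul, hb, hbN, sub_self]
  have h1 : (N : ℤ) • c = cN := sub_eq_zero.1 h0
  have h2 := nrm_smul (N : ℤ) c
  rw [h1, Int.natAbs_natCast] at h2
  rw [← h2]
  exact hnN

end Pool.Agent.Lib.MP59b239.CJ
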