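import Pool.Agent.Lib.MP_59b239_al.CJ.Spec

/-!
# The conjugacy problem: BAD, the slabs of different levels are disjoint
-/

namespace Pool.Agent.Lib.MP59b239.CJ

open Finsupp

namespace BADM

theorem nrm_filter_eq {X : Type} (c : X →₀ ℤ) (P : X → Prop) [DecidablePred P] :
    nrm (c.filter P) = ∑ s ∈ c.support, if P s then (c s).natAbs else 0 := by
  classical
  rw [nrm_eq_of_subset (c.filter P) c.support]
  · refine Finset.sum_congr rfl fun s _ => ?_
    by_cases h : P s
    · rw [if_pos h, Finsupp.filter_apply_pos P c h]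
    · rw [if_neg h, Finsupp.filter_apply_neg P c h]
      rfl
  · intro s hs
    rw [Finsupp.mem_support_iff] at hs ⊢
    intro h0
    apply hs
    rw [Finsupp.filter_apply, h0]
    split_ifs <;> rfl

end BADM

open BADM in
theorem specBAD : SpecBAD := by
  intro X f c ρ a I
  have h1 : ∀ i ∈ Finset.range I, nrm (c.filter fun s =>
      a + (4 * ρ + 4) * i ≤ f s + 2 * ρ ∧ f s ≤ a + (4 * ρ + 4) * i + 2 * ρ) =
      ∑ s ∈ c.support, if a + (4 * ρ + 4) * i ≤ f s + 2 * ρ ∧ f s ≤ a + (4 * ρ + 4) * i + 2 * ρ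
        then (c s).natAbs else 0 := fun i _ => nrm_filter_eq c _
  rw [Finset.sum_congr rfl h1, Finset.sum_comm]
  have h2 : nrm c = ∑ s ∈ c.support, (c s).natAbs := rfl
  rw [h2]
  refine Finset.sum_le_sum fun s _ => ?_
  rw [← Finset.sum_filter, Finset.sum_const, smul_eq_mul]
  have h3 : (Finset.filter (fun i => a + (4 * ρ + 4) * i ≤ f s + 2 * ρ ∧
      f s ≤ a + (4 * ρ + 4) * i + 2 * ρ) (Finset.range I)).card ≤ 1 := by
    rw [Finset.card_le_one]
    have key : ∀ i j : ℕ, i < j → a + (4 * ρ + 4) * j ≤ f s + 2 * ρ →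
        f s ≤ a + (4 * ρ + 4) * i + 2 * ρ → False := by
      intro i j hij h4 h5
      have h6 : (4 * ρ + 4) * (i + 1) ≤ (4 * ρ + 4) * j := Nat.mul_le_mul_left _ hij
      rw [Nat.mul_add] at h6
      omega
    intro i hi j hj
    rw [Finset.mem_filter] at hi hj
    by_contra hne
    rcases Nat.lt_or_gt_of_ne hne with h | h
    · exact key i j h hj.2.1 hi.2.2
    · exact key j i h hi.2.1 hj.2.2
  calc _ ≤ 1 * (c s).natAbs := Nat.mul_le_mul_right _ h3
    _ = (c s).natAbs := one_mul _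

end Pool.Agent.Lib.MP59b239.CJ
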