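import Pool.Agent.Lib.MP_59b239_al.CJ.Spec

/-!
CJ, module BDW: bounded fillings of short words.
-/

namespace Pool.Agent.Lib.MP59b239.CJ

open Finsupp in
theorem specBDW (hREL : SpecREL) : SpecBDW := by
  classical
  intro G _ n m gen rel hP R
  have hR := (hREL G n m gen rel hP).2
  have hfin : Set.Finite {w : List (Let n) | w.length ≤ R} := List.finite_length_le _ R
  have hc : ∀ w : List (Let n), ∃ c : G × Fin m →₀ ℤ,
      ev gen w = 1 → bd2 (rsh gen) rel c = chn (rsh gen) 1 w := by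
    intro w
    by_cases hw : ev gen w = 1
    · obtain ⟨c, hc⟩ := hR 1 w hw
      exact ⟨c, fun _ => hc⟩
    · exact ⟨0, fun h => absurd h hw⟩
  choose c hc using hc
  refine ⟨∑ w ∈ hfin.toFinset, nrm (c w), fun w hwR hw x => ?_⟩
  refine ⟨mp (fun y => x * y) m (c w), ?_, ?_⟩
  · rw [← ltr_bd2, hc w hw, ltr_chn, mul_one]
  · refine (nrm_mp_le _ _ _).trans ?_
    exact Finset.single_le_sum (f := fun w => nrm (c w)) (fun _ _ => Nat.zero_le _)
      (hfin.mem_toFinset.2 hwR)

end Pool.Agent.Lib.MP59b239.CJ
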