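import Pool.Agent.Lib.MP_59b239_al.CJ.Defs

/-!
# Chains of walks in Schreier graphs: basic facts
-/

namespace Pool.Agent.Lib.MP59b239.CJ

/-- The letters. -/
abbrev Let (n : ℕ) := Fin n ⊕ Fin n

section Graph

variable {V : Type} {n m : ℕ} (σ : Fin n → Equiv.Perm V)

/-- One step: `inl i` is `σ i`, `inr i` is `(σ i)⁻¹`. -/
def stp (v : V) : Let n → V
  | Sum.inl i => σ i v
  | Sum.inr i => (σ i).symm v

/-- The `1`-chain of a step; the edge `(v, i)` goes from `v` to `σ i v`. -/
noncomputable def edg (v : V) : Let n → (V × Fin n →₀ ℤ)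
  | Sum.inl i => Finsupp.single (v, i) 1
  | Sum.inr i => -Finsupp.single ((σ i).symm v, i) 1

/-- The end of the walk which starts at `v` and reads the word. -/
def wlk : V → List (Let n) → V
  | v, [] => v
  | v, a :: w => wlk (stp σ v a) w

/-- The `1`-chain of the walk. -/
noncomputable def chn : V → List (Let n) → (V × Fin n →₀ ℤ)
  | _, [] => 0
  | v, a :: w => edg σ v a + chn (stp σ v a) w

/-- The boundary of `1`-chains. -/
noncomputable def bd1 : (V × Fin n →₀ ℤ) →ₗ[ℤ] (V →₀ ℤ) :=
  Finsupp.linearCombination ℤ fun e => Finsupp.single (σ e.2 e.1) 1 - Finsupp.single e.1 1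

/-- The boundary of `2`-chains; the boundary of the cell `(v, j)` is the walk from `v` which reads
`rel j`. -/
noncomputable def bd2 (rel : Fin m → List (Let n)) : (V × Fin m →₀ ℤ) →ₗ[ℤ] (V × Fin n →₀ ℤ) :=
  Finsupp.linearCombination ℤ fun c => chn σ c.1 (rel c.2)

end Graph

/-- The `ℓ¹`-norm of an integral chain. -/
def nrm {α : Type} (c : α →₀ ℤ) : ℕ := c.sum fun _ a => a.natAbs

/-- The inverse word. -/
def inv {n : ℕ} (w : List (Let n)) : List (Let n) := (w.map Sum.swap).reverse

/-- The right multiplications by the generators. -/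
def rsh {G : Type} [Group G] {n : ℕ} (gen : Fin n → G) : Fin n → Equiv.Perm G :=
  fun i => Equiv.mulRight (gen i)

/-- The quotient of the Cayley graph by the left action of the powers of `g`. -/
structure QD {G : Type} [Group G] {n : ℕ} (gen : Fin n → G) (g : G) where
  /-- the vertices -/
  Q : Type
  /-- the projection -/
  π : G → Q
  /-- the edges -/
  σ : Fin n → Equiv.Perm Q
  surj : Function.Surjective π
  rel : ∀ x y, π x = π y ↔ ∃ k : ℤ, y = g ^ k * x
  comm : ∀ i x, σ i (π x) = π (x * gen i)

/-! ### Norms -/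

section Norm

variable {α β : Type}

theorem nrm_eq_of_subset (c : α →₀ ℤ) (s : Finset α) (h : c.support ⊆ s) :
    nrm c = ∑ a ∈ s, (c a).natAbs :=
  Finsupp.sum_of_support_subset _ h _ (fun _ _ => rfl)

@[simp] theorem nrm_zero : nrm (0 : α →₀ ℤ) = 0 := by simp [nrm]

theorem nrm_single (a : α) (x : ℤ) : nrm (Finsupp.single a x) = x.natAbs := by
  simp [nrm]

theorem nrm_add_le (c d : α →₀ ℤ) : nrm (c + d) ≤ nrm c + nrm d := by
  classical
  rw [nrm_eq_of_subset (c + d) (c.support ∪ d.support) Finsupp.support_add,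
    nrm_eq_of_subset c (c.support ∪ d.support) Finset.subset_union_left,
    nrm_eq_of_subset d (c.support ∪ d.support) Finset.subset_union_right, ← Finset.sum_add_distrib]
  exact Finset.sum_le_sum fun a _ => by
    rw [Finsupp.add_apply]; exact Int.natAbs_add_le _ _

@[simp] theorem nrm_neg (c : α →₀ ℤ) : nrm (-c) = nrm c := by
  simp [nrm, Finsupp.sum]

theorem nrm_sub_le (c d : α →₀ ℤ) : nrm (c - d) ≤ nrm c + nrm d := by
  rw [sub_eq_add_neg]
  exact (nrm_add_le _ _).trans (by rw [nrm_neg])

theorem nrm_smul (k : ℤ) (c : α →₀ ℤ) : nrm (k • c) = k.natAbs * nrm c := by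
  classical
  rw [nrm_eq_of_subset (k • c) c.support Finsupp.support_smul, nrm, Finsupp.sum, Finset.mul_sum]
  exact Finset.sum_congr rfl fun a _ => by simp [Int.natAbs_mul]

theorem nrm_eq_zero (c : α →₀ ℤ) : nrm c = 0 ↔ c = 0 := by
  constructor
  · intro h
    ext a
    by_contra ha
    have : (c a).natAbs = 0 := by
      unfold nrm Finsupp.sum at h
      exact (Finset.sum_eq_zero_iff.mp h) a (by simpa using ha)
    exact ha (by simpa using this)
  · rintro rfl
    simp

theorem nrm_sum_le {ι : Type} (s : Finset ι) (f : ι → α →₀ ℤ) :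
    nrm (∑ i ∈ s, f i) ≤ ∑ i ∈ s, nrm (f i) := by
  classical
  induction s using Finset.induction_on with
  | empty => simp
  | insert a s ha ih =>
    rw [Finset.sum_insert ha, Finset.sum_insert ha]
    exact (nrm_add_le _ _).trans (by omega)

theorem nrm_mapDomain_le (f : α → β) (c : α →₀ ℤ) : nrm (Finsupp.mapDomain f c) ≤ nrm c := by
  classical
  unfold Finsupp.mapDomain Finsupp.sum
  refine (nrm_sum_le _ _).trans (le_of_eq ?_)
  unfold nrm Finsupp.sum
  refine Finset.sum_congr rfl fun a _ => ?_
  have := nrm_single (f a) (c a)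
  unfold nrm Finsupp.sum at this
  exact this

/-- A linear map with images of norm `≤ K` on the basis. -/
theorem nrm_linearCombination_le (v : α → β →₀ ℤ) (K : ℕ) (c : α →₀ ℤ)
    (h : ∀ a ∈ c.support, nrm (v a) ≤ K) :
    nrm (Finsupp.linearCombination ℤ v c) ≤ K * nrm c := by
  classical
  rw [Finsupp.linearCombination_apply, Finsupp.sum]
  refine (nrm_sum_le _ _).trans ?_
  rw [nrm, Finsupp.sum, Finset.mul_sum]
  refine Finset.sum_le_sum fun a ha => ?_
  rw [nrm_smul, mul_comm]
  exact Nat.mul_le_mul_right _ (h a ha)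

theorem nrm_filter_le (c : α →₀ ℤ) (P : α → Prop) [DecidablePred P] :
    nrm (c.filter P) ≤ nrm c := by
  classical
  rw [nrm_eq_of_subset (c.filter P) c.support (by simp), nrm,
    Finsupp.sum]
  refine Finset.sum_le_sum fun a _ => ?_
  rw [Finsupp.filter_apply]
  split_ifs <;> simp

end Norm

/-! ### Walks -/

section Walk

variable {V : Type} {n m : ℕ} (σ : Fin n → Equiv.Perm V)

theorem wlk_append (v : V) (u w : List (Let n)) : wlk σ v (u ++ w) = wlk σ (wlk σ v u) w := by
  induction u generalizing v with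
  | nil => rfl
  | cons a u ih => exact ih _

theorem chn_append (v : V) (u w : List (Let n)) :
    chn σ v (u ++ w) = chn σ v u + chn σ (wlk σ v u) w := by
  induction u generalizing v with
  | nil => simp [chn, wlk]
  | cons a u ih => simp only [List.cons_append, chn, wlk, ih, add_assoc]

theorem bd1_single (e : V × Fin n) (x : ℤ) :
    bd1 σ (Finsupp.single e x) = x • (Finsupp.single (σ e.2 e.1) 1 - Finsupp.single e.1 1) := by
  simp [bd1]

theorem bd1_edg (v : V) (a : Let n) :
    bd1 σ (edg σ v a) = Finsupp.single (stp σ v a) 1 - Finsupp.single v 1 := by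
  cases a with
  | inl i => simp [edg, stp, bd1_single]
  | inr i => simp [edg, stp, bd1_single]

theorem bd1_chn (v : V) (w : List (Let n)) :
    bd1 σ (chn σ v w) = Finsupp.single (wlk σ v w) 1 - Finsupp.single v 1 := by
  induction w generalizing v with
  | nil => simp [chn, wlk]
  | cons a w ih => simp only [chn, wlk, map_add, bd1_edg, ih]; abel

theorem nrm_edg (v : V) (a : Let n) : nrm (edg σ v a) = 1 := by
  cases a <;> simp [edg, nrm_single]

theorem nrm_chn_le (v : V) (w : List (Let n)) : nrm (chn σ v w) ≤ w.length := by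
  induction w generalizing v with
  | nil => simp [chn]
  | cons a w ih =>
    have := nrm_add_le (edg σ v a) (chn σ (stp σ v a) w)
    have := ih (stp σ v a)
    simp only [chn, List.length_cons]
    rw [nrm_edg] at *
    omega

theorem stp_swap (v : V) (a : Let n) : stp σ (stp σ v a) a.swap = v := by
  cases a <;> simp [stp]

theorem edg_swap (v : V) (a : Let n) : edg σ (stp σ v a) a.swap = -edg σ v a := by
  cases a <;> simp [stp, edg]

theorem inv_cons (a : Let n) (w : List (Let n)) : inv (a :: w) = inv w ++ [a.swap] := by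
  simp [inv]

@[simp] theorem inv_nil : inv ([] : List (Let n)) = [] := rfl

@[simp] theorem length_inv (w : List (Let n)) : (inv w).length = w.length := by simp [inv]

theorem wlk_inv (v : V) (w : List (Let n)) : wlk σ (wlk σ v w) (inv w) = v := by
  induction w generalizing v with
  | nil => rfl
  | cons a w ih =>
    rw [inv_cons, wlk_append]
    simp only [wlk]
    rw [ih, stp_swap]

theorem chn_inv (v : V) (w : List (Let n)) : chn σ (wlk σ v w) (inv w) = -chn σ v w := by
  induction w generalizing v with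
  | nil => simp [chn]
  | cons a w ih =>
    rw [inv_cons, chn_append]
    simp only [wlk, chn, add_zero]
    rw [ih, wlk_inv, edg_swap]
    abel

theorem bd2_single (rel : Fin m → List (Let n)) (c : V × Fin m) (x : ℤ) :
    bd2 σ rel (Finsupp.single c x) = x • chn σ c.1 (rel c.2) := by
  simp [bd2]

end Walk

/-! ### Morphisms of graphs -/

section Map

variable {V W : Type} {n m : ℕ} (σ : Fin n → Equiv.Perm V) (τ : Fin n → Equiv.Perm W) (θ : V → W)

/-- The map of chains given by a map of vertices. -/
noncomputable def mp (θ : V → W) (r : ℕ) : (V × Fin r →₀ ℤ) →ₗ[ℤ] (W × Fin r →₀ ℤ) :=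
  Finsupp.lmapDomain ℤ ℤ (Prod.map θ id)

theorem mp_apply (r : ℕ) (c : V × Fin r →₀ ℤ) : mp θ r c = Finsupp.mapDomain (Prod.map θ id) c :=
  rfl

theorem mp_single (r : ℕ) (a : V × Fin r) (x : ℤ) :
    mp θ r (Finsupp.single a x) = Finsupp.single (θ a.1, a.2) x := by
  rw [mp_apply, Finsupp.mapDomain_single]; rfl

theorem nrm_mp_le (r : ℕ) (c : V × Fin r →₀ ℤ) : nrm (mp θ r c) ≤ nrm c := nrm_mapDomain_le _ _

variable (h : ∀ i v, τ i (θ v) = θ (σ i v))

include h

theorem map_symm (i : Fin n) (v : V) : (τ i).symm (θ v) = θ ((σ i).symm v) := by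
  rw [Equiv.symm_apply_eq, h, Equiv.apply_symm_apply]

theorem map_stp (v : V) (a : Let n) : stp τ (θ v) a = θ (stp σ v a) := by
  cases a with
  | inl i => exact h i v
  | inr i => exact map_symm σ τ θ h i v

theorem map_wlk (v : V) (w : List (Let n)) : wlk τ (θ v) w = θ (wlk σ v w) := by
  induction w generalizing v with
  | nil => rfl
  | cons a w ih => simp only [wlk, map_stp σ τ θ h, ih]

theorem mp_edg (v : V) (a : Let n) : mp θ n (edg σ v a) = edg τ (θ v) a := by
  cases a with
  | inl i => simp [edg, mp_single]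
  | inr i => simp [edg, mp_single, map_symm σ τ θ h]

theorem mp_chn (v : V) (w : List (Let n)) : mp θ n (chn σ v w) = chn τ (θ v) w := by
  induction w generalizing v with
  | nil => simp [chn]
  | cons a w ih => simp only [chn, map_add, mp_edg σ τ θ h, ih, map_stp σ τ θ h]

theorem mp_bd2 (rel : Fin m → List (Let n)) (c : V × Fin m →₀ ℤ) :
    mp θ n (bd2 σ rel c) = bd2 τ rel (mp θ m c) := by
  induction c using Finsupp.induction_linear with
  | zero => simp
  | add f g hf hg => simp only [map_add, hf, hg]
  | single a x => rw [bd2_single, map_smul, mp_chn σ τ θ h, mp_single, bd2_single]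

theorem map_bd1 (e : V × Fin n →₀ ℤ) :
    Finsupp.mapDomain θ (bd1 σ e) = bd1 τ (mp θ n e) := by
  have hl : ∀ x : V →₀ ℤ, Finsupp.mapDomain θ x = Finsupp.lmapDomain ℤ ℤ θ x := fun x => rfl
  induction e using Finsupp.induction_linear with
  | zero => simp
  | add f g hf hg => simp only [map_add, Finsupp.mapDomain_add, hf, hg]
  | single a x =>
    rw [bd1_single, mp_single, bd1_single, hl, map_smul, map_sub, ← hl, ← hl,
      Finsupp.mapDomain_single, Finsupp.mapDomain_single]
    simp only [h]

end Map

/-! ### The Cayley graph and its quotients -/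

section Group

variable {G : Type} [Group G] {n m : ℕ} (gen : Fin n → G)

@[simp] theorem ev_nil : ev gen [] = 1 := rfl

theorem ev_append (u w : List (Let n)) : ev gen (u ++ w) = ev gen u * ev gen w := by
  simp [ev]

theorem ev_cons (a : Let n) (w : List (Let n)) :
    ev gen (a :: w) = Sum.elim gen (fun i => (gen i)⁻¹) a * ev gen w := by
  simp [ev]

theorem ev_inv (w : List (Let n)) : ev gen (inv w) = (ev gen w)⁻¹ := by
  induction w with
  | nil => simp
  | cons a w ih =>
    rw [inv_cons, ev_append, ih, ev_cons, ev_cons]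
    cases a <;> simp

theorem stp_rsh (x : G) (a : Let n) :
    stp (rsh gen) x a = x * Sum.elim gen (fun i => (gen i)⁻¹) a := by
  cases a <;> simp [stp, rsh]

theorem wlk_rsh (x : G) (w : List (Let n)) : wlk (rsh gen) x w = x * ev gen w := by
  induction w generalizing x with
  | nil => simp [wlk]
  | cons a w ih => simp only [wlk, ih, stp_rsh, ev_cons, mul_assoc]

theorem path_eq_chn (x : G) (w : List (Let n)) : path gen x w = chn (rsh gen) x w := by
  induction w generalizing x with
  | nil => rfl
  | cons a w ih =>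
    cases a with
    | inl i => simp [path, chn, edg, stp, rsh, ih]
    | inr i => simp [path, chn, edg, stp, rsh, ih]

variable {gen}

theorem QD.symm_comm {g : G} (D : QD gen g) (i : Fin n) (x : G) :
    (D.σ i).symm (D.π x) = D.π (x * (gen i)⁻¹) := by
  rw [Equiv.symm_apply_eq, D.comm, inv_mul_cancel_right]

theorem QD.stp {g : G} (D : QD gen g) (x : G) (a : Let n) :
    stp D.σ (D.π x) a = D.π (stp (rsh gen) x a) := by
  cases a with
  | inl i => simp [CJ.stp, rsh, D.comm]
  | inr i => simp [CJ.stp, rsh, D.symm_comm]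

theorem QD.wlk {g : G} (D : QD gen g) (x : G) (w : List (Let n)) :
    wlk D.σ (D.π x) w = D.π (x * ev gen w) := by
  rw [← wlk_rsh]
  induction w generalizing x with
  | nil => rfl
  | cons a w ih => simp only [CJ.wlk, D.stp, ih]

/-- The projection `π` maps the chain of a walk to the chain of the walk. -/
theorem QD.mp_chn {g : G} (D : QD gen g) (x : G) (w : List (Let n)) :
    mp D.π n (chn (rsh gen) x w) = chn D.σ (D.π x) w :=
  CJ.mp_chn (rsh gen) D.σ D.π (fun i v => D.comm i v) x w

theorem QD.mp_bd2 {g : G} (D : QD gen g) (rel : Fin m → List (Let n)) (c : G × Fin m →₀ ℤ) :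
    mp D.π n (bd2 (rsh gen) rel c) = bd2 D.σ rel (mp D.π m c) :=
  CJ.mp_bd2 (rsh gen) D.σ D.π (fun i v => D.comm i v) rel c

variable (gen)

/-- Left translations. -/
theorem ltr_chn (g x : G) (w : List (Let n)) :
    mp (fun y => g * y) n (chn (rsh gen) x w) = chn (rsh gen) (g * x) w :=
  CJ.mp_chn (rsh gen) (rsh gen) (fun y => g * y) (fun i v => by simp [rsh, mul_assoc]) x w

theorem ltr_bd2 (g : G) (rel : Fin m → List (Let n)) (c : G × Fin m →₀ ℤ) :
    mp (fun y => g * y) n (bd2 (rsh gen) rel c) = bd2 (rsh gen) rel (mp (fun y => g * y) m c) :=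
  CJ.mp_bd2 (rsh gen) (rsh gen) (fun y => g * y) (fun i v => by simp [rsh, mul_assoc]) rel c

theorem ltr_bd1 (g : G) (e : G × Fin n →₀ ℤ) :
    Finsupp.mapDomain (fun y => g * y) (bd1 (rsh gen) e) =
      bd1 (rsh gen) (mp (fun y => g * y) n e) :=
  map_bd1 (rsh gen) (rsh gen) (fun y => g * y) (fun i v => by simp [rsh, mul_assoc]) e

theorem bd2_injective_of_aspherical (rel : Fin m → List (Let n)) (h : Aspherical gen rel)
    (c : G × Fin m →₀ ℤ) (hc : bd2 (rsh gen) rel c = 0) : c = 0 := by
  have h' : LinearIndependent ℤ fun c : G × Fin m => chn (rsh gen) c.1 (rel c.2) := by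
    have : (fun c : G × Fin m => chn (rsh gen) c.1 (rel c.2)) =
        fun c : G × Fin m => path gen c.1 (rel c.2) := by
      ext1 c; rw [path_eq_chn]
    rw [this]; exact h
  exact (linearIndependent_iff.mp h') c hc

end Group

end Pool.Agent.Lib.MP59b239.CJ
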