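import Pool.Agent.Lib.MP_59b239_al.CJ.Spec

/-!
# CON: the length of the conjugators
-/

namespace Pool.Agent.Lib.MP59b239.CJ

namespace CONM

theorem zpow_of_tor {G : Type} [Group G] {g : G} (h : ∀ N : ℕ, 0 < N → g ^ N ≠ 1) (k : ℤ)
    (hk : g ^ k = 1) : k = 0 := by
  by_contra hk0
  apply h k.natAbs (Int.natAbs_pos.mpr hk0)
  rcases Int.natAbs_eq k with h1 | h1
  · rw [h1, zpow_natCast] at hk
    exact hk
  · rw [h1, zpow_neg, zpow_natCast, inv_eq_one] at hk
    exact hk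

end CONM

theorem specCON (hREL : SpecREL) (hTOR : SpecTOR) (hINJ : SpecINJ) (hQUO : SpecQUO)
    (hISO : SpecISO) (hANN : SpecANN) (hLVL : SpecLVL) (hCOR : SpecCOR) (hNUM : SpecNUM) :
    SpecCON := by
  intro G _ n m gen rel hp ha has G₀ _
  obtain ⟨C, hC⟩ := hISO G n m gen rel hp ha
  obtain ⟨hrel, -⟩ := hREL G n m gen rel hp
  have hρ : ∀ j, (rel j).length ≤ ∑ j, (rel j).length := fun j =>
    Finset.single_le_sum (f := fun j => (rel j).length) (fun _ _ => Nat.zero_le _)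
      (Finset.mem_univ j)
  obtain ⟨K, hK⟩ := hNUM C (∑ j, (rel j).length) G₀.index n
  refine ⟨K, fun p q hroot hconj => ?_⟩
  obtain ⟨P, hP, hroot⟩ := hroot
  obtain ⟨y, hy⟩ := isConj_iff.mp hconj
  by_cases hg : ev gen p = 1
  · refine ⟨[], Nat.zero_le _, ?_⟩
    rw [hg] at hy ⊢
    simpa using hy
  have htor := CONM.zpow_of_tor (hTOR G n m gen rel hp has (ev gen p) hg)
  obtain ⟨D⟩ := hQUO G n gen (ev gen p)
  have hinj := hINJ G n m gen rel hp has (ev gen p) htor D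
  obtain ⟨f, hf1, hf2, hf3, hf4⟩ := hLVL G n gen hp.1 (ev gen p)
  obtain ⟨z, v, hz, hzv, hv⟩ := hf4 y⁻¹
  have hz' : z⁻¹ * ev gen p = ev gen p * z⁻¹ := by
    have hc : Commute z (ev gen p) := hz
    exact hc.inv_left
  have hev : ev gen v = z⁻¹ * y⁻¹ := by rw [hzv]; group
  have hfv : f (ev gen v) = v.length := by rw [hev, hf1 _ _ hz', hv]
  have hcv : ev gen p * ev gen v = ev gen v * ev gen q := by
    rw [hev, ← hy, ← mul_assoc, ← hz']
    group
  obtain ⟨c, hc1, hc2⟩ := hANN G n m gen rel (ev gen p) D hinj C hC p q v rfl hcv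
  refine ⟨v, ?_, ?_⟩
  · refine hK (p.length + q.length) v.length (nrm c) (fun N hN => ?_) (fun L I hLI => ?_)
    · have := hc2 N hN
      rw [mul_add]
      exact this
    · refine hCOR G n m gen rel (∑ j, (rel j).length) G₀ (ev gen p) P hρ hrel hP hroot htor D f
        hf1 hf2 hf3 p q v rfl hcv c hc1 L I ?_
      rw [hfv]
      exact hLI
  · rw [mul_assoc, hcv, inv_mul_cancel_left]

end Pool.Agent.Lib.MP59b239.CJ
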