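import Pool.Agent.Lib.MP_59b239_al.CJ.Spec

/-! # CJ, module COR (helper47) -/

set_option autoImplicit false

namespace Pool.Agent.Lib.MP59b239.CJ

open Finsupp

namespace CORM

section

variable {V : Type} {n m : ℕ} (σ : Fin n → Equiv.Perm V)

theorem level (f : V → ℕ) (hf : ∀ v i, f (σ i v) ≤ f v + 1 ∧ f v ≤ f (σ i v) + 1)
    (v : V) (w : List (Let n)) (e : V × Fin n) (h : chn σ v w e ≠ 0) :
    f e.1 ≤ f v + w.length ∧ f v ≤ f e.1 + w.length := by
  induction w generalizing v with
  | nil => simp [chn] at h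
  | cons a w ih =>
    simp only [chn, Finsupp.add_apply] at h
    have h1 : edg σ v a e ≠ 0 ∨ chn σ (stp σ v a) w e ≠ 0 := by
      by_contra hcon
      push Not at hcon
      apply h
      rw [hcon.1, hcon.2, add_zero]
    rcases h1 with h1 | h1
    · cases a with
      | inl i =>
        have h2 : e = (v, i) := by
          by_contra hne
          apply h1
          exact Finsupp.single_eq_of_ne hne
        rw [h2]
        simp only [List.length_cons]
        omega
      | inr i =>
        have h2 : e = ((σ i).symm v, i) := by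
          by_contra hne
          apply h1
          show (-(Finsupp.single ((σ i).symm v, i) (1 : ℤ))) e = 0
          rw [Finsupp.neg_apply, Finsupp.single_eq_of_ne hne, neg_zero]
        have h3 := hf ((σ i).symm v) i
        rw [Equiv.apply_symm_apply] at h3
        rw [h2]
        simp only [List.length_cons]
        omega
    · have h2 := ih _ h1
      have h3 : f (stp σ v a) ≤ f v + 1 ∧ f v ≤ f (stp σ v a) + 1 := by
        cases a with
        | inl i => exact hf v i
        | inr i =>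
          have h4 := hf ((σ i).symm v) i
          rw [Equiv.apply_symm_apply] at h4
          exact ⟨h4.2, h4.1⟩
      simp only [List.length_cons]
      omega

end

end CORM

open CORM in
theorem specCOR (hSLC : SpecSLC) (hBAD : SpecBAD) (hWND : SpecWND) (hLOP : SpecLOP)
    (hPIG : SpecPIG) : SpecCOR := by
  classical
  intro G _ n m gen rel ρ G₀ _ g p hρ hrel hp hroot htf D f hfc hfl hf1 u w v hu hv c hc L I hI
  -- the function on the quotient
  let F : D.Q → ℕ := fun q => f (Function.surjInv D.surj q)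
  have hF : ∀ x, F (D.π x) = f x := by
    intro x
    have h1 : D.π (Function.surjInv D.surj (D.π x)) = D.π x := Function.surjInv_eq D.surj _
    obtain ⟨k, hk⟩ := (D.rel _ _).1 h1
    show f (Function.surjInv D.surj (D.π x)) = f x
    conv_rhs => rw [hk]
    exact (hfc (g ^ k) _ (Commute.zpow_self g k)).symm
  have hFl : ∀ q i, F (D.σ i q) ≤ F q + 1 ∧ F q ≤ F (D.σ i q) + 1 := by
    intro q i
    obtain ⟨x, rfl⟩ := D.surj q
    rw [D.comm, hF, hF]
    exact hfl x i
  have hFs : ∀ q i, F ((D.σ i).symm q) ≤ F q + 1 ∧ F q ≤ F ((D.σ i).symm q) + 1 := by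
    intro q i
    have h1 := hFl ((D.σ i).symm q) i
    rw [Equiv.apply_symm_apply] at h1
    exact ⟨h1.2, h1.1⟩
  set γ := chn D.σ (D.π 1) u with hγ
  set γ' := chn D.σ (D.π (ev gen v)) w with hγ'
  have ha : ∀ e, γ e ≠ 0 → F e.1 ≤ u.length := by
    intro e he
    have h1 := (level D.σ F hFl _ _ e he).1
    rw [hF, hf1] at h1
    omega
  have hb : ∀ e, γ' e ≠ 0 → f (ev gen v) - w.length ≤ F e.1 := by
    intro e he
    have h1 := (level D.σ F hFl _ _ e he).2
    rw [hF] at h1
    omega
  let T : ℕ → ℕ := fun i => u.length + ρ + 1 + (4 * ρ + 4) * i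
  have hT : ∀ i, i < I → u.length + ρ < T i ∧ T i + ρ < f (ev gen v) - w.length := by
    intro i hi
    have h1 : (4 * ρ + 4) * (i + 1) ≤ (4 * ρ + 4) * I := Nat.mul_le_mul_left _ hi
    rw [Nat.mul_add, Nat.mul_one] at h1
    show u.length + ρ < u.length + ρ + 1 + (4 * ρ + 4) * i ∧
      u.length + ρ + 1 + (4 * ρ + 4) * i + ρ < f (ev gen v) - w.length
    constructor
    · omega
    · omega
  let slab : ℕ → (D.Q × Fin m →₀ ℤ) := fun i =>
    c.filter fun s => T i ≤ F s.1 + 2 * ρ ∧ F s.1 ≤ T i + 2 * ρ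
  have hsl : ∀ i, ∃ c' : D.Q × Fin m →₀ ℤ, i < I →
      (∀ e, (γ - bd2 D.σ rel c') e ≠ 0 → T i ≤ F e.1 + ρ ∧ F e.1 ≤ T i + ρ) ∧
      nrm (γ - bd2 D.σ rel c') ≤ ρ * nrm (slab i) := by
    intro i
    by_cases hi : i < I
    · obtain ⟨c', h1⟩ := hSLC D.Q n m D.σ rel ρ F hρ hFl c γ γ' _ _ hc ha hb (T i) (hT i hi).1
        (hT i hi).2
      exact ⟨c', fun _ => h1⟩
    · exact ⟨0, fun h => absurd h hi⟩
  choose c' hc' using hsl
  have hbad : ∑ i ∈ Finset.range I, nrm (slab i) ≤ nrm c :=
    hBAD (D.Q × Fin m) (fun s => F s.1) c ρ (u.length + ρ + 1) I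
  obtain ⟨ω, hω⟩ := hWND G n gen g D htf
  have hcell : ∀ s : D.Q × Fin m, bd1 D.σ (chn D.σ s.1 (rel s.2)) = 0 ∧
      ω (chn D.σ s.1 (rel s.2)) = 0 := by
    rintro ⟨q, j⟩
    obtain ⟨x, rfl⟩ := D.surj q
    constructor
    · rw [bd1_chn, D.wlk, hrel j, mul_one, sub_self]
    · exact hω x (rel j) 0 (by rw [hrel j, mul_one, zpow_zero, one_mul])
  have hbd2 : ∀ d : D.Q × Fin m →₀ ℤ, bd1 D.σ (bd2 D.σ rel d) = 0 ∧
      ω (bd2 D.σ rel d) = 0 := by
    intro d
    induction d using Finsupp.induction_linear with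
    | zero => simp
    | add d d' h h' =>
      rw [map_add, map_add, map_add, h.1, h.2, h'.1, h'.2]
      simp
    | single s x =>
      rw [bd2_single, map_smul, map_smul, (hcell s).1, (hcell s).2]
      simp
  have hγ1 : bd1 D.σ γ = 0 := by
    rw [hγ, bd1_chn, D.wlk, one_mul, hu]
    have : D.π g = D.π 1 := ((D.rel 1 g).2 ⟨1, by simp⟩).symm
    rw [this, sub_self]
  have hγω : ω γ = 1 := hω 1 u 1 (by rw [one_mul, hu, zpow_one, mul_one])
  let S : Finset ℕ := (Finset.range I).filter fun i => ρ * nrm (slab i) ≤ L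
  have hlop : ∀ i, ∃ (y : G) (w' : List (Let n)) (k : ℤ), i ∈ S →
      w'.length ≤ L ∧ ¬ (p : ℤ) ∣ k ∧ y * ev gen w' = g ^ k * y ∧
      T i ≤ f y + ρ + 1 ∧ f y ≤ T i + ρ + 1 := by
    intro i
    by_cases hi : i ∈ S
    · have hi1 := (Finset.mem_filter.1 hi).1
      have hi2 := (Finset.mem_filter.1 hi).2
      have hiI := Finset.mem_range.1 hi1
      have h1 := hc' i hiI
      obtain ⟨y, w', k, l1, l2, l3, j, l4⟩ := hLOP G n gen g D ω hω p hp
        (γ - bd2 D.σ rel (c' i)) (by rw [map_sub, hγ1, (hbd2 _).1, sub_zero])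
        (by rw [map_sub, hγω, (hbd2 _).2, sub_zero])
      refine ⟨y, w', k, fun _ => ⟨l1.trans (h1.2.trans hi2), l2, l3, ?_⟩⟩
      rcases l4 with l4 | l4
      · have h2 := h1.1 _ l4
        simp only [hF] at h2
        omega
      · have h2 := h1.1 _ l4
        have h3 := hFs (D.π y) j
        rw [hF] at h3
        simp only at h2
        omega
    · exact ⟨1, [], 0, fun h => absurd h hi⟩
  choose y w' k hy using hlop
  have hpig : S.card ≤ G₀.index * (2 * n + 1) ^ L := by
    refine hPIG G n gen G₀ g p hroot f hfc L S y w' k (fun i hi => ?_) fun i hi j hj hij => ?_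
    · exact ⟨(hy i hi).1, (hy i hi).2.1, (hy i hi).2.2.1⟩
    · have h1 := (hy i hi).2.2.2
      have h2 := (hy j hj).2.2.2
      rw [hij] at h1
      have h3 : T i ≤ T j + 2 * ρ + 2 := by omega
      have h4 : T j ≤ T i + 2 * ρ + 2 := by omega
      simp only [T] at h3 h4
      by_contra hne
      rcases Nat.lt_or_gt_of_ne hne with h5 | h5
      · have h6 : (4 * ρ + 4) * (i + 1) ≤ (4 * ρ + 4) * j := Nat.mul_le_mul_left _ h5
        rw [Nat.mul_add, Nat.mul_one] at h6
        omega
      · have h6 : (4 * ρ + 4) * (j + 1) ≤ (4 * ρ + 4) * i := Nat.mul_le_mul_left _ h5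
        rw [Nat.mul_add, Nat.mul_one] at h6
        omega
  have hcard : S.card + ((Finset.range I).filter fun i => ¬ ρ * nrm (slab i) ≤ L).card = I := by
    have h1 := Finset.card_filter_add_card_filter_not (s := Finset.range I)
      (fun i => ρ * nrm (slab i) ≤ L)
    rw [Finset.card_range] at h1
    exact h1
  have hrest : (L + 1) * ((Finset.range I).filter fun i => ¬ ρ * nrm (slab i) ≤ L).card ≤
      ρ * nrm c := by
    calc (L + 1) * ((Finset.range I).filter fun i => ¬ ρ * nrm (slab i) ≤ L).card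
        = ∑ i ∈ (Finset.range I).filter (fun i => ¬ ρ * nrm (slab i) ≤ L), (L + 1) := by
          rw [Finset.sum_const, smul_eq_mul, mul_comm]
      _ ≤ ∑ i ∈ (Finset.range I).filter (fun i => ¬ ρ * nrm (slab i) ≤ L),
          ρ * nrm (slab i) := Finset.sum_le_sum fun i hi => by
            have := (Finset.mem_filter.1 hi).2
            omega
      _ ≤ ∑ i ∈ Finset.range I, ρ * nrm (slab i) :=
          Finset.sum_le_sum_of_subset (Finset.filter_subset _ _)
      _ = ρ * ∑ i ∈ Finset.range I, nrm (slab i) := by rw [Finset.mul_sum]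
      _ ≤ ρ * nrm c := Nat.mul_le_mul_left _ hbad
  calc (L + 1) * I = (L + 1) * S.card +
        (L + 1) * ((Finset.range I).filter fun i => ¬ ρ * nrm (slab i) ≤ L).card := by
        rw [← Nat.mul_add, hcard]
    _ ≤ (L + 1) * (G₀.index * (2 * n + 1) ^ L) + ρ * nrm c :=
        Nat.add_le_add (Nat.mul_le_mul_left _ hpig) hrest

end Pool.Agent.Lib.MP59b239.CJ
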