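import Mathlib

/-!
# The conjugacy problem for two-dimensional automatic groups (MP_59b239_al): definitions

`gen : Fin n → G` are generators of the group `G`; words are lists of letters `inl i` (for `gen i`)
and `inr i` (for `(gen i)⁻¹`). The Cayley graph has the vertices `x : G` and the edges
`(x, i) : G × Fin n` from `x` to `x * gen i`.
-/

namespace Pool.Agent.Lib.MP59b239.CJ

/-- The element of `G` represented by a word. -/
def ev {G : Type} [Group G] {n : ℕ} (gen : Fin n → G) (w : List (Fin n ⊕ Fin n)) : G :=
  (w.map (Sum.elim gen (fun i => (gen i)⁻¹))).prod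

/-- The `1`-chain of the Cayley graph given by the path which starts at `x` and reads the word. -/
noncomputable def path {G : Type} [Group G] {n : ℕ} (gen : Fin n → G) :
    G → List (Fin n ⊕ Fin n) → (G × Fin n →₀ ℤ)
  | _, [] => 0
  | x, Sum.inl i :: w => Finsupp.single (x, i) 1 + path gen (x * gen i) w
  | x, Sum.inr i :: w => -Finsupp.single (x * (gen i)⁻¹, i) 1 + path gen (x * (gen i)⁻¹) w

/-- `gen` is the set of generators of an automatic structure: there is a regular language of words
which maps onto `G` and has the fellow traveller property. -/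
def Automatic {G : Type} [Group G] {n : ℕ} (gen : Fin n → G) : Prop :=
  ∃ L : Language (Fin n ⊕ Fin n),
    (∃ (σ : Type) (_ : Fintype σ) (M : DFA (Fin n ⊕ Fin n) σ), M.accepts = L) ∧
    (∀ g : G, ∃ w ∈ L, ev gen w = g) ∧
    ∃ k : ℕ, ∀ u ∈ L, ∀ v ∈ L, ∀ a : Option (Fin n ⊕ Fin n),
      ev gen v = ev gen u * ev gen a.toList →
      ∀ t : ℕ, ∃ w : List (Fin n ⊕ Fin n), w.length ≤ k ∧
        ev gen (u.take t) * ev gen w = ev gen (v.take t)

/-- The words `rel j` are the relators of a finite presentation of `G`. -/
def Presents {G : Type} [Group G] {n m : ℕ} (gen : Fin n → G)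
    (rel : Fin m → List (Fin n ⊕ Fin n)) : Prop :=
  Subgroup.closure (Set.range gen) = ⊤ ∧
    Subgroup.normalClosure (Set.range fun j => ev FreeGroup.of (rel j)) = (FreeGroup.lift gen).ker

/-- The presentation is aspherical: the second boundary map `ℤ[G]^m → ℤ[G]^n` of the universal
covering of the presentation complex is injective, i.e. the boundaries of the `2`-cells `(x, j)`
(the path which starts at `x` and reads `rel j`) are linearly independent over `ℤ`. -/
def Aspherical {G : Type} [Group G] {n m : ℕ} (gen : Fin n → G)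
    (rel : Fin m → List (Fin n ⊕ Fin n)) : Prop :=
  LinearIndependent ℤ fun c : G × Fin m => path gen c.1 (rel c.2)

/-- There is a prime `p` such that every element of `G₀` which conjugates a power `g ^ k` to a power
`g ^ k'`, `k` and `k'` not divisible by `p`, commutes with `g`. -/
def RootProp {G : Type} [Group G] (G₀ : Subgroup G) (g : G) : Prop :=
  ∃ p : ℕ, p.Prime ∧ ∀ y ∈ G₀, ∀ k k' : ℤ, ¬ (p : ℤ) ∣ k → ¬ (p : ℤ) ∣ k' →
    y * g ^ k * y⁻¹ = g ^ k' → y * g = g * y

end Pool.Agent.Lib.MP59b239.CJ
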