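import Pool.Agent.Lib.MP_59b239_al.CJ.Spec

/-!
# ISO: the homological quadratic isoperimetric inequality of automatic groups
-/

namespace Pool.Agent.Lib.MP59b239.CJ

namespace ISOM

variable {G : Type} [Group G] {n m : ℕ} (gen : Fin n → G) (rel : Fin m → List (Let n))

/-- The induction over the word: a word of the language which follows the path. -/
theorem step (L : Language (Let n)) (k K C₀ : ℕ) (hft : FT gen L k)
    (hlen : ∀ u ∈ L, ∀ a : Let n, ∃ v ∈ L, ev gen v = ev gen u * ev gen [a] ∧
        v.length ≤ u.length + K)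
    (hstr : ∀ (u v : List (Let n)) (a : Option (Let n)) (T : ℕ), u.length ≤ T → v.length ≤ T →
      ev gen v = ev gen u * ev gen a.toList →
      (∀ t : ℕ, ∃ w : List (Let n), w.length ≤ k ∧
        ev gen (u.take t) * ev gen w = ev gen (v.take t)) →
      ∃ c : G × Fin m →₀ ℤ, nrm c ≤ (T + 2) * C₀ ∧
        bd2 (rsh gen) rel c =
          chn (rsh gen) 1 u + chn (rsh gen) (ev gen u) a.toList - chn (rsh gen) 1 v)
    (w : List (Let n)) :
    ∀ u ∈ L, ∃ v ∈ L, ev gen v = ev gen u * ev gen w ∧ v.length ≤ u.length + K * w.length ∧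
      ∃ c : G × Fin m →₀ ℤ, nrm c ≤ w.length * ((u.length + K * w.length + 2) * C₀) ∧
        bd2 (rsh gen) rel c =
          chn (rsh gen) 1 u + chn (rsh gen) (ev gen u) w - chn (rsh gen) 1 v := by
  induction w with
  | nil =>
    intro u hu
    exact ⟨u, hu, by simp, by simp, 0, by simp, by simp [chn]⟩
  | cons a w ih =>
    intro u hu
    obtain ⟨v', hv', hev', hlv'⟩ := hlen u hu a
    obtain ⟨c₁, hc₁, hb₁⟩ := hstr u v' (some a) (u.length + K) (by omega) hlv'
      (by simpa using hev') (hft u hu v' hv' (some a) (by simpa using hev'))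
    obtain ⟨v, hv, hev, hlv, c₂, hc₂, hb₂⟩ := ih v' hv'
    have hle : v'.length + K * w.length ≤ u.length + K * (w.length + 1) := by
      rw [mul_add, mul_one]; omega
    refine ⟨v, hv, ?_, ?_, c₁ + c₂, ?_, ?_⟩
    · rw [hev, hev', mul_assoc, ← ev_append]; rfl
    · simp only [List.length_cons]; omega
    · refine (nrm_add_le _ _).trans ?_
      have h1 : (u.length + K + 2) * C₀ ≤ (u.length + K * (w.length + 1) + 2) * C₀ := by
        refine Nat.mul_le_mul_right _ ?_
        have : K ≤ K * (w.length + 1) := Nat.le_mul_of_pos_right _ (by omega)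
        omega
      have h2 : w.length * ((v'.length + K * w.length + 2) * C₀) ≤
          w.length * ((u.length + K * (w.length + 1) + 2) * C₀) :=
        Nat.mul_le_mul_left _ (Nat.mul_le_mul_right _ (by omega))
      simp only [List.length_cons]
      calc nrm c₁ + nrm c₂ ≤ (u.length + K * (w.length + 1) + 2) * C₀ +
            w.length * ((u.length + K * (w.length + 1) + 2) * C₀) := by
            exact Nat.add_le_add (hc₁.trans h1) (hc₂.trans h2)
        _ = (w.length + 1) * ((u.length + K * (w.length + 1) + 2) * C₀) := by ring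
    · rw [map_add, hb₁, hb₂]
      have e1 : chn (rsh gen) (ev gen u) (a :: w) =
          chn (rsh gen) (ev gen u) (Option.some a).toList + chn (rsh gen) (ev gen v') w := by
        have := chn_append (rsh gen) (ev gen u) [a] w
        simp only [List.singleton_append] at this
        rw [this, wlk_rsh, hev']
        rfl
      rw [e1]
      abel

end ISOM

theorem specISO (hLEN : SpecLEN) (hSTR : SpecSTR) (hBDW : SpecBDW) : SpecISO := by
  intro G _ n m gen rel hp ha
  obtain ⟨L, ⟨σ, _, M, hM⟩, hsurj, k, hft⟩ := ha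
  obtain ⟨K, hK⟩ := hLEN G n gen L σ M hM hsurj k hft
  obtain ⟨C₀, hC₀⟩ := hBDW G n m gen rel hp (2 * k + 2)
  obtain ⟨u₀, hu₀, hev₀⟩ := hsurj 1
  have hstr := hSTR G n m gen rel k C₀ hC₀
  refine ⟨(u₀.length + K + 2) * C₀, fun w hw => ?_⟩
  obtain ⟨v, hv, hev, hlv, c, hc, hb⟩ := ISOM.step gen rel L k K C₀ hft hK hstr w u₀ hu₀
  rw [hev₀, hw, one_mul] at hev
  obtain ⟨c', hc', hb'⟩ := hstr v u₀ none (u₀.length + K * w.length) hlv (by omega)
    (by simp [hev, hev₀]) (hft v hv u₀ hu₀ none (by simp [hev, hev₀]))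
  refine ⟨c + c', ?_, ?_⟩
  · rw [map_add, hb, hb', hev₀]
    simp [chn]
  · refine (nrm_add_le _ _).trans ?_
    have h1 : (u₀.length + K * w.length + 2) * C₀ ≤
        (w.length + 1) * ((u₀.length + K + 2) * C₀) := by
      rw [← mul_assoc]
      refine Nat.mul_le_mul_right _ ?_
      nlinarith [Nat.zero_le (u₀.length * w.length), Nat.zero_le w.length, Nat.zero_le K]
    calc nrm c + nrm c' ≤ w.length * ((u₀.length + K * w.length + 2) * C₀) +
          (u₀.length + K * w.length + 2) * C₀ := Nat.add_le_add hc hc'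
      _ = (w.length + 1) * ((u₀.length + K * w.length + 2) * C₀) := by ring
      _ ≤ (w.length + 1) * ((w.length + 1) * ((u₀.length + K + 2) * C₀)) :=
          Nat.mul_le_mul_left _ h1
      _ = (u₀.length + K + 2) * C₀ * (w.length + 1) ^ 2 := by ring

end Pool.Agent.Lib.MP59b239.CJ
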