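import Pool.Agent.Lib.MP_59b239_al.CJ.Spec

/-!
# A short closed walk with winding number prime to `p` (module LOP)
-/

namespace Pool.Agent.Lib.MP59b239.CJ

theorem specLOP (hFLW : SpecFLW) : SpecLOP := by
  intro G _ n gen g D ω hω p hp z hz h1
  obtain ⟨l, hl, hsum, hlen⟩ := hFLW D.Q n D.σ z hz
  have key : ∀ l : List (D.Q × List (Let n)),
      (∀ c ∈ l, (p : ℤ) ∣ ω (chn D.σ c.1 c.2)) →
      (p : ℤ) ∣ ω (l.map fun c => chn D.σ c.1 c.2).sum := by
    intro l
    induction l with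
    | nil => intro _; simp
    | cons a l ih =>
      intro h
      rw [List.map_cons, List.sum_cons, map_add]
      exact dvd_add (h a List.mem_cons_self) (ih fun b hb => h b (List.mem_cons_of_mem _ hb))
  by_cases hall : ∀ c ∈ l, (p : ℤ) ∣ ω (chn D.σ c.1 c.2)
  · exfalso
    have := key l hall
    rw [← hsum, h1] at this
    have h2 := Int.le_of_dvd one_pos this
    have := hp.two_le
    omega
  · push Not at hall
    obtain ⟨c, hc, hpc⟩ := hall
    obtain ⟨hw, -, i, hi⟩ := hl c hc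
    obtain ⟨y, hy⟩ := D.surj c.1
    have hw' : D.π (y * ev gen c.2) = D.π y := by rw [← D.wlk, hy, hw]
    obtain ⟨k, hk⟩ := (D.rel y (y * ev gen c.2)).mp hw'.symm
    refine ⟨y, c.2, k, ?_, ?_, hk, i, ?_⟩
    · rw [← hlen]
      exact List.single_le_sum (by simp) _ (List.mem_map.mpr ⟨c, hc, rfl⟩)
    · rwa [← hω y c.2 k hk, hy]
    · rw [hy]; exact hi

end Pool.Agent.Lib.MP59b239.CJ
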