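import Pool.Agent.Lib.MP_59b239_al.CJ.Spec

namespace Pool.Agent.Lib.MP59b239.CJ

namespace NUMM

theorem pow_add_le (a b k : ℕ) : a ^ (k + 1) + b ^ (k + 1) ≤ (a + b) ^ (k + 1) := by
  induction k with
  | zero => simp
  | succ k ih =>
    calc a ^ (k + 1 + 1) + b ^ (k + 1 + 1)
        ≤ (a + b) * (a ^ (k + 1) + b ^ (k + 1)) := by
          rw [pow_succ a (k + 1), pow_succ b (k + 1)]
          nlinarith [Nat.zero_le (b * a ^ (k + 1)), Nat.zero_le (a * b ^ (k + 1))]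
      _ ≤ (a + b) * (a + b) ^ (k + 1) := Nat.mul_le_mul_left _ ih
      _ = (a + b) ^ (k + 1 + 1) := by ring

theorem fin_bound (l D B m : ℕ) (hB : 1 ≤ B) (hD : 1 ≤ D)
    (h : m ≤ 2 * (l + 1 + D * B ^ (l + 1))) : m ≤ ((4 + 2 * D) * B) ^ (l + 1) := by
  have h1 : l + 1 ≤ 2 ^ (l + 1) := (Nat.lt_two_pow_self).le
  have h2 : 2 ≤ 2 ^ (l + 1) := by
    calc 2 = 2 ^ 1 := rfl
      _ ≤ 2 ^ (l + 1) := Nat.pow_le_pow_right (by norm_num) (by omega)
  have h3 : 2 * D ≤ (2 * D) ^ (l + 1) := by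
    calc 2 * D = (2 * D) ^ 1 := by ring
      _ ≤ (2 * D) ^ (l + 1) := Nat.pow_le_pow_right (by omega) (by omega)
  have hB' : 1 ≤ B ^ (l + 1) := Nat.one_le_pow _ _ hB
  calc m ≤ 2 * (l + 1 + D * B ^ (l + 1)) := h
    _ = 2 * (l + 1) + 2 * D * B ^ (l + 1) := by ring
    _ ≤ 2 ^ (l + 1) * 2 ^ (l + 1) * B ^ (l + 1) + (2 * D) ^ (l + 1) * B ^ (l + 1) := by
        apply Nat.add_le_add
        · calc 2 * (l + 1) ≤ 2 ^ (l + 1) * 2 ^ (l + 1) := Nat.mul_le_mul h2 h1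
            _ = 2 ^ (l + 1) * 2 ^ (l + 1) * 1 := by ring
            _ ≤ 2 ^ (l + 1) * 2 ^ (l + 1) * B ^ (l + 1) := Nat.mul_le_mul_left _ hB'
        · exact Nat.mul_le_mul_right _ h3
    _ = (4 * B) ^ (l + 1) + (2 * D * B) ^ (l + 1) := by
        rw [← mul_pow, ← mul_pow, ← mul_pow]; norm_num
    _ ≤ (4 * B + 2 * D * B) ^ (l + 1) := pow_add_le _ _ _
    _ = ((4 + 2 * D) * B) ^ (l + 1) := by ring

end NUMM

theorem specNUM : SpecNUM := by
  intro C ρ κ n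
  obtain ⟨S, hS⟩ : ∃ S, S = 4 * ρ + 4 := ⟨_, rfl⟩
  obtain ⟨A, hA⟩ : ∃ A, A = 64 * S * ρ * C := ⟨_, rfl⟩
  obtain ⟨B, hB⟩ : ∃ B, B = (2 * n + 1) ^ A := ⟨_, rfl⟩
  have hB1 : 1 ≤ B := by rw [hB]; exact Nat.one_le_pow _ _ (by omega)
  obtain ⟨D, hD⟩ : ∃ D, D = 2 * ρ + 1 + S + S * κ := ⟨_, rfl⟩
  have hD1 : 1 ≤ D := by omega
  refine ⟨(4 + 2 * D) * B, fun l m c h1 h2 => ?_⟩
  apply NUMM.fin_bound l D B m hB1 hD1
  have hBp : 1 ≤ B ^ (l + 1) := Nat.one_le_pow _ _ hB1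
  obtain ⟨P, hP⟩ : ∃ P, P = B ^ (l + 1) := ⟨_, rfl⟩
  rw [← hP] at hBp ⊢
  have hDP : 2 * ρ + 1 + S + S * κ * P ≤ D * P := by
    rw [hD]; nlinarith [Nat.zero_le (S * κ)]
  by_cases hM : m + 1 ≤ l + 1
  · omega
  · by_cases hm : m < l + 2 * ρ + 1
    · omega
    · -- the main case
      have hM' : l + 1 < m + 1 := by omega
      obtain ⟨N, hN⟩ : ∃ N, N = (m + 1) / (l + 1) + 1 := ⟨_, rfl⟩
      have hN0 : 0 < N := by rw [hN]; exact Nat.succ_pos _
      have hNu : N * (l + 1) ≤ 2 * (m + 1) := by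
        have := Nat.div_mul_le_self (m + 1) (l + 1)
        rw [hN, add_mul, one_mul]; omega
      have hNl : m + 1 ≤ N * (l + 1) := by
        rw [hN]
        have := Nat.lt_div_mul_add (a := m + 1) (b := l + 1) (by omega)
        rw [add_mul, one_mul]; omega
      have h3 : N * l + 2 * m + 1 ≤ 4 * (m + 1) := by
        have : N * l ≤ N * (l + 1) := Nat.mul_le_mul_left _ (by omega)
        omega
      have h4 : N * c ≤ 16 * C * (m + 1) ^ 2 := by
        calc N * c ≤ C * (N * l + 2 * m + 1) ^ 2 := h1 N hN0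
          _ ≤ C * (4 * (m + 1)) ^ 2 := Nat.mul_le_mul_left _ (Nat.pow_le_pow_left h3 2)
          _ = 16 * C * (m + 1) ^ 2 := by ring
      have h5 : c ≤ 16 * C * (l + 1) * (m + 1) := by
        have : (m + 1) * c ≤ (m + 1) * (16 * C * (l + 1) * (m + 1)) := by
          calc (m + 1) * c ≤ N * (l + 1) * c := Nat.mul_le_mul_right _ hNl
            _ = (l + 1) * (N * c) := by ring
            _ ≤ (l + 1) * (16 * C * (m + 1) ^ 2) := Nat.mul_le_mul_left _ h4
            _ = (m + 1) * (16 * C * (l + 1) * (m + 1)) := by ring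
        exact Nat.le_of_mul_le_mul_left this (by omega)
      obtain ⟨I, hI⟩ : ∃ I, I = (m - l - 2 * ρ - 1) / S := ⟨_, rfl⟩
      have hS0 : 0 < S := by omega
      have hI1 : S * I ≤ m - l - 2 * ρ - 1 := by
        rw [hI]; exact Nat.mul_div_le _ _
      have hI2 : m - l - 2 * ρ - 1 < S * I + S := by
        rw [hI]
        have := Nat.lt_mul_div_succ (m - l - 2 * ρ - 1) hS0
        rw [mul_add, mul_one] at this
        exact this
      have h6 := h2 (A * (l + 1)) I (by rw [← hS]; omega)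
      rw [pow_mul, ← hB, ← hP] at h6
      obtain ⟨L, hL⟩ : ∃ L, L = A * (l + 1) := ⟨_, rfl⟩
      rw [← hL] at h6
      have h7 : 4 * S * (ρ * c) ≤ (L + 1) * (m + 1) := by
        calc 4 * S * (ρ * c) ≤ 4 * S * (ρ * (16 * C * (l + 1) * (m + 1))) :=
              Nat.mul_le_mul_left _ (Nat.mul_le_mul_left _ h5)
          _ = A * (l + 1) * (m + 1) := by rw [hA]; ring
          _ = L * (m + 1) := by rw [hL]
          _ ≤ (L + 1) * (m + 1) := Nat.mul_le_mul_right _ (by omega)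
      have h8 : 4 * S * I ≤ 4 * S * (κ * P) + (m + 1) := by
        have : (L + 1) * (4 * S * I) ≤ (L + 1) * (4 * S * (κ * P) + (m + 1)) := by
          calc (L + 1) * (4 * S * I) = 4 * S * ((L + 1) * I) := by ring
            _ ≤ 4 * S * ((L + 1) * (κ * P) + ρ * c) := Nat.mul_le_mul_left _ h6
            _ = (L + 1) * (4 * S * (κ * P)) + 4 * S * (ρ * c) := by ring
            _ ≤ (L + 1) * (4 * S * (κ * P)) + (L + 1) * (m + 1) := Nat.add_le_add_left h7 _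
            _ = (L + 1) * (4 * S * (κ * P) + (m + 1)) := by ring
        exact Nat.le_of_mul_le_mul_left this (by omega)
      have h9 : 4 * (S * I) ≤ 4 * (S * κ * P) + (m + 1) := by
        calc 4 * (S * I) = 4 * S * I := by ring
          _ ≤ 4 * S * (κ * P) + (m + 1) := h8
          _ = 4 * (S * κ * P) + (m + 1) := by ring
      omega

end Pool.Agent.Lib.MP59b239.CJ
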