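import Pool.Agent.Lib.MP_59b239_al.CJ.Spec

namespace Pool.Agent.Lib.MP59b239.CJ

namespace PIGM

theorem eq_of_getElem? {α : Type} (L : ℕ) (u w : List α) (hu : u.length ≤ L) (hw : w.length ≤ L)
    (h : ∀ j : Fin L, u[j.1]? = w[j.1]?) : u = w := by
  apply List.ext_getElem?
  intro i
  by_cases hi : i < L
  · exact h ⟨i, hi⟩
  · rw [List.getElem?_eq_none (by omega), List.getElem?_eq_none (by omega)]

end PIGM

theorem specPIG : SpecPIG := by
  intro G _ n gen G₀ _ g p hroot f hf L S y w k hS hinj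
  classical
  have : Fintype (G ⧸ G₀) := Fintype.ofFinite _
  let F : ℕ → (Fin L → Option (Let n)) × (G ⧸ G₀) :=
    fun i => (fun j => (w i)[j.1]?, (((y i)⁻¹ : G) : G ⧸ G₀))
  have hinjOn : Set.InjOn F (S : Set ℕ) := by
    intro i hi j hj hij
    have hi' := hS i (by exact_mod_cast hi)
    have hj' := hS j (by exact_mod_cast hj)
    have h1 : w i = w j := by
      apply PIGM.eq_of_getElem? L _ _ hi'.1 hj'.1
      intro t
      exact congrFun (congrArg Prod.fst hij) t
    have h2 : (((y i)⁻¹ : G) : G ⧸ G₀) = (((y j)⁻¹ : G) : G ⧸ G₀) := congrArg Prod.snd hij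
    rw [QuotientGroup.eq, inv_inv] at h2
    have h3 : y i * ev gen (w i) * (y i)⁻¹ = g ^ k i := by
      rw [hi'.2.2, mul_inv_cancel_right]
    have h4 : (y j)⁻¹ * g ^ k j * y j = ev gen (w j) := by
      rw [mul_assoc, ← hj'.2.2, inv_mul_cancel_left]
    have h5 : (y i * (y j)⁻¹) * g ^ k j * (y i * (y j)⁻¹)⁻¹ = g ^ k i := by
      rw [← h3, h1, ← h4]
      group
    have h6 := hroot _ h2 (k j) (k i) hj'.2.1 hi'.2.1 h5
    have h7 := hf _ (y j) h6
    rw [inv_mul_cancel_right] at h7
    exact hinj i (by exact_mod_cast hi) j (by exact_mod_cast hj) h7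
  have hcard := Finset.card_le_card_of_injOn (t := Finset.univ) F
    (fun _ _ => Finset.mem_coe.2 (Finset.mem_univ _)) hinjOn
  refine hcard.trans (le_of_eq ?_)
  rw [Finset.card_univ, Fintype.card_prod, Fintype.card_fun, Fintype.card_option,
    Fintype.card_sum, Fintype.card_fin, Fintype.card_fin, Subgroup.index, Nat.card_eq_fintype_card,
    mul_comm, two_mul]

end Pool.Agent.Lib.MP59b239.CJ
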