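import Pool.Agent.Lib.MP_59b239_al.CJ.ZFR

/-!
# Module PRM: bounded search for a conjugator
-/

namespace Pool.Agent.Lib.MP59b239.CJ

/-- The existence of a conjugator of length `≤ K ^ (|p| + |q| + 1)` is computable if the word
problem is. -/
def SpecPRM : Prop :=
  ∀ (G : Type) [Group G] (n : ℕ) (gen : Fin n → G),
    (ComputablePred fun w : List (Let n) => ev gen w = 1) → ∀ K : ℕ,
    ∃ F : List (Let n) × List (Let n) → Bool, Computable F ∧ ∀ p, F p = true ↔
      ∃ v : List (Let n), v.length ≤ K ^ (p.1.length + p.2.length + 1) ∧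
        (ev gen v)⁻¹ * ev gen p.1 * ev gen v = ev gen p.2

open CPCM in
theorem specPRM (hWRD : SpecWRD) (hANY : SpecANY) : SpecPRM := by
  intro G _ n gen hwp K
  obtain ⟨W, hW, hWm⟩ := hWRD n
  obtain ⟨f, hf, hfe⟩ := ComputablePred.computable_iff.mp hwp
  have key := hANY (List (Let n) × List (Let n)) (List (Let n))
    (fun p => W (K ^ (p.1.length + p.2.length + 1)))
    (fun z => ev gen (inv z.2 ++ (z.1.1 ++ (z.2 ++ inv z.1.2))) = 1)
    (hW.comp (primrec_bound K).to_comp)
    (ComputablePred.computable_iff.mpr ⟨fun z => f (inv z.2 ++ (z.1.1 ++ (z.2 ++ inv z.1.2))),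
      hf.comp primrec_word.to_comp, by
        funext z
        exact congrFun hfe _⟩)
  obtain ⟨F, hF, hFe⟩ := ComputablePred.computable_iff.mp key
  refine ⟨F, hF, fun p => ?_⟩
  have h1 : (∃ v ∈ W (K ^ (p.1.length + p.2.length + 1)),
      ev gen (inv v ++ (p.1 ++ (v ++ inv p.2))) = 1) ↔ F p = true := by
    have := congrFun hFe p
    exact Iff.of_eq this
  rw [← h1]
  constructor
  · rintro ⟨v, hv, he⟩
    refine ⟨v, (hWm _ _).mp hv, ?_⟩
    rw [ev_append, ev_append, ev_append, ev_inv, ev_inv] at he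
    have : (ev gen v)⁻¹ * (ev gen p.1 * (ev gen v * (ev gen p.2)⁻¹)) * ev gen p.2 =
      1 * ev gen p.2 := by rw [he]
    simpa [mul_assoc] using this
  · rintro ⟨v, hv, he⟩
    refine ⟨v, (hWm _ _).mpr hv, ?_⟩
    rw [ev_append, ev_append, ev_append, ev_inv, ev_inv, ← he]
    group

end Pool.Agent.Lib.MP59b239.CJ
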