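import Pool.Agent.Lib.MP_59b239_al.CJ.Spec

/-!
# MP_59b239_al, CJ: module SLC (slices of a 2-chain)
-/

namespace Pool.Agent.Lib.MP59b239.CJ

open Finsupp

namespace SLCM

section

variable {V : Type} {n m : ℕ} (σ : Fin n → Equiv.Perm V)

/-- the edges of a walk of length `k` from `v` have levels at distance at most `k` -/
theorem chn_level (f : V → ℕ) (hf : ∀ v i, f (σ i v) ≤ f v + 1 ∧ f v ≤ f (σ i v) + 1)
    (v : V) (w : List (Let n)) (e : V × Fin n) (h : chn σ v w e ≠ 0) :
    f e.1 ≤ f v + w.length ∧ f v ≤ f e.1 + w.length := by
  induction w generalizing v with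
  | nil => simp [chn] at h
  | cons a w ih =>
    simp only [chn, Finsupp.add_apply] at h
    have h1 : edg σ v a e ≠ 0 ∨ chn σ (stp σ v a) w e ≠ 0 := by
      by_contra hcon
      push Not at hcon
      exact h (by rw [hcon.1, hcon.2, add_zero])
    have hs : f (stp σ v a) ≤ f v + 1 ∧ f v ≤ f (stp σ v a) + 1 := by
      cases a with
      | inl i => exact hf v i
      | inr i =>
        have h2 := hf ((σ i).symm v) i
        rw [Equiv.apply_symm_apply] at h2
        exact ⟨h2.2, h2.1⟩
    simp only [List.length_cons]
    rcases h1 with h1 | h1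
    · cases a with
      | inl i =>
        have h2 : e = (v, i) := by
          by_contra hne
          exact h1 (by simp [edg, Finsupp.single_apply, Ne.symm hne])
        rw [h2]
        simp only
        omega
      | inr i =>
        have h2 : e = ((σ i).symm v, i) := by
          by_contra hne
          exact h1 (by simp [edg, Finsupp.single_apply, Ne.symm hne])
        rw [h2]
        simp only [stp] at hs
        simp only
        omega
    · have h2 := ih _ h1
      omega

/-- no cell contains `e`: the boundary vanishes at `e` -/
theorem bd2_zero (rel : Fin m → List (Let n)) (c : V × Fin m →₀ ℤ) (e : V × Fin n)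
    (h : ∀ s, c s ≠ 0 → chn σ s.1 (rel s.2) e = 0) : bd2 σ rel c e = 0 := by
  unfold bd2
  rw [Finsupp.linearCombination_apply, Finsupp.sum, Finsupp.finset_sum_apply]
  refine Finset.sum_eq_zero fun s hs => ?_
  rw [Finsupp.smul_apply, h s (by simpa using hs), smul_zero]

end

theorem nrm_mono {α : Type} (c d : α →₀ ℤ) (h : ∀ a, (c a).natAbs ≤ (d a).natAbs) :
    nrm c ≤ nrm d := by
  classical
  rw [nrm_eq_of_subset c (c.support ∪ d.support) Finset.subset_union_left,
    nrm_eq_of_subset d (c.support ∪ d.support) Finset.subset_union_right]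
  exact Finset.sum_le_sum fun a _ => h a

end SLCM

open SLCM in
theorem specSLC : SpecSLC := by
  classical
  intro V n m σ rel ρ f hρ hf c γ γ' a b hc hγ hγ' t hat htb
  -- the levels of the edges of the cells
  have hcell : ∀ (s : V × Fin m) (e : V × Fin n), chn σ s.1 (rel s.2) e ≠ 0 →
      f e.1 ≤ f s.1 + ρ ∧ f s.1 ≤ f e.1 + ρ := by
    intro s e h
    have h1 := chn_level σ f hf s.1 (rel s.2) e h
    have h2 := hρ s.2
    omega
  set c' : V × Fin m →₀ ℤ := c.filter fun s => f s.1 < t with hc'
  have hsplit : c = c' + c.filter fun s => ¬ f s.1 < t := by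
    rw [hc', Finsupp.filter_add_filter_not]
  have key : ∀ e, (γ - bd2 σ rel c') e ≠ 0 → t ≤ f e.1 + ρ ∧ f e.1 ≤ t + ρ := by
    intro e he
    by_contra hcon
    rcases Nat.lt_or_ge (t + ρ) (f e.1) with h | h
    · apply he
      have h1 : γ e = 0 := by
        by_contra h0
        have := hγ e h0
        omega
      have h2 : bd2 σ rel c' e = 0 := by
        refine bd2_zero σ rel c' e fun s hs => ?_
        by_contra h0
        have h3 := hcell s e h0
        have h4 : f s.1 < t := by
          by_contra h5
          exact hs (by rw [hc', Finsupp.filter_apply, if_neg h5])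
        omega
      rw [Finsupp.sub_apply, h1, h2, sub_zero]
    · have h' : f e.1 + ρ < t := by
        by_contra h1
        exact hcon ⟨by omega, h⟩
      apply he
      have h1 : γ' e = 0 := by
        by_contra h0
        have := hγ' e h0
        omega
      have h2 : bd2 σ rel (c.filter fun s => ¬ f s.1 < t) e = 0 := by
        refine bd2_zero σ rel _ e fun s hs => ?_
        by_contra h0
        have h3 := hcell s e h0
        have h4 : ¬ f s.1 < t := by
          by_contra h5
          exact hs (by rw [Finsupp.filter_apply, if_neg (not_not.2 h5)])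
        omega
      have h3 : bd2 σ rel c e = bd2 σ rel c' e := by
        conv_lhs => rw [hsplit]
        rw [map_add, Finsupp.add_apply, h2, add_zero]
      rw [Finsupp.sub_apply, ← h3, hc, Finsupp.sub_apply, h1, sub_zero, sub_self]
  refine ⟨c', key, ?_⟩
  set P : V × Fin m → Prop := fun s => t ≤ f s.1 + 2 * ρ ∧ f s.1 ≤ t + 2 * ρ with hP
  set c'' : V × Fin m →₀ ℤ := (c.filter P).filter fun s => f s.1 < t with hc''
  have h1 : nrm (γ - bd2 σ rel c') ≤ nrm (bd2 σ rel c'') := by
    refine nrm_mono _ _ fun e => ?_
    by_cases he : (γ - bd2 σ rel c') e = 0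
    · rw [he]
      simp
    · obtain ⟨h2, h3⟩ := key e he
      have h4 : γ e = 0 := by
        by_contra h0
        have := hγ e h0
        omega
      have h5 : bd2 σ rel c' e = bd2 σ rel c'' e := by
        have h6 : c' = c'' + c'.filter fun s => ¬ P s := by
          have h7 : c'' = c'.filter P := by
            ext s
            rw [hc'', hc']
            simp only [Finsupp.filter_apply]
            split_ifs <;> rfl
          rw [h7, Finsupp.filter_add_filter_not]
        have h8 : bd2 σ rel (c'.filter fun s => ¬ P s) e = 0 := by
          refine bd2_zero σ rel _ e fun s hs => ?_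
          by_contra h0
          have h9 := hcell s e h0
          have h10 : ¬ P s := by
            by_contra h11
            exact hs (by rw [Finsupp.filter_apply, if_neg (not_not.2 h11)])
          apply h10
          rw [hP]
          constructor <;> omega
        conv_lhs => rw [h6]
        rw [map_add, Finsupp.add_apply, h8, add_zero]
      rw [Finsupp.sub_apply, h4, h5, zero_sub, Int.natAbs_neg]
  have h2 : nrm (bd2 σ rel c'') ≤ ρ * nrm c'' := by
    unfold bd2
    refine nrm_linearCombination_le _ ρ c'' fun s _ => ?_
    exact (nrm_chn_le σ s.1 (rel s.2)).trans (hρ s.2)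
  have h3 : nrm c'' ≤ nrm (c.filter P) := nrm_filter_le _ _
  exact h1.trans (h2.trans (Nat.mul_le_mul_left ρ h3))

end Pool.Agent.Lib.MP59b239.CJ
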