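import Pool.Agent.Lib.MP_59b239_al.CJ.Basic

/-!
# The conjugacy problem for two-dimensional automatic groups: specification of the modules

THEOREM CJ. Let `G` be automatic over `gen`, with an aspherical finite presentation `⟨gen | rel⟩`,
and let `G₀` be a subgroup of finite index. There is a `K` such that, if `g = ev p` has the property
`RootProp G₀ g` and `h = ev q` is conjugate to `g`, then `h = (ev v)⁻¹ g (ev v)` with
`|v| ≤ K ^ (|p| + |q| + 1)`. If all `g` have the property, the conjugacy problem is computable.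

IDEA. Let `X` be the universal covering of the presentation complex and `g ≠ 1`; then `g` has
infinite order (TOR), and a `2`-chain `c` of `⟨g⟩\X` is determined by its boundary (INJ,
`H_2(⟨g⟩\X) = H_2(ℤ) = 0`, as `X` is contractible of dimension two). If `h = v⁻¹ g v`, `|v| = m` minimal,
then the chain `c` with the boundary `γ_g - γ_h` (the two loops of `⟨g⟩\X` given by `g` at `1` and `h`
at `v`) has norm `≤ Area(g^N v h^{-N} v⁻¹) / N`, because `N c` is the projection of a filling of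
`g^N v h^{-N} v⁻¹`; with the quadratic isoperimetric inequality of automatic groups (ISO) and
`N ~ m / ℓ`, `ℓ = |g| + |h|`, this is `O(ℓ m)` (ANN). Let `f(x)` be the distance of `x` to the
centralizer of `g`, a function on `⟨g⟩\G` (LVL). The slices `z_t = γ_g - ∂(c restricted to f < t)` are
integral cycles near the level `t` and have norm `O(ℓ)` for most `t` (SLC, BAD), and winding number `1`
(WND). Hence a closed walk from some `y` to `g^k y`, near the level `t`, of length `O(ℓ)`, with `k` not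
divisible by `p`, occurs in `z_t` (FLW, LOP). If the words of the walks at two levels and the cosets
`G₀ y` agree, then `y' y⁻¹ ∈ G₀` conjugates `g^k` to `g^k'`, so commutes with `g`, and
`f(y') = f(y)`: contradiction. So there are at most `exp(O(ℓ))` levels (PIG, COR, NUM).

FORM OF A MODULE: file `CJ/XXX.lean`, imports this file, namespace `Pool.Agent.Lib.MP59b239.CJ`,
`theorem specXXX (hYYY : SpecYYY) ... : SpecXXX`; auxiliary lemmas in the namespace `XXXM`.
-/

namespace Pool.Agent.Lib.MP59b239.CJ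

open Finsupp

/-! ### Part 1: flows and exactness -/

/-- **FLW**: an integral `1`-cycle is a sum of closed walks without cancellation.

Proof. Call a walk `(v, w)` subordinate to `z` if `nrm (z - chn σ v w) + |w| = nrm z`. As
`|z e| ≤ |(z - chn) e| + |chn e|` and `∑ |chn e| ≤ |w|`, subordinate implies that for every edge
`|z e| = |(z - chn) e| + |chn e|` and `∑ |chn e| = |w|` (nothing cancels in `chn σ v w`); so
`supp (z - chn) ⊆ supp z`, and the edge of the first letter has `chn ≠ 0`, hence `z ≠ 0`. If `z ≠ 0`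
there is a subordinate walk of length `1` (`z (v, i) > 0`: letter `inl i` at `v`; `z (v, i) < 0`:
letter `inr i` at `σ i v`). Take a subordinate walk of maximal length from `v` to `v'`
(lengths are `≤ nrm z`). If `v' ≠ v` then
`bd1 (z - chn σ v w) = single v 1 - single v' 1` has the value `-1` at `v'`; as
`(bd1 d) v' = ∑ i, (d ((σ i).symm v', i) - d (v', i))`, there is an `i` with `d (v', i) > 0` or
`d ((σ i).symm v', i) < 0`, `d = z - chn σ v w`, and the walk can be extended by `inl i` or `inr i`: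
contradiction. So the walk is closed, `z - chn` is a cycle of smaller norm; induction. -/
def SpecFLW : Prop :=
  ∀ (V : Type) (n : ℕ) (σ : Fin n → Equiv.Perm V) (z : V × Fin n →₀ ℤ), bd1 σ z = 0 →
    ∃ l : List (V × List (Let n)),
      (∀ c ∈ l, wlk σ c.1 c.2 = c.1 ∧ c.2 ≠ [] ∧
        ∃ i, z (c.1, i) ≠ 0 ∨ z ((σ i).symm c.1, i) ≠ 0) ∧
      z = (l.map fun c => chn σ c.1 c.2).sum ∧ (l.map fun c => c.2.length).sum = nrm z

/-- **REL**: the chain of a closed walk of the Cayley graph is a boundary.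

Proof. (a) `ev gen (rel j) = FreeGroup.lift gen (ev FreeGroup.of (rel j)) = 1`. (b) The chain
`chn (rsh gen) x w` only depends on `ev FreeGroup.of w` (and `x`): let the free group act: the
permutation `A i` of `G × (G × Fin n →₀ ℤ)`, `(x, c) ↦ (x * gen i, c + single (x, i) 1)`, and
`Φ = FreeGroup.lift (fun i => MulOpposite.op (A i))` to the opposite group of
`Equiv.Perm (G × (G × Fin n →₀ ℤ))`; then `(Φ (ev of w)).unop (x, c) = (x * ev w, c + chn x w)`.
(Or define, for `u : FreeGroup (Fin n)`, the chain `P x u := chn x (word of u)` and so on.)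
(c) The set of the `u` in the free group with `lift gen u = 1` such that for all words `w` with
`ev of w = u` and all `x` the chain `chn x w` is in the range of `bd2` is a subgroup (concatenation:
`chn_append`, `wlk_rsh`; inverse: `chn_inv`) which contains the conjugates of the relators
(`chn x (s ++ r ++ inv s) = chn x s + chn (x ev s) r - chn x s`), so it contains the normal closure
(`Subgroup.normalClosure_le_normal` or `Subgroup.closure_induction` over
`Group.conjugatesOfSet`). -/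
def SpecREL : Prop :=
  ∀ (G : Type) [Group G] (n m : ℕ) (gen : Fin n → G) (rel : Fin m → List (Let n)),
    Presents gen rel → (∀ j, ev gen (rel j) = 1) ∧
      ∀ (x : G) (w : List (Let n)), ev gen w = 1 →
        ∃ c : G × Fin m →₀ ℤ, bd2 (rsh gen) rel c = chn (rsh gen) x w

/-- **CYC** (from FLW, REL): the `1`-cycles of the Cayley graph are boundaries, `H_1 = 0`.

Proof. FLW for `V = G`: the walks `(x, w)` are closed, `x * ev w = x`, so `ev w = 1`; REL. -/
def SpecCYC : Prop :=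
  ∀ (G : Type) [Group G] (n m : ℕ) (gen : Fin n → G) (rel : Fin m → List (Let n)),
    Presents gen rel → ∀ e : G × Fin n →₀ ℤ, bd1 (rsh gen) e = 0 →
      ∃ c : G × Fin m →₀ ℤ, bd2 (rsh gen) rel c = e

/-- **FRE**: a free action of a finite cyclic group has no cohomology on finitely supported
functions.

Proof. The orbits of `τ` have exactly `N` elements `x, τ x, …, τ^(N-1) x`. Choose a set `R` of
representatives. (1) If `mapDomain τ c = c`, `c` is constant on the orbits; `d = c` restricted to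
`R`. (2) If the norm of `c` is zero, the sum of `c` over every orbit is zero;
`single (τ^i x) 1 - single x 1 = mapDomain τ d' - d'` with `d' = ∑ j < i, single (τ^j x) 1`, and
`c = ∑ y, c y • (single y 1 - single (r y) 1)`, `r y` the representative, as
`∑ y, c y • single (r y) 1 = 0`. -/
def SpecFRE : Prop :=
  ∀ (X : Type) (τ : Equiv.Perm X) (N : ℕ), 0 < N → τ ^ N = 1 →
    (∀ x, ∀ i, 0 < i → i < N → (τ ^ i) x ≠ x) → ∀ c : X →₀ ℤ,
      (mapDomain τ c = c → ∃ d : X →₀ ℤ, c = ∑ i ∈ Finset.range N, mapDomain (τ ^ i) d) ∧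
      ((∑ i ∈ Finset.range N, mapDomain (τ ^ i) c) = 0 → ∃ d : X →₀ ℤ, c = mapDomain τ d - d)

/-- **TOR** (from CYC, FRE): an aspherical finite presentation presents a torsion free group.

Proof. Suppose `g` has the order `N ≥ 2` (minimal); `ν = ∑ i < N, g^i` acts on chains by left
translations (`ltr_chn`, `ltr_bd2`, `ltr_bd1`; the left action of `⟨g⟩` on `G`, `G × Fin r` is free).
`δ = single 1 1`. Choose a word `w` with `ev w = g` (closure `= ⊤`), `e₁ = chn 1 w`,
`bd1 e₁ = g δ - δ`. `bd1 (ν e₁) = 0`, so `ν e₁ = bd2 c₂` (CYC). `bd2 (g c₂ - c₂) = 0`, so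
`g c₂ = c₂` (`bd2_injective_of_aspherical`), `c₂ = ν c'` (FRE (1)). `ν (e₁ - bd2 c') = 0`, so
`e₁ - bd2 c' = g e' - e'` (FRE (2)). Apply `bd1` (`bd1 ∘ bd2 = 0`, as `ev (rel j) = 1`):
`g δ - δ = g bd1 e' - bd1 e'`, so `δ - bd1 e'` is `g`-invariant, `= ν a` (FRE (1)). The sum of all
coefficients: `1 = N * (…)`, contradiction. (FRE for `X = G`, `G × Fin n`, `G × Fin m`.) -/
def SpecTOR : Prop :=
  ∀ (G : Type) [Group G] (n m : ℕ) (gen : Fin n → G) (rel : Fin m → List (Let n)),
    Presents gen rel → Aspherical gen rel → ∀ g : G, g ≠ 1 → ∀ N : ℕ, 0 < N → g ^ N ≠ 1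

/-- **ZFR**: the same for `ℤ`.

Proof. (1) Choose a section `s` of `π` on the image (`π (s (π x)) = π x`), so `x = τ^k (s (π x))`.
`single x 1 - single (s (π x)) 1` is `mapDomain τ d' - d'` (`k ≥ 0`: `d' = ∑ j < k, single
(τ^j (s (π x))) 1`; similarly for `k < 0`), and
`∑ x, c x • single (s (π x)) 1 = mapDomain s (mapDomain π c) = 0`. (2) If `c x ≠ 0` then
`c (τ^k x) = c x ≠ 0` for all `k`, infinitely many points. -/
def SpecZFR : Prop :=
  ∀ (X Y : Type) (τ : Equiv.Perm X) (π : X → Y), (∀ x, ∀ k : ℤ, (τ ^ k) x = x → k = 0) →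
    (∀ x y, π x = π y ↔ ∃ k : ℤ, y = (τ ^ k) x) → ∀ c : X →₀ ℤ,
      (mapDomain π c = 0 → ∃ d : X →₀ ℤ, c = mapDomain τ d - d) ∧ (mapDomain τ c = c → c = 0)

/-- **INJ** (from CYC, ZFR): `2`-chains of the quotient `⟨g⟩\X` are determined by their boundary.

Proof. Lift `c` to `c₁ : G × Fin m →₀ ℤ`, `mp D.π m c₁ = c` (`D.surj`). `e = bd2 c₁` has
`mp D.π n e = 0` (`QD.mp_bd2`), so `e = g e' - e'` (ZFR (1) for `X = G × Fin n`, `τ` the left
translation by `g`, `π = Prod.map D.π id`). `0 = bd1 e = g bd1 e' - bd1 e'` (`bd1 (bd2 c₁) = 0` as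
`ev (rel j) = 1`, `ltr_bd1`), so `bd1 e' = 0` (ZFR (2)), `e' = bd2 d` (CYC),
`bd2 (c₁ - (g d - d)) = 0`, `c₁ = g d - d` (`bd2_injective_of_aspherical`), and
`c = mp D.π m (g d - d) = 0`, as `D.π (g x) = D.π x`. (`ev (rel j) = 1`: REL or directly.) -/
def SpecINJ : Prop :=
  ∀ (G : Type) [Group G] (n m : ℕ) (gen : Fin n → G) (rel : Fin m → List (Let n)),
    Presents gen rel → Aspherical gen rel → ∀ g : G, (∀ k : ℤ, g ^ k = 1 → k = 0) →
      ∀ (D : QD gen g) (c : D.Q × Fin m →₀ ℤ), bd2 D.σ rel c = 0 → c = 0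

/-- **QUO**: the quotient of the Cayley graph exists.

Proof. `Q = Quotient` of the setoid `x ~ y ↔ ∃ k : ℤ, y = g ^ k * x` (or
`MulAction.orbitRel (Subgroup.zpowers g) G`), `σ i` induced by `x ↦ x * gen i`. -/
def SpecQUO : Prop :=
  ∀ (G : Type) [Group G] (n : ℕ) (gen : Fin n → G) (g : G), Nonempty (QD gen g)

/-! ### Part 2: the quadratic isoperimetric inequality of automatic groups -/

/-- The fellow traveller property. -/
def FT {G : Type} [Group G] {n : ℕ} (gen : Fin n → G) (L : Language (Let n)) (k : ℕ) : Prop :=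
  ∀ u ∈ L, ∀ v ∈ L, ∀ a : Option (Let n), ev gen v = ev gen u * ev gen a.toList →
    ∀ t : ℕ, ∃ w : List (Let n), w.length ≤ k ∧ ev gen (u.take t) * ev gen w = ev gen (v.take t)

/-- **LEN**: the words of the language can be chosen of controlled length.

Proof. Let `B` be the (finite) set of the elements `ev w`, `|w| ≤ k`, and `K = |σ| * |B| + 1`. Take
`v ∈ L` of minimal length with `ev v = ev u * ev [a]`. Suppose `|v| > |u| + K`. For
`|u| ≤ t ≤ |v|` there is a `w_t`, `|w_t| ≤ k`, `ev u * ev w_t = ev (v.take t)`. By the pigeonhole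
principle there are `|u| ≤ t < t' ≤ |v|` with the same state `M.eval (v.take t) = M.eval (v.take t')`
and the same `ev w_t = ev w_t'`; so `ev (v.take t) = ev (v.take t')`, and `v.take t ++ v.drop t'` is
in `L` (`M.evalFrom`), represents the same element and is shorter. -/
def SpecLEN : Prop :=
  ∀ (G : Type) [Group G] (n : ℕ) (gen : Fin n → G) (L : Language (Let n)) (σ : Type) [Fintype σ]
    (M : DFA (Let n) σ), M.accepts = L → (∀ g : G, ∃ w ∈ L, ev gen w = g) → ∀ k, FT gen L k →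
      ∃ K : ℕ, ∀ u ∈ L, ∀ a : Let n, ∃ v ∈ L, ev gen v = ev gen u * ev gen [a] ∧
        v.length ≤ u.length + K

/-- **STR**: filling a strip.

Proof. Choose `d t`, `|d t| ≤ k`, `ev (u.take t) * ev (d t) = ev (v.take t)`. Let `x_t` be the word
with `u.take (t+1) = u.take t ++ x_t`, `|x_t| ≤ 1`, and `y_t` the same for `v`. The word
`s_t = d t ++ y_t ++ inv (d (t+1)) ++ inv x_t` has length `≤ 2 k + 2` and represents `1`;
`chn (ev (u.take t)) s_t = [chn (ev (u.take t)) (d t) - chn (ev (u.take (t+1))) (d (t+1))] +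
[chn 1 (v.take (t+1)) - chn 1 (v.take t)] - [chn 1 (u.take (t+1)) - chn 1 (u.take t)]`. The sum over
`t < T` is `chn 1 (d 0) - chn (ev u) (d T) + chn 1 v - chn 1 u`; `d 0` is closed, and
`d T ++ inv a.toList` is closed: two more fillings. -/
def SpecSTR : Prop :=
  ∀ (G : Type) [Group G] (n m : ℕ) (gen : Fin n → G) (rel : Fin m → List (Let n)) (k C₀ : ℕ),
    (∀ w : List (Let n), w.length ≤ 2 * k + 2 → ev gen w = 1 → ∀ x : G,
      ∃ c : G × Fin m →₀ ℤ, bd2 (rsh gen) rel c = chn (rsh gen) x w ∧ nrm c ≤ C₀) →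
    ∀ (u v : List (Let n)) (a : Option (Let n)) (T : ℕ), u.length ≤ T → v.length ≤ T →
      ev gen v = ev gen u * ev gen a.toList →
      (∀ t : ℕ, ∃ w : List (Let n), w.length ≤ k ∧
        ev gen (u.take t) * ev gen w = ev gen (v.take t)) →
      ∃ c : G × Fin m →₀ ℤ, nrm c ≤ (T + 2) * C₀ ∧
        bd2 (rsh gen) rel c =
          chn (rsh gen) 1 u + chn (rsh gen) (ev gen u) a.toList - chn (rsh gen) 1 v

/-- **BDW** (from REL): bounded fillings of short words.

Proof. There are finitely many words of length `≤ R`; choose a filling `c_w` of `chn 1 w` for each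
closed one, `C₀` the maximum (or sum) of the norms; for `x` translate by `x` (`ltr_bd2`, `ltr_chn`,
`nrm_mp_le`). -/
def SpecBDW : Prop :=
  ∀ (G : Type) [Group G] (n m : ℕ) (gen : Fin n → G) (rel : Fin m → List (Let n)),
    Presents gen rel → ∀ R : ℕ, ∃ C₀ : ℕ, ∀ w : List (Let n), w.length ≤ R → ev gen w = 1 →
      ∀ x : G, ∃ c : G × Fin m →₀ ℤ, bd2 (rsh gen) rel c = chn (rsh gen) x w ∧ nrm c ≤ C₀

/-- **ISO** (from LEN, STR, BDW): the (homological) quadratic isoperimetric inequality.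

Proof. `u₀ ∈ L` with `ev u₀ = 1`, and `u_{i+1} ∈ L` from LEN for the `i`-th letter `a_i` of `w`, so
`|u_i| ≤ |u₀| + K i` and `ev u_i = ev (w.take i)`. STR for `(u_i, u_{i+1}, some a_i)` gives fillings
of `chn 1 u_i + chn (ev (w.take i)) [a_i] - chn 1 u_{i+1}`, their sum (`i < |w|`) is
`chn 1 u₀ + chn 1 w - chn 1 u_{|w|}`. As `ev u_{|w|} = 1 = ev u₀`, STR for `(u_{|w|}, u₀, none)` gives
a filling of `chn 1 u_{|w|} - chn 1 u₀`. All have norm `≤ (|u₀| + K |w| + 2) C₀`. (Induct on `w`: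
statement for `chn x w` with `u ∈ L`, `ev u = x`.) -/
def SpecISO : Prop :=
  ∀ (G : Type) [Group G] (n m : ℕ) (gen : Fin n → G) (rel : Fin m → List (Let n)),
    Presents gen rel → Automatic gen → ∃ C : ℕ, ∀ w : List (Let n), ev gen w = 1 →
      ∃ c : G × Fin m →₀ ℤ, bd2 (rsh gen) rel c = chn (rsh gen) 1 w ∧
        nrm c ≤ C * (w.length + 1) ^ 2

/-! ### Part 3: the annulus and its slices -/

/-- **ANN**: the annulus between two conjugate loops.

Proof. For `N ≥ 1` let `W_N = p^N v (inv q)^N (inv v)` (`p^N = (List.replicate N p).flatten`),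
`ev W_N = g^N (ev v) (ev q)^{-N} (ev v)⁻¹ = 1`, `|W_N| = N |p| + N |q| + 2 |v|`, and `c_N` a filling.
In the quotient, `wlk D.σ (D.π 1) p = D.π g = D.π 1`, `wlk D.σ (D.π (ev v)) q = D.π (ev v * ev q)
= D.π (g * ev v) = D.π (ev v)` (`QD.wlk`, `D.rel`), so (`chn_append`, `chn_inv`, `QD.mp_chn`)
`mp D.π n (chn 1 W_N) = N (chn (D.π 1) p) + chn (D.π 1) v - N (chn (D.π (ev v)) q) - chn (D.π 1) v`.
So `bd2 (mp D.π m c_N) = N (γ_p - γ_q)`; `c = mp D.π m c_1`, and `N c = mp D.π m c_N` by injectivity,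
`N * nrm c = nrm (N • c) ≤ nrm c_N` (`nrm_smul`, `nrm_mp_le`). -/
def SpecANN : Prop :=
  ∀ (G : Type) [Group G] (n m : ℕ) (gen : Fin n → G) (rel : Fin m → List (Let n)) (g : G)
    (D : QD gen g), (∀ c : D.Q × Fin m →₀ ℤ, bd2 D.σ rel c = 0 → c = 0) → ∀ C : ℕ,
    (∀ w : List (Let n), ev gen w = 1 → ∃ c : G × Fin m →₀ ℤ,
      bd2 (rsh gen) rel c = chn (rsh gen) 1 w ∧ nrm c ≤ C * (w.length + 1) ^ 2) →
    ∀ p q v : List (Let n), ev gen p = g → g * ev gen v = ev gen v * ev gen q →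
      ∃ c : D.Q × Fin m →₀ ℤ,
        bd2 D.σ rel c = chn D.σ (D.π 1) p - chn D.σ (D.π (ev gen v)) q ∧
        ∀ N : ℕ, 0 < N →
          N * nrm c ≤ C * (N * p.length + N * q.length + 2 * v.length + 1) ^ 2

/-- **LVL**: the distance to the centralizer of `g`.

Proof. `f x` is the least length of a word `w` with `x = z * ev w` for some `z` commuting with `g`
(exists as the generators generate). -/
def SpecLVL : Prop :=
  ∀ (G : Type) [Group G] (n : ℕ) (gen : Fin n → G), Subgroup.closure (Set.range gen) = ⊤ →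
    ∀ g : G, ∃ f : G → ℕ,
      (∀ z x, z * g = g * z → f (z * x) = f x) ∧
      (∀ x i, f (x * gen i) ≤ f x + 1 ∧ f x ≤ f (x * gen i) + 1) ∧
      f 1 = 0 ∧ ∀ x, ∃ (z : G) (w : List (Let n)), z * g = g * z ∧ x = z * ev gen w ∧
        w.length = f x

/-- **SLC**: slices of a `2`-chain.

Proof. `c' = c.filter (fun s => f s.1 < t)`. The edges of `chn σ v (rel j)` have
`|f e.1 - f v| ≤ ρ`. If `f e.1 > t + ρ`, no cell of `c'` contains `e` and `γ e = 0` (as
`t + ρ > a`). If `f e.1 + ρ < t`, all cells of `c` which contain `e` are in `c'`, so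
`(bd2 c') e = (bd2 c) e = γ e - γ' e` and `γ' e = 0` (`f e.1 < b`). If `t ≤ f e.1 + ρ` and
`f e.1 ≤ t + ρ` then `γ e = 0` (as `f e.1 > a`), and the cells of `c'` which contain `e` have
`|f s.1 - t| ≤ 2 ρ`. So with `c'' = (c.filter …).filter (fun s => f s.1 < t)`, the chain
`γ - bd2 c'` is `-(bd2 c'')` restricted to the edges with `|f e.1 - t| ≤ ρ`, and
`nrm (bd2 c'') ≤ ρ * nrm c''` (`nrm_linearCombination_le`, `nrm_chn_le`), `nrm_filter_le`. -/
def SpecSLC : Prop :=
  ∀ (V : Type) (n m : ℕ) (σ : Fin n → Equiv.Perm V) (rel : Fin m → List (Let n)) (ρ : ℕ)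
    (f : V → ℕ), (∀ j, (rel j).length ≤ ρ) →
    (∀ v i, f (σ i v) ≤ f v + 1 ∧ f v ≤ f (σ i v) + 1) →
    ∀ (c : V × Fin m →₀ ℤ) (γ γ' : V × Fin n →₀ ℤ) (a b : ℕ),
      bd2 σ rel c = γ - γ' → (∀ e, γ e ≠ 0 → f e.1 ≤ a) → (∀ e, γ' e ≠ 0 → b ≤ f e.1) →
      ∀ t, a + ρ < t → t + ρ < b →
        ∃ c' : V × Fin m →₀ ℤ,
          (∀ e, (γ - bd2 σ rel c') e ≠ 0 → t ≤ f e.1 + ρ ∧ f e.1 ≤ t + ρ) ∧
          nrm (γ - bd2 σ rel c') ≤
            ρ * nrm (c.filter fun s => t ≤ f s.1 + 2 * ρ ∧ f s.1 ≤ t + 2 * ρ)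

/-- **BAD**: the slabs of different levels are disjoint.

Proof. `nrm (c.filter P) = ∑ s ∈ c.support, if P s then |c s| else 0`; for every `s` at most one
`i` has `a + (4 ρ + 4) i ≤ f s + 2 ρ` and `f s ≤ a + (4 ρ + 4) i + 2 ρ`. -/
def SpecBAD : Prop :=
  ∀ (X : Type) (f : X → ℕ) (c : X →₀ ℤ) (ρ a I : ℕ),
    ∑ i ∈ Finset.range I, nrm (c.filter fun s =>
      a + (4 * ρ + 4) * i ≤ f s + 2 * ρ ∧ f s ≤ a + (4 * ρ + 4) * i + 2 * ρ) ≤ nrm c

/-- **WND**: winding numbers in the quotient.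

Proof. Choose a function `h : G → ℤ` with `h (g ^ k * x) = h x + k` (choose a section `s` of `D.π`;
`x = g ^ (h x) * s (D.π x)`, unique as `g` has infinite order). The function
`φ x i = h (x * gen i) - h x` only depends on `D.π x` and `i` (left invariance); `ω` is the linear
map with `ω (single (D.π x, i) 1) = φ x i` (`Finsupp.linearCombination`). By induction on `w`
`ω (chn D.σ (D.π x) w) = h (x * ev w) - h x`. -/
def SpecWND : Prop :=
  ∀ (G : Type) [Group G] (n : ℕ) (gen : Fin n → G) (g : G) (D : QD gen g),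
    (∀ k : ℤ, g ^ k = 1 → k = 0) →
    ∃ ω : (D.Q × Fin n →₀ ℤ) →ₗ[ℤ] ℤ, ∀ (x : G) (w : List (Let n)) (k : ℤ),
      x * ev gen w = g ^ k * x → ω (chn D.σ (D.π x) w) = k

/-- **LOP** (from FLW): a short closed walk with winding number not divisible by `p`.

Proof. FLW gives closed walks `(v, w)` with `z = ∑ chn v w`, `∑ |w| = nrm z`. As
`1 = ω z = ∑ ω (chn v w)`, some `ω (chn v w)` is not divisible by `p`. `v = D.π y` (`D.surj`),
`wlk (D.π y) w = D.π (y * ev w) = D.π y`, so `y * ev w = g ^ k * y` for some `k` (`D.rel`), and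
`ω (chn v w) = k`. -/
def SpecLOP : Prop :=
  ∀ (G : Type) [Group G] (n : ℕ) (gen : Fin n → G) (g : G) (D : QD gen g)
    (ω : (D.Q × Fin n →₀ ℤ) →ₗ[ℤ] ℤ), (∀ (x : G) (w : List (Let n)) (k : ℤ),
      x * ev gen w = g ^ k * x → ω (chn D.σ (D.π x) w) = k) → ∀ p : ℕ, p.Prime →
    ∀ z : D.Q × Fin n →₀ ℤ, bd1 D.σ z = 0 → ω z = 1 →
      ∃ (y : G) (w : List (Let n)) (k : ℤ), w.length ≤ nrm z ∧ ¬ (p : ℤ) ∣ k ∧
        y * ev gen w = g ^ k * y ∧ ∃ i, z (D.π y, i) ≠ 0 ∨ z ((D.σ i).symm (D.π y), i) ≠ 0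

/-- **PIG**: the pigeonhole principle.

Proof. The map `i ↦ (w i, (y i)⁻¹ G₀)` from `S` to (words of length `≤ L`) `× (G ⧸ G₀)` is
injective: if `w i = w j` and `(y i)⁻¹ G₀ = (y j)⁻¹ G₀` then `y' = y j * (y i)⁻¹ ∈ G₀`, and
`y' g^(k i) y'⁻¹ = y j (ev (w i)) (y j)⁻¹ = g^(k j)`, so `y'` commutes with `g`,
`f (y j) = f (y' * y i) = f (y i)`, `i = j`. There are at most `(2 n + 1) ^ L` words of length
`≤ L` (inject into `Fin L → Option (Let n)`), and `Nat.card (G ⧸ G₀) = G₀.index`. -/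
def SpecPIG : Prop :=
  ∀ (G : Type) [Group G] (n : ℕ) (gen : Fin n → G) (G₀ : Subgroup G) [G₀.FiniteIndex] (g : G)
    (p : ℕ), (∀ y ∈ G₀, ∀ k k' : ℤ, ¬ (p : ℤ) ∣ k → ¬ (p : ℤ) ∣ k' →
      y * g ^ k * y⁻¹ = g ^ k' → y * g = g * y) →
    ∀ f : G → ℕ, (∀ z x, z * g = g * z → f (z * x) = f x) →
    ∀ (L : ℕ) (S : Finset ℕ) (y : ℕ → G) (w : ℕ → List (Let n)) (k : ℕ → ℤ),
      (∀ i ∈ S, (w i).length ≤ L ∧ ¬ (p : ℤ) ∣ k i ∧ y i * ev gen (w i) = g ^ k i * y i) →
      (∀ i ∈ S, ∀ j ∈ S, f (y i) = f (y j) → i = j) →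
      S.card ≤ G₀.index * (2 * n + 1) ^ L

/-- **COR** (from SLC, BAD, WND, LOP, PIG): the number of levels.

Proof. `f` is constant on the fibres of `D.π` (`g` commutes with `g`), so `f = F ∘ D.π` with
`F : D.Q → ℕ`; the edges of `γ = chn (D.π 1) u` have `F e.1 ≤ |u|`, those of
`γ' = chn (D.π (ev v)) w` have `F e.1 ≥ f (ev v) - |w|`. For `i < I` let
`t_i = |u| + ρ + 1 + (4 ρ + 4) i`, so `t_i + ρ < f (ev v) - |w|`. SLC gives `c'_i` and
`z_i = γ - bd2 c'_i` near the level `t_i`, `nrm z_i ≤ ρ * nrm (slab_i)`; `bd1 z_i = 0`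
(`bd1_chn`, both loops are closed, `ev (rel j) = 1`), `ω z_i = 1` (`ω γ = 1`: `1 * ev u = g^1 * 1`;
`ω (chn v (rel j)) = 0`). For the `i` with `ρ * nrm (slab_i) ≤ L` LOP gives `y_i, w_i, k_i`,
`|w_i| ≤ L`, with `|f (y_i) - t_i| ≤ ρ + 1`, so the `f (y_i)` are different, and PIG bounds their
number by `index * (2 n + 1) ^ L`. The other `i` have `ρ * nrm (slab_i) ≥ L + 1`, so by BAD their
number times `L + 1` is `≤ ρ * nrm c`. -/
def SpecCOR : Prop :=
  ∀ (G : Type) [Group G] (n m : ℕ) (gen : Fin n → G) (rel : Fin m → List (Let n)) (ρ : ℕ)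
    (G₀ : Subgroup G) [G₀.FiniteIndex] (g : G) (p : ℕ),
    (∀ j, (rel j).length ≤ ρ) → (∀ j, ev gen (rel j) = 1) → p.Prime →
    (∀ y ∈ G₀, ∀ k k' : ℤ, ¬ (p : ℤ) ∣ k → ¬ (p : ℤ) ∣ k' →
      y * g ^ k * y⁻¹ = g ^ k' → y * g = g * y) →
    (∀ k : ℤ, g ^ k = 1 → k = 0) → ∀ (D : QD gen g) (f : G → ℕ),
    (∀ z x, z * g = g * z → f (z * x) = f x) →
    (∀ x i, f (x * gen i) ≤ f x + 1 ∧ f x ≤ f (x * gen i) + 1) → f 1 = 0 →
    ∀ u w v : List (Let n), ev gen u = g → g * ev gen v = ev gen v * ev gen w →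
    ∀ c : D.Q × Fin m →₀ ℤ,
      bd2 D.σ rel c = chn D.σ (D.π 1) u - chn D.σ (D.π (ev gen v)) w →
    ∀ L I : ℕ, u.length + w.length + 2 * ρ + 1 + (4 * ρ + 4) * I ≤ f (ev gen v) →
      (L + 1) * I ≤ (L + 1) * (G₀.index * (2 * n + 1) ^ L) + ρ * nrm c

/-- **NUM**: the numerical conclusion.

Proof. Let `M = m + 1`, `lam = l + 1`, `S = 4 ρ + 4`. If `M ≤ lam` then `m ≤ 2 ^ lam` is trivial.
Otherwise `N = M / lam + 1` has `M ≤ N lam ≤ 2 M`, so `N l + 2 m + 1 ≤ 4 M`, `N c ≤ 16 C M^2`,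
`M c ≤ N lam c ≤ 16 C lam M^2`, so `c ≤ 16 C lam M`. Take `L = 64 S ρ C lam` and
`I = (m - l - 2 ρ - 1) / S` (if `m ≥ l + 2 ρ + 1`): `(L + 1) I ≤ (L + 1) κ (2 n + 1)^L + ρ c` and
`4 S ρ c ≤ 64 S ρ C lam M ≤ (L + 1) M`, so `4 S I ≤ 4 S κ (2 n + 1)^L + M`; with
`m < l + 2 ρ + 1 + S + S I` this gives `m ≤ 2 (l + 2 ρ + 2 + S + S κ (2 n + 1)^L)`, at most
`K ^ lam` with `K = 4 (2 ρ + 4 + S + S κ) (2 n + 1)^(64 S ρ C)` (say). -/
def SpecNUM : Prop :=
  ∀ C ρ κ n : ℕ, ∃ K : ℕ, ∀ l m c : ℕ,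
    (∀ N : ℕ, 0 < N → N * c ≤ C * (N * l + 2 * m + 1) ^ 2) →
    (∀ L I : ℕ, l + 2 * ρ + 1 + (4 * ρ + 4) * I ≤ m →
      (L + 1) * I ≤ (L + 1) * (κ * (2 * n + 1) ^ L) + ρ * c) →
    m ≤ K ^ (l + 1)

/-- **CON** (from REL, TOR, INJ, QUO, ISO, ANN, LVL, COR, NUM): the conjugator length.

Proof. `ρ` the maximum of the lengths of the relators, `C` from ISO, `K` from NUM for
`C, ρ, G₀.index, n`. Let `g = ev p`, `ev q = x⁻¹ g x`. If `g = 1` then `ev q = 1` and `v = []`.
Otherwise `g` has infinite order (TOR). `f` from LVL, `x = z * ev v`, `z g = g z`,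
`|v| = f x = f (z⁻¹ x) = f (ev v)`, and `(ev v)⁻¹ g (ev v) = x⁻¹ z g z⁻¹ x = ev q`. `D` from QUO, `c`
from ANN (INJ), COR with `u = p`, `w = q`; NUM with `l = |p| + |q|`, `m = |v|`, `c = nrm c`. -/
def SpecCON : Prop :=
  ∀ (G : Type) [Group G] (n m : ℕ) (gen : Fin n → G) (rel : Fin m → List (Let n)),
    Presents gen rel → Automatic gen → Aspherical gen rel →
    ∀ (G₀ : Subgroup G) [G₀.FiniteIndex], ∃ K : ℕ, ∀ p q : List (Let n),
      RootProp G₀ (ev gen p) → IsConj (ev gen p) (ev gen q) →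
      ∃ v : List (Let n), v.length ≤ K ^ (p.length + q.length + 1) ∧
        (ev gen v)⁻¹ * ev gen p * ev gen v = ev gen q

/-! ### Part 4: computability -/

/-- **SRH**: search for a witness.

Proof. `Partrec.rfindOpt` applied to `(a, k) ↦` (`decode k = some b` and `P (a, b)`, then `some b`);
it is total by the hypothesis, so `F a` is the value. -/
def SpecSRH : Prop :=
  ∀ (α β : Type) [Primcodable α] [Primcodable β] (P : α × β → Bool), Computable P →
    (∀ a, ∃ b, P (a, b) = true) → ∃ F : α → β, Computable F ∧ ∀ a, P (a, F a) = true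

/-- **MEM**: membership in a regular language is primitive recursive.

Proof. `σ ≃ Fin s`; `M.eval w = w.foldl M.step M.start`, `Primrec.list_foldl`, functions on finite
types are primitive recursive (`Primrec.dom_fintype`). -/
def SpecMEM : Prop :=
  ∀ (n : ℕ) (L : Language (Let n)) (σ : Type) [Fintype σ] (M : DFA (Let n) σ), M.accepts = L →
    ∃ mem : List (Let n) → Bool, Primrec mem ∧ ∀ w, mem w = true ↔ w ∈ L

/-- **CHK**: the comparison automaton.

Proof. Let `B` be the finite set of the elements `ev w`, `|w| ≤ k`, with a bijection to `Fin b`, and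
for `d ∈ B`, `x y : Option (Let n)` let `step d (x, y) = (ev x.toList)⁻¹ * d * ev y.toList` if this is
in `B`, otherwise failure (`none`). Fold over the list of the pairs `(u[t]?, v[t]?)`,
`t < |u| + |v|` (`List.range`), starting with `1 ∈ B`. The result, if it is not `none`, is
`(ev u)⁻¹ * ev v`, and it is not `none` if `u, v ∈ L` and `ev v = ev u * ev a.toList` (FT). So
`chk (u, v, a)` is true iff the result is `some d` and `d = ev a.toList` (a function on the finite
type `Option (Fin b) × Option (Let n)`). -/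
def SpecCHK : Prop :=
  ∀ (G : Type) [Group G] (n : ℕ) (gen : Fin n → G) (L : Language (Let n)) (k : ℕ), FT gen L k →
    ∃ chk : List (Let n) × List (Let n) × Option (Let n) → Bool, Primrec chk ∧
      ∀ u ∈ L, ∀ v ∈ L, ∀ a : Option (Let n),
        chk (u, v, a) = true ↔ ev gen v = ev gen u * ev gen a.toList

/-- **WPC** (from SRH, MEM, CHK): the word problem of an automatic group is solvable.

Proof. Fix `u₀ ∈ L` with `ev u₀ = 1`. A run for `w = a_1 … a_N` is a list `s = [v_1, …, v_N]` of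
words; define by a fold over `w` the state `(u, s, ok)`, start `(u₀, s, true)`, step for the letter
`a`: `s = v :: s'` goes to `(v, s', ok && mem v && chk (u, v, some a))`, `s = []` to
`(u, [], false)`. The run is good if `ok` at the end; good runs exist for all `w`, and the final `u`
of a good run is in `L` with `ev u = ev w`. SRH gives a computable `F w` which is a good run, and
`ev w = 1` iff `chk (u₀, u, none)` for the final `u` of `F w`. -/
def SpecWPC : Prop :=
  ∀ (G : Type) [Group G] (n : ℕ) (gen : Fin n → G), Automatic gen →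
    ComputablePred fun w : List (Let n) => ev gen w = 1

/-- **WRD**: the list of all words of length `≤ N`.

Proof. `W 0 = [[]]`, `W (N+1) = W N ++ (W N).flatMap (fun w => letters.map (· :: w))`. -/
def SpecWRD : Prop :=
  ∀ n : ℕ, ∃ W : ℕ → List (List (Let n)), Computable W ∧ ∀ N w, w ∈ W N ↔ w.length ≤ N

/-- **ANY**: bounded search.

Proof. `decide (∃ b ∈ F a, P (a, b))` is
`Nat.rec false (fun i r => r || (match (F a)[i]? with | some b => decide (P (a, b)) | none => false))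
(F a).length`; `Computable.nat_rec`, `Computable.list_getElem?`, `Computable.option_casesOn`. -/
def SpecANY : Prop :=
  ∀ (α β : Type) [Primcodable α] [Primcodable β] (F : α → List β) (P : α × β → Prop),
    Computable F → ComputablePred P → ComputablePred fun a => ∃ b ∈ F a, P (a, b)

/-- **CPC** (from WRD, ANY): the conjugacy problem.

Proof. `IsConj (ev p) (ev q)` iff there is a `v ∈ W (K ^ (|p| + |q| + 1))` with
`ev (inv v ++ p ++ v ++ inv q) = 1`. -/
def SpecCPC : Prop :=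
  ∀ (G : Type) [Group G] (n : ℕ) (gen : Fin n → G),
    (ComputablePred fun w : List (Let n) => ev gen w = 1) → ∀ K : ℕ,
    (∀ p q : List (Let n), IsConj (ev gen p) (ev gen q) →
      ∃ v : List (Let n), v.length ≤ K ^ (p.length + q.length + 1) ∧
        (ev gen v)⁻¹ * ev gen p * ev gen v = ev gen q) →
    ComputablePred fun p : List (Let n) × List (Let n) => IsConj (ev gen p.1) (ev gen p.2)

/-- The theorem. -/
def SpecMAIN : Prop :=
  ∀ (G : Type) [Group G] (n m : ℕ) (gen : Fin n → G) (rel : Fin m → List (Let n)),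
    Presents gen rel → Automatic gen → Aspherical gen rel →
    ∀ (G₀ : Subgroup G) [G₀.FiniteIndex],
      (∃ K : ℕ, ∀ p q : List (Let n), RootProp G₀ (ev gen p) → IsConj (ev gen p) (ev gen q) →
        ∃ v : List (Let n), v.length ≤ K ^ (p.length + q.length + 1) ∧
          (ev gen v)⁻¹ * ev gen p * ev gen v = ev gen q) ∧
      ((∀ g : G, RootProp G₀ g) →
        ComputablePred fun p : List (Let n) × List (Let n) =>
          IsConj (ev gen p.1) (ev gen p.2))

theorem specMAIN (hCON : SpecCON) (hWPC : SpecWPC) (hCPC : SpecCPC) : SpecMAIN := by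
  intro G _ n m gen rel hp ha has G₀ _
  have h := hCON G n m gen rel hp ha has G₀
  refine ⟨h, fun hr => ?_⟩
  obtain ⟨K, hK⟩ := h
  exact hCPC G n gen (hWPC G n gen ha) K fun p q hc => hK p q (hr _) hc

end Pool.Agent.Lib.MP59b239.CJ
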